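import Mathlib

/-!
# Signed sums over Hamming balls
-/

namespace Pool.Agent.Y646.Lh

open Finset

/-- The sign of an element of `ZMod 2`. -/
def sg (t : ZMod 2) : ℝ := if t = 0 then 1 else -1

lemma zmod2_cases (t : ZMod 2) : t = 0 ∨ t = 1 := by
  revert t; decide

@[simp] lemma sg_zero : sg 0 = 1 := by simp [sg]
@[simp] lemma sg_one : sg 1 = -1 := by simp [sg]

lemma sg_add (s t : ZMod 2) : sg (s + t) = sg s * sg t := by
  rcases zmod2_cases s with rfl | rfl <;> rcases zmod2_cases t with rfl | rfl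
  · simp
  · simp
  · simp
  · have : (1 : ZMod 2) + 1 = 0 := by decide
    rw [this]; simp

lemma sg_sq (t : ZMod 2) : sg t * sg t = 1 := by
  rcases zmod2_cases t with rfl | rfl <;> simp

lemma sg_abs (t : ZMod 2) : |sg t| = 1 := by
  rcases zmod2_cases t with rfl | rfl <;> simp

lemma sg_sum {ι : Type*} (s : Finset ι) (f : ι → ZMod 2) :
    sg (∑ i ∈ s, f i) = ∏ i ∈ s, sg (f i) := by
  classical
  induction s using Finset.induction_on with
  | empty => simp
  | insert a s ha ih => rw [Finset.sum_insert ha, Finset.prod_insert ha, sg_add, ih]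

/-- The sum of a product over the cube. -/
lemma sum_cube {n : ℕ} {K : Type*} [CommSemiring K] (g : Fin n → ZMod 2 → K) :
    ∑ x : Fin n → ZMod 2, ∏ i, g i (x i) = ∏ i, (g i 0 + g i 1) := by
  classical
  have h2 : ∀ i, ∑ t : ZMod 2, g i t = g i 0 + g i 1 := by
    intro i
    have : (Finset.univ : Finset (ZMod 2)) = {0, 1} := by decide
    rw [this, Finset.sum_pair (by decide)]
  simp_rw [← h2]
  rw [Finset.prod_univ_sum]
  simp

lemma pow_wt {n : ℕ} {K : Type*} [CommSemiring K] (z : K) (x : Fin n → ZMod 2) :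
    z ^ hammingNorm x = ∏ i, (if x i = 0 then 1 else z) := by
  classical
  unfold hammingNorm
  rw [Finset.prod_ite, Finset.prod_const_one, one_mul, Finset.prod_const]

/-- The number of words of weight less than `d` is at most `z^(-δn) (1+z)^n`. -/
lemma ball_le (n d : ℕ) (z : ℝ) (hz : 0 < z) (hz1 : z ≤ 1) :
    ((univ.filter fun x : Fin n → ZMod 2 => hammingNorm x < d).card : ℝ) * z ^ d ≤ (1 + z) ^ n := by
  classical
  have h1 : (1 + z) ^ n = ∑ x : Fin n → ZMod 2, z ^ hammingNorm x := by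
    simp_rw [pow_wt]
    rw [sum_cube (fun _ t => if t = 0 then (1 : ℝ) else z)]
    simp
  rw [h1]
  calc ((univ.filter fun x : Fin n → ZMod 2 => hammingNorm x < d).card : ℝ) * z ^ d
      = ∑ x ∈ univ.filter fun x : Fin n → ZMod 2 => hammingNorm x < d, z ^ d := by
        rw [Finset.sum_const, nsmul_eq_mul]
    _ ≤ ∑ x ∈ univ.filter fun x : Fin n → ZMod 2 => hammingNorm x < d, z ^ hammingNorm x := by
        apply Finset.sum_le_sum
        intro x hx
        exact pow_le_pow_of_le_one hz.le hz1 (Finset.mem_filter.1 hx).2.le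
    _ ≤ _ := by
        apply Finset.sum_le_sum_of_subset_of_nonneg (Finset.filter_subset _ _)
        intros; positivity

/-- Words of weight less than `d` in a ball around `c`. -/
lemma coll_le (n d : ℕ) (c : Fin n → ZMod 2) (y : ℝ) (hy : 0 < y) (hy1 : y ≤ 1) :
    ((univ.filter fun x : Fin n → ZMod 2 =>
      hammingNorm x < d ∧ hammingNorm (x + c) < d).card : ℝ) * y ^ (2 * d) ≤
      (1 + y ^ 2) ^ (n - hammingNorm c) * (2 * y) ^ hammingNorm c := by
  classical
  have h1 : ∑ x : Fin n → ZMod 2, y ^ (hammingNorm x + hammingNorm (x + c)) =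
      (1 + y ^ 2) ^ (n - hammingNorm c) * (2 * y) ^ hammingNorm c := by
    have h0 : ∀ x : Fin n → ZMod 2, y ^ (hammingNorm x + hammingNorm (x + c)) =
        ∏ i, ((if x i = 0 then (1 : ℝ) else y) * (if x i + c i = 0 then 1 else y)) := by
      intro x
      rw [pow_add, pow_wt, pow_wt, ← Finset.prod_mul_distrib]
      rfl
    simp_rw [h0]
    rw [sum_cube (fun i t => (if t = 0 then (1 : ℝ) else y) * (if t + c i = 0 then 1 else y))]
    have h2 : ∀ i, ((if (0 : ZMod 2) = 0 then (1 : ℝ) else y) * (if (0 : ZMod 2) + c i = 0 then 1 else y) +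
        (if (1 : ZMod 2) = 0 then (1 : ℝ) else y) * (if (1 : ZMod 2) + c i = 0 then 1 else y)) =
        if c i ≠ 0 then 2 * y else 1 + y ^ 2 := by
      intro i
      have h10 : (1 : ZMod 2) + 1 = 0 := by decide
      rcases zmod2_cases (c i) with h | h
      · simp [h]; ring
      · simp [h, h10]; ring
    rw [Finset.prod_congr rfl (fun i _ => h2 i)]
    rw [Finset.prod_ite, Finset.prod_const, Finset.prod_const]
    have h3 : (univ.filter fun i => ¬ c i ≠ 0).card = n - hammingNorm c := by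
      have := Finset.card_filter_add_card_filter_not (s := (univ : Finset (Fin n))) (fun i => c i ≠ 0)
      rw [Finset.card_univ, Fintype.card_fin] at this
      unfold hammingNorm
      omega
    rw [h3]
    unfold hammingNorm
    ring
  rw [← h1]
  calc ((univ.filter fun x : Fin n → ZMod 2 =>
      hammingNorm x < d ∧ hammingNorm (x + c) < d).card : ℝ) * y ^ (2 * d)
      = ∑ x ∈ univ.filter fun x : Fin n → ZMod 2 =>
      hammingNorm x < d ∧ hammingNorm (x + c) < d, y ^ (2 * d) := by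
        rw [Finset.sum_const, nsmul_eq_mul]
    _ ≤ ∑ x ∈ univ.filter fun x : Fin n → ZMod 2 =>
      hammingNorm x < d ∧ hammingNorm (x + c) < d, y ^ (hammingNorm x + hammingNorm (x + c)) := by
        apply Finset.sum_le_sum
        intro x hx
        have := (Finset.mem_filter.1 hx).2
        exact pow_le_pow_of_le_one hy.le hy1 (by omega)
    _ ≤ _ := by
        apply Finset.sum_le_sum_of_subset_of_nonneg (Finset.filter_subset _ _)
        intros; positivity

/-- The generating function of a signed sum. -/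
lemma gen (n : ℕ) (ξ : Fin n → ZMod 2) (u : ℂ) :
    ∑ x : Fin n → ZMod 2, ((sg (∑ i, ξ i * x i) : ℝ) : ℂ) * u ^ hammingNorm x =
      (1 - u) ^ hammingNorm ξ * (1 + u) ^ (n - hammingNorm ξ) := by
  classical
  have h0 : ∀ x : Fin n → ZMod 2, ((sg (∑ i, ξ i * x i) : ℝ) : ℂ) * u ^ hammingNorm x =
      ∏ i, (((sg (ξ i * x i) : ℝ) : ℂ) * (if x i = 0 then (1 : ℂ) else u)) := by
    intro x
    rw [pow_wt, sg_sum, Complex.ofReal_prod, ← Finset.prod_mul_distrib]
  simp_rw [h0]
  rw [sum_cube (fun i t => ((sg (ξ i * t) : ℝ) : ℂ) * (if t = 0 then (1 : ℂ) else u))]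
  have h2 : ∀ i, (((sg (ξ i * 0) : ℝ) : ℂ) * (if (0 : ZMod 2) = 0 then (1 : ℂ) else u) +
      ((sg (ξ i * 1) : ℝ) : ℂ) * (if (1 : ZMod 2) = 0 then (1 : ℂ) else u)) =
      if ξ i ≠ 0 then 1 - u else 1 + u := by
    intro i
    rcases zmod2_cases (ξ i) with h | h
    · simp [h]
    · simp [h]; ring
  rw [Finset.prod_congr rfl (fun i _ => h2 i)]
  rw [Finset.prod_ite, Finset.prod_const, Finset.prod_const]
  have h3 : (univ.filter fun i => ¬ ξ i ≠ 0).card = n - hammingNorm ξ := by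
    have := Finset.card_filter_add_card_filter_not (s := (univ : Finset (Fin n))) (fun i => ξ i ≠ 0)
    rw [Finset.card_univ, Fintype.card_fin] at this
    unfold hammingNorm
    omega
  rw [h3]
  rfl

lemma gen_norm (n m : ℕ) (ξ : Fin n → ZMod 2) (h1 : m ≤ hammingNorm ξ) (h2 : m + hammingNorm ξ ≤ n)
    (u : ℂ) (z : ℝ) (hz : ‖u‖ = z) :
    ‖(1 - u) ^ hammingNorm ξ * (1 + u) ^ (n - hammingNorm ξ)‖ ≤
      (1 + z ^ 2) ^ m * (1 + z) ^ (n - 2 * m) := by
  have hz0 : 0 ≤ z := hz ▸ norm_nonneg u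
  have e1 : (1 - u) ^ hammingNorm ξ * (1 + u) ^ (n - hammingNorm ξ) =
      (1 - u ^ 2) ^ m * ((1 - u) ^ (hammingNorm ξ - m) * (1 + u) ^ (n - hammingNorm ξ - m)) := by
    have a1 : hammingNorm ξ = m + (hammingNorm ξ - m) := by omega
    have a2 : n - hammingNorm ξ = m + (n - hammingNorm ξ - m) := by omega
    rw [a2]
    have a3 : m + (n - hammingNorm ξ - m) - m = n - hammingNorm ξ - m := by omega
    rw [a3]
    nth_rewrite 1 [a1]
    rw [pow_add, pow_add, show (1 - u ^ 2) = (1 - u) * (1 + u) by ring, mul_pow]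
    ring
  rw [e1, norm_mul, norm_mul, norm_pow, norm_pow, norm_pow]
  have b1 : ‖1 - u ^ 2‖ ≤ 1 + z ^ 2 := by
    calc ‖1 - u ^ 2‖ ≤ ‖(1 : ℂ)‖ + ‖u ^ 2‖ := norm_sub_le _ _
      _ = 1 + z ^ 2 := by rw [norm_one, norm_pow, hz]
  have b2 : ‖1 - u‖ ≤ 1 + z := by
    calc ‖1 - u‖ ≤ ‖(1 : ℂ)‖ + ‖u‖ := norm_sub_le _ _
      _ = 1 + z := by rw [norm_one, hz]
  have b3 : ‖1 + u‖ ≤ 1 + z := by
    calc ‖1 + u‖ ≤ ‖(1 : ℂ)‖ + ‖u‖ := norm_add_le _ _
      _ = 1 + z := by rw [norm_one, hz]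
  have e2 : (1 + z) ^ (n - 2 * m) = (1 + z) ^ (hammingNorm ξ - m) * (1 + z) ^ (n - hammingNorm ξ - m) := by
    rw [← pow_add]; congr 1; omega
  rw [e2]
  gcongr

/-- Signed sums over spheres. -/
lemma sphere (n m k : ℕ) (ξ : Fin n → ZMod 2) (h1 : m ≤ hammingNorm ξ) (h2 : m + hammingNorm ξ ≤ n)
    (z : ℝ) (hz0 : 0 < z) :
    |∑ x ∈ univ.filter fun x : Fin n → ZMod 2 => hammingNorm x = k, sg (∑ i, ξ i * x i)| * z ^ k ≤
      (1 + z ^ 2) ^ m * (1 + z) ^ (n - 2 * m) := by
  classical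
  by_cases hk : k ≤ n
  swap
  · have : (univ.filter fun x : Fin n → ZMod 2 => hammingNorm x = k) = ∅ := by
      apply Finset.filter_eq_empty_iff.2
      intro x _ hx
      have := hammingNorm_le_card_fintype (x := x)
      rw [Fintype.card_fin] at this
      omega
    rw [this]
    simp
    positivity
  set M := n + 1 with hM
  have hM0 : M ≠ 0 := by omega
  have hζ := Complex.isPrimitiveRoot_exp M hM0
  set ζ := Complex.exp (2 * Real.pi * Complex.I / M) with hζd
  have hnz : ‖ζ‖ = 1 := hζ.norm'_eq_one hM0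
  have hζ0 : ζ ≠ 0 := by
    intro h; rw [h] at hnz; simp at hnz
  -- the root of unity filter
  have filt : ∀ j : ℕ, j ≤ n → (∑ t ∈ range M, (ζ⁻¹ ^ t) ^ k * (ζ ^ t) ^ j) =
      if j = k then (M : ℂ) else 0 := by
    intro j hj
    by_cases hjk : j = k
    · subst hjk
      rw [if_pos rfl]
      have : ∀ t ∈ range M, (ζ⁻¹ ^ t) ^ j * (ζ ^ t) ^ j = 1 := by
        intro t _
        rw [← mul_pow, ← mul_pow, inv_mul_cancel₀ hζ0, one_pow, one_pow]
      rw [Finset.sum_congr rfl this]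
      simp
    · rw [if_neg hjk]
      set r := (ζ⁻¹) ^ k * ζ ^ j with hr
      have hsum : (∑ t ∈ range M, (ζ⁻¹ ^ t) ^ k * (ζ ^ t) ^ j) = ∑ t ∈ range M, r ^ t := by
        apply Finset.sum_congr rfl
        intro t _
        rw [hr, mul_pow, ← pow_mul, ← pow_mul, ← pow_mul, ← pow_mul, mul_comm t k, mul_comm t j]
      rw [hsum]
      have hr1 : r ≠ 1 := by
        intro h
        have : ζ ^ j = ζ ^ k := by
          have h3 : ζ ^ k * r = ζ ^ k := by rw [h, mul_one]
          rw [hr, ← mul_assoc, ← mul_pow, mul_inv_cancel₀ hζ0, one_pow, one_mul] at h3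
          exact h3
        exact hjk (hζ.pow_inj (by omega) (by omega) this)
      have hrM : r ^ M = 1 := by
        rw [hr, mul_pow, ← pow_mul, ← pow_mul, mul_comm k M, mul_comm j M, pow_mul, pow_mul, inv_pow,
          hζ.pow_eq_one]
        simp
      have := mul_neg_geom_sum r M
      rw [hrM, sub_self] at this
      rcases mul_eq_zero.1 this with h | h
      · exact absurd (sub_eq_zero.1 h).symm hr1
      · exact h
  have key : (M : ℂ) * (((∑ x ∈ univ.filter fun x : Fin n → ZMod 2 => hammingNorm x = k,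
      sg (∑ i, ξ i * x i) : ℝ) : ℂ) * (z : ℂ) ^ k) =
      ∑ t ∈ range M, (ζ⁻¹ ^ t) ^ k * ((1 - z * ζ ^ t) ^ hammingNorm ξ *
        (1 + z * ζ ^ t) ^ (n - hammingNorm ξ)) := by
    simp_rw [← gen, Finset.mul_sum]
    rw [Finset.sum_comm]
    rw [Complex.ofReal_sum, Finset.sum_mul, Finset.mul_sum, Finset.sum_filter]
    apply Finset.sum_congr rfl
    intro x _
    have hx : hammingNorm x ≤ n := by
      have := hammingNorm_le_card_fintype (x := x)
      rwa [Fintype.card_fin] at this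
    have h3 : ∑ t ∈ range M, (ζ⁻¹ ^ t) ^ k * (((sg (∑ i, ξ i * x i) : ℝ) : ℂ) *
        (z * ζ ^ t) ^ hammingNorm x) = ((sg (∑ i, ξ i * x i) : ℝ) : ℂ) * (z : ℂ) ^ hammingNorm x *
        ∑ t ∈ range M, (ζ⁻¹ ^ t) ^ k * (ζ ^ t) ^ hammingNorm x := by
      rw [Finset.mul_sum]
      apply Finset.sum_congr rfl
      intro t _
      rw [mul_pow]; ring
    rw [h3, filt _ hx]
    by_cases hxk : hammingNorm x = k
    · rw [if_pos hxk, if_pos hxk, hxk]; ring
    · rw [if_neg hxk, if_neg hxk]; ring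
  have hnorm := congrArg norm key
  rw [norm_mul, norm_mul, Complex.norm_real, Real.norm_eq_abs, norm_pow, Complex.norm_real,
    Real.norm_eq_abs, abs_of_pos hz0, Complex.norm_natCast] at hnorm
  have hb : ‖∑ t ∈ range M, (ζ⁻¹ ^ t) ^ k * ((1 - z * ζ ^ t) ^ hammingNorm ξ *
        (1 + z * ζ ^ t) ^ (n - hammingNorm ξ))‖ ≤ M * ((1 + z ^ 2) ^ m * (1 + z) ^ (n - 2 * m)) := by
    calc _ ≤ ∑ t ∈ range M, ‖(ζ⁻¹ ^ t) ^ k * ((1 - z * ζ ^ t) ^ hammingNorm ξ *
        (1 + z * ζ ^ t) ^ (n - hammingNorm ξ))‖ := norm_sum_le _ _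
      _ ≤ ∑ t ∈ range M, (1 + z ^ 2) ^ m * (1 + z) ^ (n - 2 * m) := by
        apply Finset.sum_le_sum
        intro t _
        rw [norm_mul, norm_pow, norm_pow, norm_inv, hnz]
        simp only [inv_one, one_pow, one_mul]
        apply gen_norm n m ξ h1 h2
        rw [norm_mul, norm_pow, hnz, one_pow, mul_one, Complex.norm_real, Real.norm_eq_abs,
          abs_of_pos hz0]
      _ = _ := by rw [Finset.sum_const, Finset.card_range, nsmul_eq_mul]
  rw [← hnorm] at hb
  have hMp : (0 : ℝ) < M := by positivity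
  exact le_of_mul_le_mul_left hb hMp

/-- Signed sums over balls. -/
lemma ball_sg (n m d : ℕ) (ξ : Fin n → ZMod 2) (h1 : m ≤ hammingNorm ξ) (h2 : m + hammingNorm ξ ≤ n)
    (z : ℝ) (hz0 : 0 < z) (hz1 : z ≤ 1) :
    |∑ x ∈ univ.filter fun x : Fin n → ZMod 2 => hammingNorm x < d, sg (∑ i, ξ i * x i)| * z ^ d ≤
      d * ((1 + z ^ 2) ^ m * (1 + z) ^ (n - 2 * m)) := by
  classical
  have e : ∑ x ∈ univ.filter (fun x : Fin n → ZMod 2 => hammingNorm x < d), sg (∑ i, ξ i * x i) =
      ∑ k ∈ range d, ∑ x ∈ univ.filter (fun x : Fin n → ZMod 2 => hammingNorm x = k),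
        sg (∑ i, ξ i * x i) := by
    rw [← Finset.sum_fiberwise_of_maps_to (s := univ.filter (fun x : Fin n → ZMod 2 => hammingNorm x < d))
      (t := range d) (g := fun x => hammingNorm x)]
    · apply Finset.sum_congr rfl
      intro k hk
      apply Finset.sum_congr _ (fun _ _ => rfl)
      ext x
      simp only [Finset.mem_filter, Finset.mem_univ, true_and]
      constructor
      · exact fun h => h.2
      · intro h; exact ⟨by rw [h]; exact Finset.mem_range.1 hk, h⟩
    · intro x hx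
      exact Finset.mem_range.2 (Finset.mem_filter.1 hx).2
  rw [e]
  calc _ ≤ (∑ k ∈ range d, |∑ x ∈ univ.filter (fun x : Fin n → ZMod 2 => hammingNorm x = k),
        sg (∑ i, ξ i * x i)|) * z ^ d := by
        gcongr; exact Finset.abs_sum_le_sum_abs _ _
    _ ≤ ∑ k ∈ range d, |∑ x ∈ univ.filter (fun x : Fin n → ZMod 2 => hammingNorm x = k),
        sg (∑ i, ξ i * x i)| * z ^ k := by
        rw [Finset.sum_mul]
        apply Finset.sum_le_sum
        intro k hk
        apply mul_le_mul_of_nonneg_left _ (abs_nonneg _)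
        exact pow_le_pow_of_le_one hz0.le hz1 (Finset.mem_range.1 hk).le
    _ ≤ ∑ k ∈ range d, ((1 + z ^ 2) ^ m * (1 + z) ^ (n - 2 * m)) :=
        Finset.sum_le_sum fun k _ => sphere n m k ξ h1 h2 z hz0
    _ = _ := by rw [Finset.sum_const, Finset.card_range, nsmul_eq_mul]

end Pool.Agent.Y646.Lh
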