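import Pool.Agent.Y646.Lh8

/-!
# Positivity for all characters
-/

namespace Pool.Agent.Y646.Lh

open Finset Module

section Nine

variable {V : Type*} [AddCommGroup V] [Module (ZMod 2) V] [Fintype V] [DecidableEq V]
variable {E : Type*} [AddCommGroup E] [Module (ZMod 2) E] [Finite E]

lemma card_sup_range (D : Submodule (ZMod 2) V) (X : E →ₗ[ZMod 2] V) :
    Nat.card ↥(D ⊔ LinearMap.range X) ≤ Nat.card D * Nat.card E := by
  have h2 : LinearMap.range (LinearMap.coprod D.subtype X) = D ⊔ LinearMap.range X := by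
    rw [LinearMap.range_coprod, Submodule.range_subtype]
  rw [← h2, ← Nat.card_prod]
  exact Nat.card_le_card_of_surjective (LinearMap.rangeRestrict (LinearMap.coprod D.subtype X))
    (LinearMap.surjective_rangeRestrict _)

/-- **Positivity for all characters.** -/
lemma gen_nonneg (low : Finset V) (h0 : (0 : V) ∈ low) (N τ : ℝ) (hN : 0 < N) (hτ : 0 ≤ τ)
    (D : Submodule (ZMod 2) V)
    (hR : ∀ D' : Submodule (ZMod 2) V, D ≤ D' → Good low D' →
      Nat.card D' ≤ Nat.card D * Nat.card E → Reg low N τ D')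
    (γ : ℕ → ℝ) (hγ : ∀ c, 0 ≤ γ c) (θ : ℝ) (hθ : 0 ≤ θ)
    (hγθ : ∀ r c, 1 ≤ c → γ (r + c) * N ^ c ≤ θ * γ r)
    (hsmall : 6 * ((2 : ℝ) ^ finrank (ZMod 2) E) ^ (3 * finrank (ZMod 2) E + 1) * τ * θ ≤ 1)
    (ψ : (E →ₗ[ZMod 2] V) →ₗ[ZMod 2] ZMod 2) (Θ : V →ₗ[ZMod 2] E)
    (hΘ : ∀ (l : E →ₗ[ZMod 2] ZMod 2) (v : V), ψ (l.smulRight v) = l (Θ v)) :
    0 ≤ ∑ X : E →ₗ[ZMod 2] V, ff low D γ X * sg (ψ X) := by
  classical
  have hV : Module.Finite (ZMod 2) V := Module.Finite.of_finite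
  have hE : Module.Finite (ZMod 2) E := Module.Finite.of_finite
  set U := LinearMap.range Θ with hU
  obtain ⟨U', hc⟩ := Submodule.exists_isCompl U
  set e := LinearMap.ofIsComplProdEquiv (R₁ := ZMod 2) (F := V) hc with he
  have hea : ∀ (X1 : U →ₗ[ZMod 2] V) (X2 : U' →ₗ[ZMod 2] V),
      e (X1, X2) = LinearMap.ofIsCompl hc X1 X2 := fun X1 X2 => rfl
  have hrange : ∀ (X1 : U →ₗ[ZMod 2] V) (X2 : U' →ₗ[ZMod 2] V),
      D ⊔ LinearMap.range (e (X1, X2)) = (D ⊔ LinearMap.range X2) ⊔ LinearMap.range X1 := by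
    intro X1 X2
    rw [hea, LinearMap.range_ofIsCompl, sup_assoc, sup_comm (LinearMap.range X1)]
  -- the second component is invisible
  have hψ2 : ∀ X2 : U' →ₗ[ZMod 2] V, ψ (e (0, X2)) = 0 := by
    intro X2
    set β := Module.finBasis (ZMod 2) U' with hβ
    have hX : e (0, X2) = ∑ i, (LinearMap.ofIsCompl hc 0 (β.coord i)).smulRight (X2 (β i)) := by
      rw [hea]
      apply LinearMap.ofIsCompl_eq
      · intro u
        rw [LinearMap.sum_apply]
        simp
      · intro u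
        rw [LinearMap.sum_apply]
        simp only [LinearMap.smulRight_apply, LinearMap.ofIsCompl_apply_right, Basis.coord_apply]
        conv_lhs => rw [← β.sum_repr u, map_sum]
        simp only [map_smul]
    rw [hX, map_sum]
    apply Finset.sum_eq_zero
    intro i _
    rw [hΘ]
    have : (⟨Θ (X2 (β i)), ⟨_, rfl⟩⟩ : U).1 = Θ (X2 (β i)) := rfl
    rw [← this, LinearMap.ofIsCompl_apply_left]
    rfl
  set ψ' : (U →ₗ[ZMod 2] V) →ₗ[ZMod 2] ZMod 2 :=
    ψ ∘ₗ e.toLinearMap ∘ₗ LinearMap.inl (ZMod 2) (U →ₗ[ZMod 2] V) (U' →ₗ[ZMod 2] V) with hψ'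
  have hψ'a : ∀ X1, ψ' X1 = ψ (e (X1, 0)) := fun X1 => rfl
  have hfull : Full ψ' := by
    intro l hl
    obtain ⟨u, hu⟩ : ∃ u, l u ≠ 0 := by
      by_contra h; push Not at h; exact hl (LinearMap.ext h)
    obtain ⟨v, hv⟩ := u.2
    refine ⟨v, ?_⟩
    rw [hψ'a]
    have h1 : e (l.smulRight v, 0) = (LinearMap.ofIsCompl hc l 0).smulRight v := by
      rw [hea]
      apply LinearMap.ofIsCompl_eq
      · intro w; simp
      · intro w; simp
    rw [h1, hΘ, hv, LinearMap.ofIsCompl_apply_left]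
    exact hu
  have hψsum : ∀ X1 X2, ψ (e (X1, X2)) = ψ' X1 := by
    intro X1 X2
    have : e (X1, X2) = e (X1, 0) + e (0, X2) := by
      rw [← map_add]; simp
    rw [this, map_add, hψ2, add_zero, hψ'a]
  rw [← Equiv.sum_comp e.toEquiv, Fintype.sum_prod_type_right]
  apply Finset.sum_nonneg
  intro X2 _
  set D' := D ⊔ LinearMap.range X2 with hD'
  by_cases hg : Good low D'
  swap
  · apply Finset.sum_nonneg
    intro X1 _
    change 0 ≤ ff low D γ (e (X1, X2)) * sg (ψ (e (X1, X2)))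
    unfold ff
    rw [hrange, if_neg, zero_mul]
    intro h
    exact hg (h.mono le_sup_left)
  set r := finrank (ZMod 2) D' - finrank (ZMod 2) D with hr
  have hDD' : D ≤ D' := le_sup_left
  have hfr : finrank (ZMod 2) D ≤ finrank (ZMod 2) D' := Submodule.finrank_mono hDD'
  have hterm : ∀ X1 : U →ₗ[ZMod 2] V, ff low D γ (e (X1, X2)) * sg (ψ (e (X1, X2))) =
      ff low D' (fun c => γ (r + c)) X1 * sg (ψ' X1) := by
    intro X1
    rw [hψsum]
    congr 1
    unfold ff
    rw [hrange, ← hD']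
    by_cases h : Good low (D' ⊔ LinearMap.range X1)
    · rw [if_pos h, if_pos h]
      congr 1
      have : finrank (ZMod 2) D' ≤ finrank (ZMod 2) ↥(D' ⊔ LinearMap.range X1) :=
        Submodule.finrank_mono le_sup_left
      omega
    · rw [if_neg h, if_neg h]
  have hfe : ∑ X1 : U →ₗ[ZMod 2] V, ff low D γ (e.toEquiv (X1, X2)) * sg (ψ (e.toEquiv (X1, X2))) =
      ∑ X1 : U →ₗ[ZMod 2] V, ff low D' (fun c => γ (r + c)) X1 * sg (ψ' X1) :=
    Finset.sum_congr rfl fun X1 _ => hterm X1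
  rw [hfe]
  have hUE : finrank (ZMod 2) U ≤ finrank (ZMod 2) E := Submodule.finrank_le U
  have hcardU' : Nat.card U' ≤ Nat.card E := Nat.card_le_card_of_injective U'.subtype U'.injective_subtype
  apply full_nonneg low h0 N τ hN hτ D' hg _ _ (fun c => hγ (r + c)) ψ' hfull θ hθ
  · intro c hc1
    have := hγθ r c hc1
    simpa using this
  · refine le_trans ?_ hsmall
    have hpow : ((2 : ℝ) ^ finrank (ZMod 2) U) ^ (3 * finrank (ZMod 2) U + 1) ≤
        ((2 : ℝ) ^ finrank (ZMod 2) E) ^ (3 * finrank (ZMod 2) E + 1) := by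
      rw [← pow_mul, ← pow_mul]
      apply pow_le_pow_right₀ (by norm_num)
      exact Nat.mul_le_mul hUE (by omega)
    gcongr
  · apply hR D' hDD' hg
    refine (card_sup_range D X2).trans ?_
    exact Nat.mul_le_mul_left _ hcardU'

end Nine

end Pool.Agent.Y646.Lh
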