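import Pool.Agent.Y646.Lh2
import Pool.Agent.Y646.Lh9

/-!
# The Hamming balls modulo a code are pseudorandom
-/

namespace Pool.Agent.Y646.Lh

open Finset Module

/-- The words of weight less than `d`. -/
def low (n d : ℕ) : Finset (Fin n → ZMod 2) := univ.filter fun x => hammingNorm x < d

lemma mem_low (n d : ℕ) (x : Fin n → ZMod 2) : x ∈ low n d ↔ hammingNorm x < d := by
  simp [low]

open Classical in
lemma reg_of (n d m : ℕ) (z : ℝ) (hz0 : 0 < z) (hz1 : z ≤ 1) (L τ : ℝ)
    (D : Submodule (ZMod 2) (Fin n → ZMod 2)) (hgood : Good (low n d) D)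
    (hdual : ∀ ξ : Fin n → ZMod 2, ξ ≠ 0 → (∀ x ∈ D, ∑ j, ξ j * x j = 0) →
        m ≤ hammingNorm ξ ∧ m + hammingNorm ξ ≤ n)
    (hL : (Nat.card D : ℝ) ≤ L)
    (hτ1 : d * ((1 + z ^ 2) / (1 + z) ^ 2) ^ m + L * (2 * √z / (1 + z)) ^ d ≤ τ)
    (hτ2 : L * ((1 + z) ^ n / z ^ d) ≤ τ * 2 ^ n) :
    Reg (low n d) ((1 + z) ^ n / z ^ d) τ D := by
  set N := (1 + z) ^ n / z ^ d with hN
  have hN0 : 0 < N := by positivity
  have hzd : 0 < z ^ d := by positivity
  set g := 2 * √z / (1 + z) with hg
  have hg0 : 0 ≤ g := by positivity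
  have hg1 : g ≤ 1 := by
    rw [hg, div_le_one (by positivity)]
    nlinarith [sq_nonneg (1 - √z), Real.sq_sqrt hz0.le]
  set Df : Finset (Fin n → ZMod 2) := univ.filter fun x => x ∈ D with hDf
  have hDc : (Df.card : ℝ) = Nat.card D := by
    congr 1
    rw [Nat.card_eq_fintype_card, hDf]
    exact (Fintype.card_subtype (fun x => x ∈ D)).symm
  have hDL : (Df.card : ℝ) ≤ L := hDc ▸ hL
  have hlow : ((low n d).card : ℝ) ≤ N := by
    rw [hN, le_div_iff₀ hzd]
    exact ball_le n d z hz0 hz1
  have hvv : ∀ v : Fin n → ZMod 2, v + v = 0 := fun v => funext fun i => CharTwo.add_self_eq_zero (v i)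
  -- the number of representations
  set S : (Fin n → ZMod 2) → Finset (Fin n → ZMod 2) := fun x => Df.filter fun c => x + c ∈ low n d
    with hS
  have hSbd : ∀ x, x ∈ bd (low n d) D ↔ 1 ≤ (S x).card := by
    intro x
    rw [mem_bd, Nat.one_le_iff_ne_zero, Finset.card_ne_zero, hS]
    constructor
    · rintro ⟨c, hc, h⟩
      exact ⟨c, Finset.mem_filter.2 ⟨Finset.mem_filter.2 ⟨Finset.mem_univ _, hc⟩, h⟩⟩
    · rintro ⟨c, hc⟩
      rw [Finset.mem_filter] at hc
      exact ⟨c, (Finset.mem_filter.1 hc.1).2, hc.2⟩
  -- sums over representations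
  have hrep : ∀ F : (Fin n → ZMod 2) → ℝ, (∀ c ∈ D, ∀ x, F (x + c) = F x) →
      ∑ x, ((S x).card : ℝ) * F x = Df.card * ∑ y ∈ low n d, F y := by
    intro F hF
    have h1 : ∀ x, ((S x).card : ℝ) * F x = ∑ c ∈ Df, (if x + c ∈ low n d then F x else 0) := by
      intro x
      rw [← Finset.sum_filter, Finset.sum_const, nsmul_eq_mul]
    simp_rw [h1]
    rw [Finset.sum_comm]
    have h2 : ∀ c ∈ Df, ∑ x, (if x + c ∈ low n d then F x else 0) = ∑ y ∈ low n d, F y := by
      intro c hc
      have hcD := (Finset.mem_filter.1 hc).2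
      rw [← Equiv.sum_comp (Equiv.addRight c)]
      rw [← Finset.sum_filter]
      apply Finset.sum_congr
      · ext x
        simp only [Finset.mem_filter, Finset.mem_univ, true_and, Equiv.coe_addRight]
        rw [add_assoc, hvv, add_zero]
      · intro x _
        exact hF c hcD x
    rw [Finset.sum_congr rfl h2, Finset.sum_const, nsmul_eq_mul]
  -- collisions
  have hcoll : ∀ e ∈ D, e ≠ 0 → ((univ.filter fun x : Fin n → ZMod 2 =>
      x ∈ low n d ∧ x + e ∈ low n d).card : ℝ) ≤ N * g ^ d := by
    intro e he he0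
    have hwe : d ≤ hammingNorm e := by
      by_contra h
      exact he0 (hgood e he ((mem_low n d e).2 (by omega)))
    have h1 := coll_le n d e (√z) (Real.sqrt_pos.2 hz0) (Real.sqrt_le_one.2 hz1)
    have h2 : (√z) ^ (2 * d) = z ^ d := by rw [pow_mul, Real.sq_sqrt hz0.le]
    have h3 : (√z) ^ 2 = z := Real.sq_sqrt hz0.le
    rw [h2, h3] at h1
    have hwn : hammingNorm e ≤ n := by
      have := hammingNorm_le_card_fintype (x := e)
      rwa [Fintype.card_fin] at this
    have h4 : (1 + z) ^ (n - hammingNorm e) * (2 * √z) ^ hammingNorm e =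
        (1 + z) ^ n * g ^ hammingNorm e := by
      have : (1 + z) ^ n = (1 + z) ^ (n - hammingNorm e) * (1 + z) ^ hammingNorm e := by
        rw [← pow_add]; congr 1; omega
      rw [this, hg, div_pow]
      field_simp
    rw [h4] at h1
    have h5 : ((univ.filter fun x : Fin n → ZMod 2 =>
      hammingNorm x < d ∧ hammingNorm (x + e) < d).card : ℝ) ≤ N * g ^ hammingNorm e := by
      rw [hN, div_mul_eq_mul_div, le_div_iff₀ hzd]
      exact h1
    have h6 : (univ.filter fun x : Fin n → ZMod 2 => x ∈ low n d ∧ x + e ∈ low n d) =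
        (univ.filter fun x : Fin n → ZMod 2 => hammingNorm x < d ∧ hammingNorm (x + e) < d) := by
      ext x; simp [mem_low]
    rw [h6]
    refine h5.trans ?_
    apply mul_le_mul_of_nonneg_left _ hN0.le
    exact pow_le_pow_of_le_one hg0 hg1 hwe
  have hoff : ∑ x, ((S x).offDiag.card : ℝ) ≤ Df.card * L * (N * g ^ d) := by
    have h1 : ∀ x, ((S x).offDiag.card : ℝ) = ∑ p ∈ Df.offDiag,
        (if x + p.1 ∈ low n d ∧ x + p.2 ∈ low n d then (1 : ℝ) else 0) := by
      intro x
      rw [← Finset.sum_filter, Finset.sum_const, nsmul_eq_mul, mul_one]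
      congr 2
      ext p
      simp only [hS, Finset.mem_offDiag, Finset.mem_filter]
      tauto
    simp_rw [h1]
    rw [Finset.sum_comm]
    calc _ ≤ ∑ p ∈ Df.offDiag, N * g ^ d := by
          apply Finset.sum_le_sum
          intro p hp
          rw [Finset.mem_offDiag] at hp
          obtain ⟨hp1, hp2, hp3⟩ := hp
          have hp1' := (Finset.mem_filter.1 hp1).2
          have hp2' := (Finset.mem_filter.1 hp2).2
          rw [← Equiv.sum_comp (Equiv.addRight p.1)]
          have h2 := hcoll (p.1 + p.2) (D.add_mem hp1' hp2') (by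
            intro h
            apply hp3
            have := congrArg (fun t => t + p.2) h
            simpa [add_assoc, hvv] using this)
          refine le_trans (le_of_eq ?_) h2
          rw [Finset.card_filter]
          push_cast
          apply Finset.sum_congr rfl
          intro x _
          have q1 : (Equiv.addRight p.1) x + p.1 = x := by
            rw [Equiv.coe_addRight, add_assoc, hvv, add_zero]
          have q2 : (Equiv.addRight p.1) x + p.2 = x + (p.1 + p.2) := by
            rw [Equiv.coe_addRight, add_assoc]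
          simp only [q1, q2]
      _ = Df.offDiag.card * (N * g ^ d) := by rw [Finset.sum_const, nsmul_eq_mul]
      _ ≤ _ := by
          apply mul_le_mul_of_nonneg_right _ (by positivity)
          have : Df.offDiag.card ≤ Df.card * Df.card := by
            rw [Finset.offDiag_card]; omega
          calc (Df.offDiag.card : ℝ) ≤ Df.card * Df.card := by exact_mod_cast this
            _ ≤ _ := by gcongr
  refine ⟨?_, ?_, ?_⟩
  · have h1 := hrep (fun _ => 1) (fun _ _ _ => rfl)
    simp only [mul_one, Finset.sum_const, nsmul_eq_mul] at h1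
    have h2 : ((bd (low n d) D).card : ℝ) ≤ ∑ x, ((S x).card : ℝ) := by
      have : ((bd (low n d) D).card : ℝ) = ∑ x, (if x ∈ bd (low n d) D then (1 : ℝ) else 0) := by
        simp
      rw [this]
      apply Finset.sum_le_sum
      intro x _
      split_ifs with h
      · exact_mod_cast (hSbd x).1 h
      · positivity
    rw [h1, hDc] at h2
    refine h2.trans ?_
    exact mul_le_mul_of_nonneg_left hlow (Nat.cast_nonneg _)
  · intro φ hφ
    by_cases hφD : ∀ c ∈ D, φ c = 0
    swap
    · push Not at hφD
      obtain ⟨c, hc, hφc⟩ := hφD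
      have hφ1 : φ c = 1 := (zmod2_cases _).resolve_left hφc
      have h1 : hat (bd (low n d) D) φ = - hat (bd (low n d) D) φ := by
        have h2 : hat (bd (low n d) D) φ = ∑ x, (if x ∈ bd (low n d) D then sg (φ x) else 0) := by
          simp [hat]
        conv_lhs => rw [h2, ← Equiv.sum_comp (Equiv.addRight c)]
        rw [h2, ← Finset.sum_neg_distrib]
        apply Finset.sum_congr rfl
        intro x _
        simp only [Equiv.coe_addRight]
        rw [add_comm x c, map_add, sg_add, hφ1, sg_one]
        have := bd_add (low n d) D x c hc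
        by_cases h : x ∈ bd (low n d) D
        · rw [if_pos (this.2 h), if_pos h]; ring
        · rw [if_neg (fun h' => h (this.1 h')), if_neg h]; ring
      have h3 : hat (bd (low n d) D) φ = 0 := by linarith
      have hLp : 0 ≤ L := le_trans (Nat.cast_nonneg _) hL
      have hτ0 : 0 ≤ τ := le_trans (by positivity) hτ1
      rw [h3, abs_zero]
      positivity
    · -- the functional is given by a vector
      set ξ : Fin n → ZMod 2 := fun j => φ (Pi.single j 1) with hξ
      have hφξ : ∀ x, φ x = ∑ j, ξ j * x j := by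
        intro x
        rw [LinearMap.pi_apply_eq_sum_univ φ x]
        apply Finset.sum_congr rfl
        intro j _
        rw [smul_eq_mul, mul_comm]
        congr 2
        ext i
        rw [Pi.single_apply]
        by_cases h : i = j
        · rw [if_pos h, if_pos h.symm]
        · rw [if_neg h, if_neg (fun h' => h h'.symm)]
      have hξ0 : ξ ≠ 0 := by
        intro h
        apply hφ
        ext j
        have := congrFun h j
        simpa [hξ] using this
      obtain ⟨hm1, hm2⟩ := hdual ξ hξ0 (fun x hx => by rw [← hφξ]; exact hφD x hx)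
      have hball := ball_sg n m d ξ hm1 hm2 z hz0 hz1
      have h2m : 2 * m ≤ n := by omega
      have hb2 : |∑ y ∈ low n d, sg (φ y)| ≤ d * N * ((1 + z ^ 2) / (1 + z) ^ 2) ^ m := by
        have e1 : d * N * ((1 + z ^ 2) / (1 + z) ^ 2) ^ m =
            d * ((1 + z ^ 2) ^ m * (1 + z) ^ (n - 2 * m)) / z ^ d := by
          have : (1 + z) ^ n = (1 + z) ^ (n - 2 * m) * ((1 + z) ^ 2) ^ m := by
            rw [← pow_mul, ← pow_add]; congr 1; omega
          rw [hN, this, div_pow]
          field_simp
        rw [e1, le_div_iff₀ hzd]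
        simp_rw [hφξ]
        exact hball
      have h1 := hrep (fun x => sg (φ x)) (fun c hc x => by
        rw [map_add, hφD c hc, add_zero])
      have h2 : hat (bd (low n d) D) φ = ∑ x, (if 1 ≤ (S x).card then (1 : ℝ) else 0) * sg (φ x) := by
        unfold hat
        rw [← Finset.sum_filter_add_sum_filter_not univ (fun x => x ∈ bd (low n d) D)]
        have a1 : ∑ x ∈ univ.filter (fun x => x ∈ bd (low n d) D),
            (if 1 ≤ (S x).card then (1 : ℝ) else 0) * sg (φ x) = ∑ x ∈ bd (low n d) D, sg (φ x) := by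
          apply Finset.sum_congr
          · ext x; simp
          · intro x hx
            rw [if_pos ((hSbd x).1 hx), one_mul]
        have a2 : ∑ x ∈ univ.filter (fun x => ¬ x ∈ bd (low n d) D),
            (if 1 ≤ (S x).card then (1 : ℝ) else 0) * sg (φ x) = 0 := by
          apply Finset.sum_eq_zero
          intro x hx
          rw [if_neg (fun h => (Finset.mem_filter.1 hx).2 ((hSbd x).2 h)), zero_mul]
        rw [a1, a2, add_zero]
      have h3 : |hat (bd (low n d) D) φ - ∑ x, ((S x).card : ℝ) * sg (φ x)| ≤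
          ∑ x, ((S x).offDiag.card : ℝ) := by
        rw [h2, ← Finset.sum_sub_distrib]
        refine (Finset.abs_sum_le_sum_abs _ _).trans ?_
        apply Finset.sum_le_sum
        intro x _
        rw [← sub_mul, abs_mul, sg_abs, mul_one, Finset.offDiag_card]
        by_cases h : 1 ≤ (S x).card
        · rw [if_pos h]
          have hle : (S x).card ≤ (S x).card * (S x).card := Nat.le_mul_self _
          rw [Nat.cast_sub hle]
          push_cast
          have h4 : (1 : ℝ) ≤ (S x).card := by exact_mod_cast h
          rw [abs_le]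
          constructor <;> nlinarith
        · have : (S x).card = 0 := by omega
          rw [if_neg h, this, Nat.cast_zero, sub_zero, abs_zero]
      have h4 : |hat (bd (low n d) D) φ| ≤ Df.card * (d * N * ((1 + z ^ 2) / (1 + z) ^ 2) ^ m) +
          Df.card * L * (N * g ^ d) := by
        have h5 : |∑ x, ((S x).card : ℝ) * sg (φ x)| ≤
            Df.card * (d * N * ((1 + z ^ 2) / (1 + z) ^ 2) ^ m) := by
          rw [h1, abs_mul, Nat.abs_cast]
          exact mul_le_mul_of_nonneg_left hb2 (Nat.cast_nonneg _)
        calc |hat (bd (low n d) D) φ| = |∑ x, ((S x).card : ℝ) * sg (φ x) +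
              (hat (bd (low n d) D) φ - ∑ x, ((S x).card : ℝ) * sg (φ x))| := by
              rw [add_sub_cancel]
          _ ≤ _ := abs_add_le _ _
          _ ≤ _ := add_le_add h5 (h3.trans hoff)
      refine h4.trans ?_
      rw [← hDc]
      have h6 : (Df.card : ℝ) * (d * N * ((1 + z ^ 2) / (1 + z) ^ 2) ^ m) +
          Df.card * L * (N * g ^ d) =
          Df.card * N * (d * ((1 + z ^ 2) / (1 + z) ^ 2) ^ m + L * g ^ d) := by ring
      rw [h6]
      exact mul_le_mul_of_nonneg_left hτ1 (mul_nonneg (Nat.cast_nonneg _) hN0.le)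
  · have h1 : (Fintype.card (Fin n → ZMod 2) : ℝ) = 2 ^ n := by
      rw [card_V, Nat.cast_pow, Nat.cast_ofNat]
    rw [h1]
    refine le_trans ?_ hτ2
    exact mul_le_mul_of_nonneg_right hL hN0.le

end Pool.Agent.Y646.Lh
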