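import Pool.Agent.Y646.Lh10

/-!
# Tuples
-/

namespace Pool.Agent.Y646.Lh

open Finset Module

section Eleven

variable {n : ℕ}

open Classical in
/-- The pseudo-distribution on tuples. -/
noncomputable def fT {ι : Type*} (d : ℕ) (D : Submodule (ZMod 2) (Fin n → ZMod 2)) (γ : ℕ → ℝ)
    (X : ι → Fin n → ZMod 2) : ℝ :=
  if Good (low n d) (D ⊔ Submodule.span (ZMod 2) (Set.range X)) then
    γ (finrank (ZMod 2) ↥(D ⊔ Submodule.span (ZMod 2) (Set.range X)) - finrank (ZMod 2) D) else 0

lemma fT_eq {ι : Type*} [Fintype ι] [DecidableEq ι] (d : ℕ)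
    (D : Submodule (ZMod 2) (Fin n → ZMod 2)) (γ : ℕ → ℝ) (X : ι → Fin n → ZMod 2) :
    fT d D γ X = ff (low n d) D γ ((Pi.basisFun (ZMod 2) ι).constr (ZMod 2) X) := by
  unfold fT ff
  rw [Basis.constr_range]

/-- Positivity of the Fourier transform on tuples. -/
lemma tuple_nonneg {ι : Type*} [Fintype ι] [DecidableEq ι] (d : ℕ) (hd : 1 ≤ d) (N τ : ℝ) (hN : 0 < N)
    (hτ : 0 ≤ τ) (D : Submodule (ZMod 2) (Fin n → ZMod 2))
    (hR : ∀ D' : Submodule (ZMod 2) (Fin n → ZMod 2), D ≤ D' → Good (low n d) D' →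
      Nat.card D' ≤ Nat.card D * 2 ^ Fintype.card ι → Reg (low n d) N τ D')
    (γ : ℕ → ℝ) (hγ : ∀ c, 0 ≤ γ c) (θ : ℝ) (hθ : 0 ≤ θ)
    (hγθ : ∀ r c, 1 ≤ c → γ (r + c) * N ^ c ≤ θ * γ r)
    (hsmall : 6 * ((2 : ℝ) ^ Fintype.card ι) ^ (3 * Fintype.card ι + 1) * τ * θ ≤ 1)
    (Ξ : ι → Fin n → ZMod 2) :
    0 ≤ ∑ X : ι → Fin n → ZMod 2, fT d D γ X * sg (∑ i, ∑ j, Ξ i j * X i j) := by
  classical
  have hfr : finrank (ZMod 2) (ι → ZMod 2) = Fintype.card ι := Module.finrank_fintype_fun_eq_card _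
  have hcE : Nat.card (ι → ZMod 2) = 2 ^ Fintype.card ι := by
    rw [Nat.card_eq_fintype_card, Fintype.card_fun, ZMod.card]
  -- the functional and its transpose
  set dot : (Fin n → ZMod 2) → ((Fin n → ZMod 2) →ₗ[ZMod 2] ZMod 2) := fun ξ =>
    { toFun := fun x => ∑ j, ξ j * x j
      map_add' := by
        intro x y
        simp only [Pi.add_apply, mul_add, Finset.sum_add_distrib]
      map_smul' := by
        intro c x
        simp only [Pi.smul_apply, smul_eq_mul, Finset.mul_sum, RingHom.id_apply]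
        apply Finset.sum_congr rfl
        intro j _; ring } with hdot
  have hdota : ∀ ξ x, dot ξ x = ∑ j, ξ j * x j := fun _ _ => rfl
  set β := Pi.basisFun (ZMod 2) ι with hβ
  set ψ : ((ι → ZMod 2) →ₗ[ZMod 2] (Fin n → ZMod 2)) →ₗ[ZMod 2] ZMod 2 :=
    { toFun := fun X => ∑ i, dot (Ξ i) (X (β i))
      map_add' := by
        intro X Y
        simp only [LinearMap.add_apply, map_add, Finset.sum_add_distrib]
      map_smul' := by
        intro c X
        simp only [LinearMap.smul_apply, map_smul, Finset.smul_sum, RingHom.id_apply] } with hψ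
  have hψa : ∀ X, ψ X = ∑ i, dot (Ξ i) (X (β i)) := fun _ => rfl
  set Θ : (Fin n → ZMod 2) →ₗ[ZMod 2] (ι → ZMod 2) := LinearMap.pi fun i => dot (Ξ i) with hΘ
  have hrep : ∀ (l : (ι → ZMod 2) →ₗ[ZMod 2] ZMod 2) (v : Fin n → ZMod 2),
      ψ (l.smulRight v) = l (Θ v) := by
    intro l v
    rw [hψa]
    have h1 : Θ v = ∑ i, (dot (Ξ i) v) • β i := by
      have := β.sum_repr (Θ v)
      rw [← this]
      apply Finset.sum_congr rfl
      intro i _
      rfl
    rw [h1, map_sum]
    apply Finset.sum_congr rfl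
    intro i _
    rw [LinearMap.smulRight_apply, map_smul, map_smul, smul_eq_mul, smul_eq_mul, mul_comm]
  have h0 : (0 : Fin n → ZMod 2) ∈ low n d := by
    rw [mem_low, hammingNorm_zero]; omega
  have key := gen_nonneg (E := ι → ZMod 2) (low n d) h0 N τ hN hτ D
    (fun D' h1 h2 h3 => hR D' h1 h2 (by rwa [hcE] at h3)) γ hγ θ hθ hγθ (by rwa [hfr]) ψ Θ hrep
  rw [← Equiv.sum_comp (β.constr (ZMod 2)).toEquiv] at key
  refine le_trans key (le_of_eq ?_)
  apply Finset.sum_congr rfl
  intro X _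
  change ff (low n d) D γ (β.constr (ZMod 2) X) * sg (ψ (β.constr (ZMod 2) X)) = _
  have e9 : ψ (β.constr (ZMod 2) X) = ∑ i, ∑ j, Ξ i j * X i j := by
    rw [hψa]
    apply Finset.sum_congr rfl
    intro i _
    rw [Basis.constr_basis, hdota]
  rw [fT_eq, e9]

/-- Shifting the base. -/
lemma fT_shift {ι κ : Type*} (d : ℕ) (D D₀ : Submodule (ZMod 2) (Fin n → ZMod 2)) (γ : ℕ → ℝ)
    (X : ι → Fin n → ZMod 2) (W : κ → Fin n → ZMod 2) (hD : D ≤ D₀)
    (h : D ⊔ Submodule.span (ZMod 2) (Set.range X) = D₀ ⊔ Submodule.span (ZMod 2) (Set.range W)) :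
    fT d D γ X = fT d D₀ (fun c => γ ((finrank (ZMod 2) D₀ - finrank (ZMod 2) D) + c)) W := by
  unfold fT
  rw [h]
  split_ifs
  · congr 1
    have h1 : finrank (ZMod 2) D ≤ finrank (ZMod 2) D₀ := Submodule.finrank_mono hD
    have h2 : finrank (ZMod 2) D₀ ≤
        finrank (ZMod 2) ↥(D₀ ⊔ Submodule.span (ZMod 2) (Set.range W)) :=
      Submodule.finrank_mono le_sup_left
    omega
  · rfl

lemma card_sup_span {κ : Type*} [Fintype κ] (D : Submodule (ZMod 2) (Fin n → ZMod 2))
    (W : κ → Fin n → ZMod 2) :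
    Nat.card ↥(D ⊔ Submodule.span (ZMod 2) (Set.range W)) ≤ Nat.card D * 2 ^ Fintype.card κ := by
  classical
  have h1 := card_sup_range D ((Pi.basisFun (ZMod 2) κ).constr (ZMod 2) W)
  rw [Basis.constr_range] at h1
  have hcE : Nat.card (κ → ZMod 2) = 2 ^ Fintype.card κ := by
    rw [Nat.card_eq_fintype_card, Fintype.card_fun, ZMod.card]
  rwa [hcE] at h1

open Classical in
/-- Positivity of all partial Fourier transforms. -/
lemma partial_nonneg (l d : ℕ) (hd : 1 ≤ d) (N τ : ℝ) (hN : 0 < N) (hτ : 0 ≤ τ)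
    (C : Submodule (ZMod 2) (Fin n → ZMod 2))
    (hR : ∀ D' : Submodule (ZMod 2) (Fin n → ZMod 2), C ≤ D' → Good (low n d) D' →
      Nat.card D' ≤ Nat.card C * 2 ^ l → Reg (low n d) N τ D')
    (γ : ℕ → ℝ) (hγ : ∀ c, 0 ≤ γ c) (θ : ℝ) (hθ : 0 ≤ θ)
    (hγθ : ∀ r c, 1 ≤ c → γ (r + c) * N ^ c ≤ θ * γ r)
    (hsmall : 6 * ((2 : ℝ) ^ l) ^ (3 * l + 1) * τ * θ ≤ 1)
    (S : Finset (Fin l)) (X Ξ : Fin l → Fin n → ZMod 2) :
    0 ≤ ∑ Z ∈ univ.filter (fun Z : Fin l → Fin n → ZMod 2 => ∀ i ∉ S, Z i = X i),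
      fT d C γ Z * sg (∑ i ∈ S, ∑ j, Ξ i j * Z i j) := by
  -- the fixed part
  set P : {i // i ∉ S} → Fin n → ZMod 2 := fun i => X i with hP
  set D₀ := C ⊔ Submodule.span (ZMod 2) (Set.range P) with hD₀
  set comb : (S → Fin n → ZMod 2) → Fin l → Fin n → ZMod 2 := fun W i =>
    if h : i ∈ S then W ⟨i, h⟩ else X i with hcomb
  have hcombS : ∀ W (i : S), comb W i = W i := by
    intro W i
    simp [hcomb]
  have hcombN : ∀ W i, i ∉ S → comb W i = X i := by
    intro W i hi
    simp [hcomb, hi]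
  have hsum : ∑ Z ∈ univ.filter (fun Z : Fin l → Fin n → ZMod 2 => ∀ i ∉ S, Z i = X i),
      fT d C γ Z * sg (∑ i ∈ S, ∑ j, Ξ i j * Z i j) =
      ∑ W : S → Fin n → ZMod 2,
        fT d D₀ (fun c => γ ((finrank (ZMod 2) D₀ - finrank (ZMod 2) C) + c)) W *
          sg (∑ i : S, ∑ j, Ξ i j * W i j) := by
    symm
    refine Finset.sum_bij' (fun W _ => comb W) (fun Z _ => fun i => Z i) ?_ ?_ ?_ ?_ ?_
    · intro W _
      rw [Finset.mem_filter]
      exact ⟨Finset.mem_univ _, fun i hi => hcombN W i hi⟩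
    · intro Z _; exact Finset.mem_univ _
    · intro W _
      funext i
      exact hcombS W i
    · intro Z hZ
      have hZ' := (Finset.mem_filter.1 hZ).2
      funext i
      by_cases hi : i ∈ S
      · exact hcombS (fun i : S => Z i) ⟨i, hi⟩
      · exact (hcombN (fun i : S => Z i) i hi).trans (hZ' i hi).symm
    · intro W _
      congr 1
      · symm
        apply fT_shift d C D₀ γ _ _ le_sup_left
        rw [hD₀, sup_assoc, ← Submodule.span_union]
        congr 2
        ext x
        rw [Set.mem_union, Set.mem_range, Set.mem_range, Set.mem_range]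
        constructor
        · rintro ⟨i, rfl⟩
          by_cases hi : i ∈ S
          · right; exact ⟨⟨i, hi⟩, (hcombS W ⟨i, hi⟩).symm⟩
          · left; exact ⟨⟨i, hi⟩, (hcombN W i hi).symm⟩
        · rintro (⟨i, rfl⟩ | ⟨i, rfl⟩)
          · exact ⟨i, hcombN W i i.2⟩
          · exact ⟨i, hcombS W i⟩
      · congr 1
        rw [← Finset.sum_coe_sort S (fun i => ∑ j, Ξ i j * comb W i j)]
        apply Finset.sum_congr rfl
        intro i _
        rw [hcombS]
  rw [hsum]
  have hcs : Fintype.card S ≤ l := by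
    rw [Fintype.card_coe]
    calc S.card ≤ (univ : Finset (Fin l)).card := Finset.card_le_univ S
      _ = l := by simp
  have hcn : Fintype.card {i // i ∉ S} + Fintype.card S = l := by
    rw [Fintype.card_coe, Fintype.card_subtype]
    have h1 := Finset.card_filter_add_card_filter_not (s := (univ : Finset (Fin l))) (fun i => i ∈ S)
    have h2 : univ.filter (fun i => i ∈ S) = S := by ext; simp
    rw [h2, Finset.card_univ, Fintype.card_fin] at h1
    omega
  apply tuple_nonneg d hd N τ hN hτ D₀ _ _ (fun c => hγ _) θ hθ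
  · intro r c hc
    have := hγθ ((finrank (ZMod 2) D₀ - finrank (ZMod 2) C) + r) c hc
    rwa [add_assoc] at this
  · refine le_trans ?_ hsmall
    have : ((2 : ℝ) ^ Fintype.card S) ^ (3 * Fintype.card S + 1) ≤ ((2 : ℝ) ^ l) ^ (3 * l + 1) := by
      rw [← pow_mul, ← pow_mul]
      apply pow_le_pow_right₀ (by norm_num)
      exact Nat.mul_le_mul hcs (by omega)
    gcongr
  · intro D' h1 h2 h3
    apply hR D' (le_sup_left.trans h1) h2
    have h4 := card_sup_span C P
    calc Nat.card D' ≤ Nat.card D₀ * 2 ^ Fintype.card S := h3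
      _ ≤ (Nat.card C * 2 ^ Fintype.card {i // i ∉ S}) * 2 ^ Fintype.card S :=
          Nat.mul_le_mul_right _ h4
      _ = Nat.card C * 2 ^ l := by rw [mul_assoc, ← pow_add, hcn]

/-- The value. -/
lemma value_ge (l d : ℕ) (hd : 1 ≤ d) (N τ : ℝ) (C : Submodule (ZMod 2) (Fin n → ZMod 2))
    (hC : Good (low n d) C) (hR : Reg (low n d) N τ C) (γ : ℕ → ℝ) (hγ : ∀ c, 0 ≤ γ c)
    (hτ : 2 ^ l * τ ≤ 1 / 2) :
    γ l * (2 ^ n) ^ l / 2 ≤ ∑ X : Fin l → Fin n → ZMod 2, fT d C γ X := by
  classical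
  have h0 : (0 : Fin n → ZMod 2) ∈ low n d := by
    rw [mem_low, hammingNorm_zero]; omega
  set G := univ.filter fun X : Fin l → Fin n → ZMod 2 =>
    ∀ a : Fin l → ZMod 2, a ≠ 0 → ∑ i, a i • X i ∉ bd (low n d) C with hG
  have hfG : ∀ X ∈ G, fT d C γ X = γ l := by
    intro X hX
    have hX' := (Finset.mem_filter.1 hX).2
    rw [fT_eq]
    set F := (Pi.basisFun (ZMod 2) (Fin l)).constr (ZMod 2) X with hF
    have hFa : ∀ a : Fin l → ZMod 2, F a = ∑ i, a i • X i := by
      intro a
      rw [hF, Basis.constr_apply_fintype]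
      rfl
    have hcm : C.comap F = ⊥ := by
      rw [eq_bot_iff]
      intro a ha
      rw [Submodule.mem_comap] at ha
      rw [Submodule.mem_bot]
      by_contra ha0
      apply hX' a ha0
      rw [← hFa]
      exact mem_bd_of_mem _ h0 _ _ ha
    have hgd : Good (low n d) (C ⊔ LinearMap.range F) := by
      rw [good_iff _ h0 C hC]
      intro a ha
      rw [hFa]
      apply hX'
      rintro rfl
      apply ha
      rw [map_zero]; exact C.zero_mem
    unfold ff
    rw [if_pos hgd]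
    have hrank := rank_formula C F
    rw [hcm, finrank_bot, Module.finrank_fintype_fun_eq_card, Fintype.card_fin] at hrank
    congr 1
    omega
  have hnn : ∀ X : Fin l → Fin n → ZMod 2, 0 ≤ fT d C γ X := by
    intro X
    unfold fT
    split_ifs
    · exact hγ _
    · exact le_rfl
  have hGc : ((2 : ℝ) ^ n) ^ l / 2 ≤ G.card := by
    have hcov : (univ : Finset (Fin l → Fin n → ZMod 2)) ⊆ G ∪
        ((univ.filter fun a : Fin l → ZMod 2 => a ≠ 0).biUnion fun a =>
          univ.filter fun X : Fin l → Fin n → ZMod 2 => ∑ i, a i • X i ∈ bd (low n d) C) := by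
      intro X _
      rw [Finset.mem_union]
      by_cases h1 : ∀ a : Fin l → ZMod 2, a ≠ 0 → ∑ i, a i • X i ∉ bd (low n d) C
      · left; exact Finset.mem_filter.2 ⟨Finset.mem_univ _, h1⟩
      · right
        push Not at h1
        obtain ⟨a, h2, h3⟩ := h1
        rw [Finset.mem_biUnion]
        exact ⟨a, Finset.mem_filter.2 ⟨Finset.mem_univ _, h2⟩,
          Finset.mem_filter.2 ⟨Finset.mem_univ _, h3⟩⟩
    have hcard := (Finset.card_le_card hcov).trans (Finset.card_union_le _ _)
    rw [Finset.card_univ, Fintype.card_fun, card_V, Fintype.card_fin] at hcard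
    have c1 := Finset.card_biUnion_le (s := univ.filter fun a : Fin l → ZMod 2 => a ≠ 0)
      (t := fun a => univ.filter fun X : Fin l → Fin n → ZMod 2 => ∑ i, a i • X i ∈ bd (low n d) C)
    have h2 : (∑ a ∈ univ.filter fun a : Fin l → ZMod 2 => a ≠ 0,
        ((univ.filter fun X : Fin l → Fin n → ZMod 2 =>
          ∑ i, a i • X i ∈ bd (low n d) C).card : ℝ)) ≤ 2 ^ l * (τ * (2 ^ n) ^ l) := by
      calc _ ≤ ∑ a ∈ univ.filter fun a : Fin l → ZMod 2 => a ≠ 0, τ * ((2 : ℝ) ^ n) ^ l := by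
            apply Finset.sum_le_sum
            intro a ha
            have h3 := count_comb a (Finset.mem_filter.1 ha).2 (bd (low n d) C)
            have h4 : ((univ.filter fun X : Fin l → Fin n → ZMod 2 =>
              ∑ i, a i • X i ∈ bd (low n d) C).card : ℝ) * 2 ^ n =
              ((bd (low n d) C).card : ℝ) * (2 ^ n) ^ l := by exact_mod_cast h3
            have h5 : ((bd (low n d) C).card : ℝ) ≤ τ * 2 ^ n := by
              have := hR.2.2
              rw [card_V] at this
              push_cast at this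
              exact hR.1.trans this
            have h6 : ((univ.filter fun X : Fin l → Fin n → ZMod 2 =>
              ∑ i, a i • X i ∈ bd (low n d) C).card : ℝ) * 2 ^ n ≤ (τ * (2 ^ n) ^ l) * 2 ^ n := by
              rw [h4]
              have := mul_le_mul_of_nonneg_right h5 (by positivity : (0 : ℝ) ≤ (2 ^ n) ^ l)
              linarith
            exact le_of_mul_le_mul_right h6 (by positivity)
        _ = ((univ.filter fun a : Fin l → ZMod 2 => a ≠ 0).card : ℝ) * (τ * ((2 : ℝ) ^ n) ^ l) := by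
            rw [Finset.sum_const, nsmul_eq_mul]
        _ ≤ _ := by
            have hτ0 : 0 ≤ τ := by
              have h7 := hR.1.trans hR.2.2
              rw [card_V] at h7
              push_cast at h7
              by_contra hneg
              push Not at hneg
              have h8 : (0 : ℝ) < 2 ^ n := by positivity
              have h9 : (0 : ℝ) ≤ ((bd (low n d) C).card : ℝ) := Nat.cast_nonneg _
              nlinarith
            apply mul_le_mul_of_nonneg_right _ (by positivity)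
            have : (univ.filter fun a : Fin l → ZMod 2 => a ≠ 0).card ≤ 2 ^ l := by
              calc _ ≤ (univ : Finset (Fin l → ZMod 2)).card := Finset.card_filter_le _ _
                _ = 2 ^ l := by rw [Finset.card_univ, card_V]
            exact_mod_cast this
    have h3 : ((2 : ℝ) ^ n) ^ l ≤ G.card + (∑ a ∈ univ.filter fun a : Fin l → ZMod 2 => a ≠ 0,
        ((univ.filter fun X : Fin l → Fin n → ZMod 2 =>
          ∑ i, a i • X i ∈ bd (low n d) C).card : ℝ)) := by
      exact_mod_cast hcard.trans (Nat.add_le_add_left c1 _)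
    have h4 : 2 ^ l * (τ * ((2 : ℝ) ^ n) ^ l) ≤ (1 / 2) * (2 ^ n) ^ l := by
      rw [← mul_assoc]
      exact mul_le_mul_of_nonneg_right hτ (by positivity)
    linarith
  calc γ l * (2 ^ n) ^ l / 2 = γ l * (((2 : ℝ) ^ n) ^ l / 2) := by ring
    _ ≤ γ l * G.card := mul_le_mul_of_nonneg_left hGc (hγ l)
    _ = ∑ X ∈ G, fT d C γ X := by
        rw [Finset.sum_congr rfl hfG, Finset.sum_const, nsmul_eq_mul, mul_comm]
    _ ≤ _ := Finset.sum_le_sum_of_subset_of_nonneg (Finset.subset_univ _) (fun X _ _ => hnn X)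

end Eleven

end Pool.Agent.Y646.Lh
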