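import Mathlib

/-!
# The choice of the parameters
-/

namespace Pool.Agent.Y646.Lh

open Real

lemma pw (x : ℝ) (hx : 0 < x) (n : ℕ) : x ^ n = (2 : ℝ) ^ ((n : ℝ) * logb 2 x) := by
  rw [mul_comm, Real.rpow_mul (by norm_num), Real.rpow_logb (by norm_num) (by norm_num) hx,
    Real.rpow_natCast]

lemma slack (ε K : ℝ) (hε : 0 < ε) (hK : 0 ≤ K) : ∃ n₀ : ℕ, ∀ n : ℕ, n₀ ≤ n →
    K + K * √n + logb 2 n ≤ ε * n := by
  refine ⟨⌈((2 * K + 3) / ε) ^ 2⌉₊ + 1, fun n hn => ?_⟩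
  have hn1 : 1 ≤ n := by omega
  have hn1' : (1 : ℝ) ≤ n := by exact_mod_cast hn1
  have hs1 : 1 ≤ √(n : ℝ) := Real.one_le_sqrt.2 hn1'
  have h1 : ((2 * K + 3) / ε) ^ 2 ≤ n := by
    calc _ ≤ (⌈((2 * K + 3) / ε) ^ 2⌉₊ : ℝ) := Nat.le_ceil _
      _ ≤ n := by exact_mod_cast (by omega)
  have h2 : (2 * K + 3) / ε ≤ √n := by
    apply Real.le_sqrt_of_sq_le h1
  rw [div_le_iff₀ hε] at h2
  have hlog : logb 2 n ≤ 3 * √n := by
    rw [Real.logb, div_le_iff₀ (Real.log_pos (by norm_num))]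
    have h3 : Real.log n = 2 * Real.log (√n) := by
      rw [Real.log_sqrt (by positivity)]; ring
    have h4 := Real.log_le_sub_one_of_pos (show 0 < √(n : ℝ) by positivity)
    have h5 : 0.6931471803 < Real.log 2 := Real.log_two_gt_d9
    rw [h3]
    nlinarith
  have hsq : √(n : ℝ) * √n = n := Real.mul_self_sqrt (by positivity)
  have h6 : (2 * K + 3) * √n ≤ ε * n := by
    calc (2 * K + 3) * √n ≤ (√n * ε) * √n := mul_le_mul_of_nonneg_right h2 (by positivity)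
      _ = ε * (√n * √n) := by ring
      _ = ε * n := by rw [hsq]
  nlinarith

lemma logb_neg_of (x : ℝ) (h0 : 0 < x) (h1 : x < 1) : logb 2 x < 0 :=
  Real.logb_neg (by norm_num) h0 h1

/-- The binary entropy is less than one. -/
lemma ent_lt (δ : ℝ) (h0 : 0 < δ) (h1 : δ < 1 / 2) :
    -δ * logb 2 δ - (1 - δ) * logb 2 (1 - δ) < 1 := by
  have h2 := Real.binEntropy_lt_log_two.2 (show δ ≠ 2⁻¹ by intro h; rw [h] at h1; norm_num at h1)
  have hl : 0 < Real.log 2 := Real.log_pos (by norm_num)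
  have e : -δ * logb 2 δ - (1 - δ) * logb 2 (1 - δ) = Real.binEntropy δ / Real.log 2 := by
    unfold Real.binEntropy Real.logb
    rw [Real.log_inv, Real.log_inv]
    ring
  rw [e, div_lt_one hl]
  exact h2

/-- The final form of the parameters. -/
lemma num_fin (n d l k m : ℕ) (hn0 : (0 : ℝ) < n) (z y a g H Zc Y ρ κ c : ℝ)
    (hz0 : 0 < z) (hz1 : z ≤ 1) (hy0 : 0 < y) (hy1 : y ≤ 1)
    (ha : a = (1 + z ^ 2) / (1 + z) ^ 2) (hg : g = 2 * √z / (1 + z)) (ha0 : 0 < a) (hg0 : 0 < g)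
    (hly : logb 2 (1 + y) = ρ / 4) (hY : Y = - logb 2 y) (hZc : Zc = - logb 2 z)
    (hdn : (d : ℝ) ≤ n)
    (x1 : (k : ℝ) + (H * n + Zc) - n ≤ -2)
    (x2 : 1 + ((n : ℝ) * (ρ / 4) + m * Y) - k ≤ -2)
    (x3 : logb 2 n + (m : ℝ) * logb 2 a ≤ -(κ * n) - 1)
    (x4 : ((k + l : ℕ) : ℝ) + d * logb 2 g ≤ -(κ * n) - 1)
    (x5 : ((k + l : ℕ) : ℝ) + (H * n + Zc) ≤ -(κ * n) + n)
    (x6 : 3 + (l : ℝ) * (3 * l + 1) + -(κ * n) + 2 * c * n ≤ 0)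
    (x7 : (l : ℝ) + -(κ * n) ≤ -1)
    (x8 : 2 * c * n ≤ (n : ℝ) * logb 2 (1 + z) + d * Zc)
    (x9 : (n : ℝ) * logb 2 (1 + z) + d * Zc ≤ H * n + Zc)
    (x10 : ((1 - H) * l + c) * n ≤ 2 * c * n + -(H * n + Zc) * l + n * l - 1)
    (hcn : 0 ≤ 2 * c * n) :
    ∃ (z y θ τ : ℝ) (k m : ℕ), 0 < z ∧ z ≤ 1 ∧ 0 < y ∧ y ≤ 1 ∧
        2 ^ k * ((1 + z) ^ n / z ^ d) / 2 ^ n + 2 * ((1 + y) ^ n / y ^ m) / 2 ^ k < 1 ∧
        (d : ℝ) * ((1 + z ^ 2) / (1 + z) ^ 2) ^ m +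
          2 ^ (k + l) * (2 * √z / (1 + z)) ^ d ≤ τ ∧
        2 ^ (k + l) * ((1 + z) ^ n / z ^ d) ≤ τ * 2 ^ n ∧
        6 * ((2 : ℝ) ^ l) ^ (3 * l + 1) * τ * θ ≤ 1 ∧ 2 ^ l * τ ≤ 1 / 2 ∧ 0 ≤ τ ∧
        1 ≤ θ ∧ θ ≤ (1 + z) ^ n / z ^ d ∧
        (2 : ℝ) ^ (((1 - H) * l + c) * n) ≤
          θ * (((1 + z) ^ n / z ^ d)⁻¹) ^ l * (2 ^ n) ^ l / 2 := by
  have h2p : (0 : ℝ) < 2 := by norm_num
  have h21 : (1 : ℝ) ≤ 2 := by norm_num
  have e2 : ∀ j : ℕ, (2 : ℝ) ^ j = (2 : ℝ) ^ (j : ℝ) := fun j => (Real.rpow_natCast 2 j).symm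
  have eN : (1 + z) ^ n / z ^ d = (2 : ℝ) ^ ((n : ℝ) * logb 2 (1 + z) + d * Zc) := by
    rw [pw (1 + z) (by positivity) n, pw z hz0 d, ← Real.rpow_sub h2p]
    congr 1
    rw [hZc]; ring
  have hNle : (1 + z) ^ n / z ^ d ≤ (2 : ℝ) ^ (H * n + Zc) := by
    rw [eN]; exact Real.rpow_le_rpow_of_exponent_le h21 x9
  have hNpos : 0 < (1 + z) ^ n / z ^ d := by positivity
  have eY : (1 + y) ^ n / y ^ m = (2 : ℝ) ^ ((n : ℝ) * (ρ / 4) + m * Y) := by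
    rw [pw (1 + y) (by positivity) n, pw y hy0 m, ← Real.rpow_sub h2p, hly]
    congr 1
    rw [hY]; ring
  have t14 : (2 : ℝ) ^ (-2 : ℝ) = 1 / 4 := by
    rw [show (-2 : ℝ) = ((-2 : ℤ) : ℝ) by norm_num, Real.rpow_intCast]; norm_num
  have t12 : (2 : ℝ) ^ (-(κ * n) - 1) = (2 : ℝ) ^ (-(κ * n)) / 2 := by
    rw [Real.rpow_sub h2p, Real.rpow_one]
  refine ⟨z, y, (2 : ℝ) ^ (2 * c * n), (2 : ℝ) ^ (-(κ * n)), k, m, hz0, hz1, hy0, hy1,
    ?_, ?_, ?_, ?_, ?_, ?_, ?_, ?_, ?_⟩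
  · have t1 : 2 ^ k * ((1 + z) ^ n / z ^ d) / 2 ^ n ≤ (2 : ℝ) ^ (-2 : ℝ) := by
      calc 2 ^ k * ((1 + z) ^ n / z ^ d) / 2 ^ n ≤ 2 ^ k * (2 : ℝ) ^ (H * n + Zc) / 2 ^ n := by
            gcongr
        _ = (2 : ℝ) ^ ((k : ℝ) + (H * n + Zc) - n) := by
            rw [e2 k, e2 n, ← Real.rpow_add h2p, ← Real.rpow_sub h2p]
        _ ≤ (2 : ℝ) ^ (-2 : ℝ) := Real.rpow_le_rpow_of_exponent_le h21 x1
    have t2 : 2 * ((1 + y) ^ n / y ^ m) / 2 ^ k ≤ (2 : ℝ) ^ (-2 : ℝ) := by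
      calc 2 * ((1 + y) ^ n / y ^ m) / 2 ^ k =
          (2 : ℝ) ^ (1 : ℝ) * (2 : ℝ) ^ ((n : ℝ) * (ρ / 4) + m * Y) / (2 : ℝ) ^ (k : ℝ) := by
            rw [eY, Real.rpow_one, Real.rpow_natCast]
        _ = (2 : ℝ) ^ (1 + ((n : ℝ) * (ρ / 4) + m * Y) - k) := by
            rw [← Real.rpow_add h2p, ← Real.rpow_sub h2p]
        _ ≤ (2 : ℝ) ^ (-2 : ℝ) := Real.rpow_le_rpow_of_exponent_le h21 x2
    rw [t14] at t1 t2
    linarith
  · rw [← ha, ← hg]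
    have t1 : (d : ℝ) * a ^ m ≤ (2 : ℝ) ^ (-(κ * n) - 1) := by
      calc (d : ℝ) * a ^ m ≤ n * a ^ m := by gcongr
        _ = (2 : ℝ) ^ (logb 2 n + m * logb 2 a) := by
            rw [Real.rpow_add h2p, Real.rpow_logb h2p (by norm_num) hn0, ← pw a ha0]
        _ ≤ _ := Real.rpow_le_rpow_of_exponent_le h21 x3
    have t2 : 2 ^ (k + l) * g ^ d ≤ (2 : ℝ) ^ (-(κ * n) - 1) := by
      calc 2 ^ (k + l) * g ^ d = (2 : ℝ) ^ (((k + l : ℕ) : ℝ) + d * logb 2 g) := by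
            rw [Real.rpow_add h2p, ← e2, ← pw g hg0]
        _ ≤ _ := Real.rpow_le_rpow_of_exponent_le h21 x4
    rw [t12] at t1 t2
    linarith
  · calc 2 ^ (k + l) * ((1 + z) ^ n / z ^ d) ≤ 2 ^ (k + l) * (2 : ℝ) ^ (H * n + Zc) := by gcongr
      _ = (2 : ℝ) ^ (((k + l : ℕ) : ℝ) + (H * n + Zc)) := by rw [e2, ← Real.rpow_add h2p]
      _ ≤ (2 : ℝ) ^ (-(κ * n) + n) := Real.rpow_le_rpow_of_exponent_le h21 x5
      _ = _ := by rw [Real.rpow_add h2p, ← e2]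
  · have e3 : ((2 : ℝ) ^ l) ^ (3 * l + 1) = (2 : ℝ) ^ ((l : ℝ) * (3 * l + 1)) := by
      rw [← pow_mul, ← Real.rpow_natCast]; congr 1; push_cast; ring
    calc 6 * ((2 : ℝ) ^ l) ^ (3 * l + 1) * 2 ^ (-(κ * n)) * 2 ^ (2 * c * n)
        ≤ (2 : ℝ) ^ (3 : ℝ) * (2 : ℝ) ^ ((l : ℝ) * (3 * l + 1)) * 2 ^ (-(κ * n)) *
          2 ^ (2 * c * n) := by
          rw [e3]
          have : (6 : ℝ) ≤ (2 : ℝ) ^ (3 : ℝ) := by
            rw [show (3 : ℝ) = ((3 : ℕ) : ℝ) by norm_num, Real.rpow_natCast]; norm_num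
          gcongr
      _ = (2 : ℝ) ^ (3 + (l : ℝ) * (3 * l + 1) + -(κ * n) + 2 * c * n) := by
          rw [Real.rpow_add h2p, Real.rpow_add h2p, Real.rpow_add h2p]
      _ ≤ (2 : ℝ) ^ (0 : ℝ) := Real.rpow_le_rpow_of_exponent_le h21 x6
      _ = 1 := Real.rpow_zero _
  · calc 2 ^ l * (2 : ℝ) ^ (-(κ * n)) = (2 : ℝ) ^ ((l : ℝ) + -(κ * n)) := by
          rw [e2, Real.rpow_add h2p]
      _ ≤ (2 : ℝ) ^ (-1 : ℝ) := Real.rpow_le_rpow_of_exponent_le h21 x7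
      _ = 1 / 2 := by rw [Real.rpow_neg_one]; norm_num
  · positivity
  · exact Real.one_le_rpow h21 hcn
  · rw [eN]
    exact Real.rpow_le_rpow_of_exponent_le h21 x8
  · have e3 : (2 : ℝ) ^ (2 * c * n) * (((1 + z) ^ n / z ^ d)⁻¹) ^ l * (2 ^ n) ^ l / 2 ≥
        (2 : ℝ) ^ (2 * c * n) * ((2 : ℝ) ^ (-(H * n + Zc))) ^ l * (2 ^ n) ^ l / 2 := by
      have : (2 : ℝ) ^ (-(H * n + Zc)) ≤ ((1 + z) ^ n / z ^ d)⁻¹ := by
        rw [Real.rpow_neg h2p.le]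
        exact inv_anti₀ hNpos hNle
      gcongr
    refine le_trans ?_ e3
    have e4 : (2 : ℝ) ^ (2 * c * n) * ((2 : ℝ) ^ (-(H * n + Zc))) ^ l * (2 ^ n) ^ l / 2 =
        (2 : ℝ) ^ (2 * c * n + -(H * n + Zc) * l + n * l - 1) := by
      have q1 : ((2 : ℝ) ^ (-(H * n + Zc))) ^ l = (2 : ℝ) ^ (-(H * n + Zc) * l) :=
        (Real.rpow_mul_natCast h2p.le _ _).symm
      have q2 : (((2 : ℝ) ^ n) ^ l) = (2 : ℝ) ^ ((n : ℝ) * l) := by
        rw [← pow_mul, ← Real.rpow_natCast]; congr 1; push_cast; ring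
      rw [q1, q2, ← Real.rpow_add h2p, ← Real.rpow_add h2p, Real.rpow_sub h2p, Real.rpow_one]
    rw [e4]
    exact Real.rpow_le_rpow_of_exponent_le h21 x10

/-- **The choice of the parameters.** -/
theorem num (δ : ℝ) (h0 : 0 < δ) (h1 : δ < 1 / 2) :
    ∃ c : ℝ, 0 < c ∧ ∃ n₀ : ℕ, ∀ n : ℕ, n₀ ≤ n → 1 ≤ ⌈δ * n⌉₊ ∧ ∀ l : ℕ, 1 ≤ l → (l : ℝ) ≤ c * √n →
      ∃ (z y θ τ : ℝ) (k m : ℕ), 0 < z ∧ z ≤ 1 ∧ 0 < y ∧ y ≤ 1 ∧
        2 ^ k * ((1 + z) ^ n / z ^ ⌈δ * n⌉₊) / 2 ^ n + 2 * ((1 + y) ^ n / y ^ m) / 2 ^ k < 1 ∧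
        (⌈δ * n⌉₊ : ℝ) * ((1 + z ^ 2) / (1 + z) ^ 2) ^ m +
          2 ^ (k + l) * (2 * √z / (1 + z)) ^ ⌈δ * n⌉₊ ≤ τ ∧
        2 ^ (k + l) * ((1 + z) ^ n / z ^ ⌈δ * n⌉₊) ≤ τ * 2 ^ n ∧
        6 * ((2 : ℝ) ^ l) ^ (3 * l + 1) * τ * θ ≤ 1 ∧ 2 ^ l * τ ≤ 1 / 2 ∧ 0 ≤ τ ∧
        1 ≤ θ ∧ θ ≤ (1 + z) ^ n / z ^ ⌈δ * n⌉₊ ∧
        (2 : ℝ) ^ (((1 - (-δ * logb 2 δ - (1 - δ) * logb 2 (1 - δ))) * l + c) * n) ≤
          θ * (((1 + z) ^ n / z ^ ⌈δ * n⌉₊)⁻¹) ^ l * (2 ^ n) ^ l / 2 := by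
  have h1' : 0 < 1 - δ := by linarith
  set z := δ / (1 - δ) with hz
  have hz0 : 0 < z := by positivity
  have hz1 : z < 1 := by rw [hz, div_lt_one h1']; linarith
  have hz1z : 1 + z = 1 / (1 - δ) := by rw [hz]; field_simp; ring
  set H := -δ * logb 2 δ - (1 - δ) * logb 2 (1 - δ) with hH
  have hHlt : H < 1 := ent_lt δ h0 h1
  set Zc := - logb 2 z with hZc
  have hZc0 : 0 < Zc := by
    have := logb_neg_of z hz0 hz1
    rw [hZc]; linarith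
  set g := 2 * √z / (1 + z) with hg
  have hg0 : 0 < g := by positivity
  have hg1 : g < 1 := by
    rw [hg, div_lt_one (by positivity)]
    have hs : √z < 1 := by
      rw [Real.sqrt_lt' (by norm_num)]; simpa using hz1
    have hs2 := Real.sq_sqrt hz0.le
    nlinarith [sq_nonneg (1 - √z), mul_pos (sub_pos.2 hs) (sub_pos.2 hs)]
  set a := (1 + z ^ 2) / (1 + z) ^ 2 with ha
  have ha0 : 0 < a := by positivity
  have ha1 : a < 1 := by
    rw [ha, div_lt_one (by positivity)]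
    nlinarith
  set G := - δ * logb 2 g with hG
  have hG0 : 0 < G := by
    have := logb_neg_of g hg0 hg1
    rw [hG]; nlinarith
  set A0 := - logb 2 a with hA0
  have hA00 : 0 < A0 := by
    have := logb_neg_of a ha0 ha1
    rw [hA0]; linarith
  set h := 1 - H with hh
  have hh0 : 0 < h := by rw [hh]; linarith
  have hHpos : 0 < H := by
    have a1 := logb_neg_of δ h0 (by linarith)
    have a2 := logb_neg_of (1 - δ) h1' (by linarith)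
    rw [hH]
    nlinarith [mul_pos h0 (neg_pos.2 a1), mul_pos h1' (neg_pos.2 a2)]
  set ρ := min G h / 2 with hρ
  have hρ0 : 0 < ρ := by
    have : 0 < min G h := lt_min hG0 hh0
    rw [hρ]; linarith
  have hρG : ρ ≤ G / 2 := by
    have : min G h ≤ G := min_le_left _ _
    rw [hρ]; linarith
  have hρh : ρ ≤ h / 2 := by
    have : min G h ≤ h := min_le_right _ _
    rw [hρ]; linarith
  have hρ1 : ρ / 4 < 1 := by
    have : h < 1 := by rw [hh]; linarith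
    linarith
  set y := (2 : ℝ) ^ (ρ / 4) - 1 with hy
  have hy0 : 0 < y := by
    have : (1 : ℝ) < 2 ^ (ρ / 4) := Real.one_lt_rpow (by norm_num) (by positivity)
    rw [hy]; linarith
  have hy1 : y < 1 := by
    have : (2 : ℝ) ^ (ρ / 4) < 2 ^ (1 : ℝ) := Real.rpow_lt_rpow_of_exponent_lt (by norm_num) hρ1
    rw [Real.rpow_one] at this
    rw [hy]; linarith
  have hly : logb 2 (1 + y) = ρ / 4 := by
    rw [hy, add_sub_cancel, Real.logb_rpow (by norm_num) (by norm_num)]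
  set Y := - logb 2 y with hY
  have hY0 : 0 < Y := by
    have := logb_neg_of y hy0 hy1
    rw [hY]; linarith
  set ω := ρ / (4 * Y) with hω
  have hω0 : 0 < ω := by positivity
  set κ := min (A0 * ω) (min (G / 2) (h / 2)) / 2 with hκ
  have hmin0 : 0 < min (A0 * ω) (min (G / 2) (h / 2)) :=
    lt_min (by positivity) (lt_min (by positivity) (by positivity))
  have hκ0 : 0 < κ := by rw [hκ]; linarith
  have hκ1 : κ ≤ A0 * ω - κ := by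
    have : min (A0 * ω) (min (G / 2) (h / 2)) ≤ A0 * ω := min_le_left _ _
    rw [hκ]; linarith
  have hκ2 : κ ≤ G / 2 - κ := by
    have : min (A0 * ω) (min (G / 2) (h / 2)) ≤ G / 2 := (min_le_right _ _).trans (min_le_left _ _)
    rw [hκ]; linarith
  have hκ3 : κ ≤ h / 2 - κ := by
    have : min (A0 * ω) (min (G / 2) (h / 2)) ≤ h / 2 := (min_le_right _ _).trans (min_le_right _ _)
    rw [hκ]; linarith
  have hlz : 0 < logb 2 (1 + z) := Real.logb_pos (by norm_num) (by linarith)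
  set c := min (min (κ / 8) 1) (logb 2 (1 + z) / 2) with hc
  have hc0 : 0 < c := lt_min (lt_min (by positivity) one_pos) (by positivity)
  have hcκ : c ≤ κ / 8 := (min_le_left _ _).trans (min_le_left _ _)
  have hc1 : c ≤ 1 := (min_le_left _ _).trans (min_le_right _ _)
  have hcz : 2 * c ≤ logb 2 (1 + z) := by
    have : c ≤ logb 2 (1 + z) / 2 := min_le_right _ _
    linarith
  set ε := min (min (κ / 4) c) (min (ρ / 2) (h / 2)) with hε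
  have hε0 : 0 < ε := lt_min (lt_min (by positivity) hc0) (lt_min (by positivity) (by positivity))
  have hεκ : ε ≤ κ / 4 := (min_le_left _ _).trans (min_le_left _ _)
  have hεc : ε ≤ c := (min_le_left _ _).trans (min_le_right _ _)
  have hερ : ε ≤ ρ / 2 := (min_le_right _ _).trans (min_le_left _ _)
  have hεh : ε ≤ h / 2 := (min_le_right _ _).trans (min_le_right _ _)
  set K := 8 + Zc + A0 with hK
  obtain ⟨n₀, hn₀⟩ := slack ε K hε0 (by positivity)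
  refine ⟨c, hc0, n₀ + 2, fun n hn => ?_⟩
  have hsl := hn₀ n (by omega)
  have hn2 : (2 : ℝ) ≤ n := by exact_mod_cast (by omega : 2 ≤ n)
  have hn0 : (0 : ℝ) < n := by linarith
  set d := ⌈δ * (n : ℝ)⌉₊ with hd
  have hd1 : 1 ≤ d := Nat.one_le_ceil_iff.2 (by positivity)
  refine ⟨hd1, fun l hl hln => ?_⟩
  have hdlo : δ * n ≤ d := Nat.le_ceil _
  have hdhi : (d : ℝ) < δ * n + 1 := Nat.ceil_lt_add_one (by positivity)
  have hdn : (d : ℝ) ≤ n := by nlinarith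
  have hl1 : (1 : ℝ) ≤ l := by exact_mod_cast hl
  have hsn : 0 ≤ √(n : ℝ) := Real.sqrt_nonneg _
  have hls : (l : ℝ) ≤ √n := by
    have := mul_le_mul_of_nonneg_right hc1 hsn
    linarith
  have hln2 : (l : ℝ) ^ 2 ≤ c ^ 2 * n := by
    have : (l : ℝ) ^ 2 ≤ (c * √n) ^ 2 := pow_le_pow_left₀ (by positivity) hln 2
    rwa [mul_pow, Real.sq_sqrt hn0.le] at this
  have hlogn : 0 ≤ logb 2 n := Real.logb_nonneg (by norm_num) (by linarith)
  have hZs : Zc * l ≤ Zc * √n := mul_le_mul_of_nonneg_left hls hZc0.le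
  have hKs : K * √n = 8 * √n + Zc * √n + A0 * √n := by rw [hK]; ring
  have hAs : 0 ≤ A0 * √n := by positivity
  have hb : (l : ℝ) + Zc * l + K + logb 2 n ≤ ε * n := by linarith
  have hZl : 0 ≤ Zc * l := by positivity
  have hεn1 : ε * n ≤ κ / 4 * n := mul_le_mul_of_nonneg_right hεκ hn0.le
  have hεn2 : ε * n ≤ c * n := mul_le_mul_of_nonneg_right hεc hn0.le
  have hεn3 : ε * n ≤ ρ / 2 * n := mul_le_mul_of_nonneg_right hερ hn0.le
  have hεn4 : ε * n ≤ h / 2 * n := mul_le_mul_of_nonneg_right hεh hn0.le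
  have hκn : 0 < κ * n := by positivity
  have hρhn : ρ * n ≤ h / 2 * n := mul_le_mul_of_nonneg_right hρh hn0.le
  have hρGn : ρ * n ≤ G / 2 * n := mul_le_mul_of_nonneg_right hρG hn0.le
  have hκ1n : κ * n ≤ (A0 * ω - κ) * n := mul_le_mul_of_nonneg_right hκ1 hn0.le
  have hκ2n : κ * n ≤ (G / 2 - κ) * n := mul_le_mul_of_nonneg_right hκ2 hn0.le
  have hκ3n : κ * n ≤ (h / 2 - κ) * n := mul_le_mul_of_nonneg_right hκ3 hn0.le
  have hHn : H * n - n = - (h * n) := by rw [hh]; ring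
  obtain ⟨k, hk⟩ : ∃ k : ℕ, k = ⌊ρ * (n : ℝ)⌋₊ := ⟨_, rfl⟩
  obtain ⟨m, hm⟩ : ∃ m : ℕ, m = ⌊ω * (n : ℝ)⌋₊ := ⟨_, rfl⟩
  have hkhi : (k : ℝ) ≤ ρ * n := by rw [hk]; exact Nat.floor_le (by positivity)
  have hklo : ρ * n - 1 < k := by
    have := Nat.lt_floor_add_one (ρ * (n : ℝ)); rw [← hk] at this; linarith
  have hmhi : (m : ℝ) ≤ ω * n := by rw [hm]; exact Nat.floor_le (by positivity)
  have hmlo : ω * n - 1 < m := by
    have := Nat.lt_floor_add_one (ω * (n : ℝ)); rw [← hm] at this; linarith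
  have h2p : (0 : ℝ) < 2 := by norm_num
  have h21 : (1 : ℝ) ≤ 2 := by norm_num
  -- the exponents
  have hlogz : logb 2 (1 + z) = - logb 2 (1 - δ) := by
    rw [hz1z, Real.logb_div (by norm_num) (by positivity), Real.logb_one]; ring
  have hlogzz : Zc = logb 2 (1 - δ) - logb 2 δ := by
    rw [hZc, hz, Real.logb_div (by positivity) (by positivity)]; ring
  have hmle : (ω * n - 1) * A0 ≤ m * A0 := mul_le_mul_of_nonneg_right hmlo.le hA00.le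
  have hmY : (m : ℝ) * Y ≤ ρ / 4 * n := by
    calc (m : ℝ) * Y ≤ (ω * n) * Y := mul_le_mul_of_nonneg_right hmhi hY0.le
      _ = ρ / 4 * n := by rw [hω]; field_simp
  have hdg : (d : ℝ) * logb 2 g ≤ - (G * n) := by
    have hlg : logb 2 g ≤ 0 := (logb_neg_of g hg0 hg1).le
    have : (d : ℝ) * logb 2 g ≤ (δ * n) * logb 2 g := mul_le_mul_of_nonpos_right hdlo hlg
    rw [hG]; linarith
  have hHeq : (n : ℝ) * logb 2 (1 + z) + (δ * n + 1) * Zc = H * n + Zc := by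
    rw [hlogz, hH, hlogzz]; ring
  have hdZ : (d : ℝ) * Zc ≤ (δ * n + 1) * Zc := mul_le_mul_of_nonneg_right hdhi.le hZc0.le
  have hcn : c * n ≤ κ / 8 * n := mul_le_mul_of_nonneg_right hcκ hn0.le
  have hc2n : c ^ 2 * n ≤ κ / 8 * n := by
    apply mul_le_mul_of_nonneg_right _ hn0.le
    have := mul_le_mul_of_nonneg_left hc1 hc0.le
    rw [sq]; linarith
  have hczn : 2 * c * n ≤ logb 2 (1 + z) * n := mul_le_mul_of_nonneg_right hcz hn0.le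
  have hdZ0 : 0 ≤ (d : ℝ) * Zc := by positivity
  have hll : (l : ℝ) * 1 ≤ l * l := mul_le_mul_of_nonneg_left hl1 (by positivity)
  have hA0a : (m : ℝ) * logb 2 a = - (m * A0) := by rw [hA0]; ring
  -- the exponent inequalities
  have x1 : (k : ℝ) + (H * n + Zc) - n ≤ -2 := by rw [hK] at hb; linarith
  have x2 : 1 + ((n : ℝ) * (ρ / 4) + m * Y) - k ≤ -2 := by rw [hK] at hb; linarith
  have x3 : logb 2 n + (m : ℝ) * logb 2 a ≤ -(κ * n) - 1 := by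
    rw [hK] at hb; rw [hA0a]; linarith
  have x4 : ((k + l : ℕ) : ℝ) + d * logb 2 g ≤ -(κ * n) - 1 := by
    rw [hK] at hb; push_cast; linarith
  have x5 : ((k + l : ℕ) : ℝ) + (H * n + Zc) ≤ -(κ * n) + n := by
    rw [hK] at hb; push_cast; linarith
  have x6 : 3 + (l : ℝ) * (3 * l + 1) + -(κ * n) + 2 * c * n ≤ 0 := by
    rw [hK] at hb
    have e1 : (l : ℝ) * (3 * l + 1) = 3 * l ^ 2 + l * 1 := by ring
    have e2 : (l : ℝ) * l = l ^ 2 := by ring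
    rw [e2] at hll
    rw [e1]
    linarith
  have x7 : (l : ℝ) + -(κ * n) ≤ -1 := by rw [hK] at hb; linarith
  have x8 : 2 * c * n ≤ (n : ℝ) * logb 2 (1 + z) + d * Zc := by linarith
  have x9 : (n : ℝ) * logb 2 (1 + z) + d * Zc ≤ H * n + Zc := by linarith
  have x10 : ((1 - H) * l + c) * n ≤ 2 * c * n + -(H * n + Zc) * l + n * l - 1 := by
    rw [hK] at hb
    have e1 : ((1 - H) * l + c) * n = n * l - H * n * l + c * n := by ring
    have e2 : 2 * c * n + -(H * n + Zc) * l + n * l - 1 =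
      n * l - H * n * l + 2 * (c * n) - Zc * l - 1 := by ring
    rw [e1, e2]; linarith
  exact num_fin n d l k m hn0 z y a g H Zc Y ρ κ c hz0 hz1.le hy0 hy1.le rfl rfl ha0 hg0 hly hY hZc hdn
    x1 x2 x3 x4 x5 x6 x7 x8 x9 x10 (by positivity)

end Pool.Agent.Y646.Lh
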