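import Pool.Agent.Y646.Lh11
import Pool.Agent.Y646.Lh12

/-!
# The hierarchy for linear codes
-/

namespace Pool.Agent.Y646.Lh

open Finset Module

/-- Feasible functions of level `l`. -/
structure Feas (l n d : ℕ) (f : (Fin l → Fin n → ZMod 2) → ℝ) : Prop where
  one : f 0 = 1
  nonneg : ∀ X, 0 ≤ f X
  mono : ∀ X Y, Submodule.span (ZMod 2) (Set.range Y) ≤ Submodule.span (ZMod 2) (Set.range X) →
    f X ≤ f Y
  dist : ∀ X (a : Fin l → ZMod 2), 0 < hammingNorm (∑ i, a i • X i) →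
    hammingNorm (∑ i, a i • X i) < d → f X = 0
  fourier : ∀ (S : Finset (Fin l)) (X Ξ : Fin l → Fin n → ZMod 2),
    0 ≤ ∑ Z with (∀ i ∉ S, Z i = X i),
      f Z * (-1 : ℝ) ^ (∑ i ∈ S, ∑ j, (Ξ i j).val * (Z i j).val)

lemma sgn_pow (s t : ZMod 2) : (-1 : ℝ) ^ (s.val * t.val) = sg (s * t) := by
  rcases zmod2_cases s with rfl | rfl <;> rcases zmod2_cases t with rfl | rfl <;>
    simp [ZMod.val_one]

lemma char_eq {l n : ℕ} (S : Finset (Fin l)) (Ξ Z : Fin l → Fin n → ZMod 2) :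
    (-1 : ℝ) ^ (∑ i ∈ S, ∑ j, (Ξ i j).val * (Z i j).val) = sg (∑ i ∈ S, ∑ j, Ξ i j * Z i j) := by
  rw [← Finset.prod_pow_eq_pow_sum, sg_sum]
  apply Finset.prod_congr rfl
  intro i _
  rw [← Finset.prod_pow_eq_pow_sum, sg_sum]
  apply Finset.prod_congr rfl
  intro j _
  exact sgn_pow _ _

/-- The pseudo-distribution is feasible. -/
lemma feas_fT (l n d : ℕ) (hd : 1 ≤ d) (N τ : ℝ) (hN : 0 < N) (hτ : 0 ≤ τ)
    (C : Submodule (ZMod 2) (Fin n → ZMod 2)) (hC : Good (low n d) C)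
    (hR : ∀ D' : Submodule (ZMod 2) (Fin n → ZMod 2), C ≤ D' → Good (low n d) D' →
      Nat.card D' ≤ Nat.card C * 2 ^ l → Reg (low n d) N τ D')
    (γ : ℕ → ℝ) (hγ : ∀ c, 0 ≤ γ c) (hγ0 : γ 0 = 1) (hanti : Antitone γ) (θ : ℝ) (hθ : 0 ≤ θ)
    (hγθ : ∀ r c, 1 ≤ c → γ (r + c) * N ^ c ≤ θ * γ r)
    (hsmall : 6 * ((2 : ℝ) ^ l) ^ (3 * l + 1) * τ * θ ≤ 1) :
    Feas l n d (fun X => fT d C γ X) := by
  classical
  refine ⟨?_, ?_, ?_, ?_, ?_⟩
  · have h1 : C ⊔ Submodule.span (ZMod 2) (Set.range (0 : Fin l → Fin n → ZMod 2)) = C := by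
      rw [sup_eq_left, Submodule.span_le]
      rintro _ ⟨i, rfl⟩
      exact C.zero_mem
    change fT d C γ 0 = 1
    unfold fT
    rw [h1, if_pos hC, Nat.sub_self, hγ0]
  · intro X
    change 0 ≤ fT d C γ X
    unfold fT
    split_ifs
    · exact hγ _
    · exact le_rfl
  · intro X Y h
    change fT d C γ X ≤ fT d C γ Y
    have hle : C ⊔ Submodule.span (ZMod 2) (Set.range Y) ≤ C ⊔ Submodule.span (ZMod 2) (Set.range X) :=
      sup_le_sup_left h _
    unfold fT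
    by_cases hX : Good (low n d) (C ⊔ Submodule.span (ZMod 2) (Set.range X))
    · rw [if_pos hX, if_pos (hX.mono hle)]
      apply hanti
      have := Submodule.finrank_mono hle
      omega
    · rw [if_neg hX]
      split_ifs
      · exact hγ _
      · exact le_rfl
  · intro X a h1 h2
    change fT d C γ X = 0
    unfold fT
    rw [if_neg]
    intro hg
    have hmem : ∑ i, a i • X i ∈ C ⊔ Submodule.span (ZMod 2) (Set.range X) := by
      apply (le_sup_right : Submodule.span (ZMod 2) (Set.range X) ≤ _)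
      exact Submodule.sum_mem _ fun i _ => Submodule.smul_mem _ _ (Submodule.subset_span ⟨i, rfl⟩)
    have := hg _ hmem ((mem_low n d _).2 h2)
    rw [this, hammingNorm_zero] at h1
    exact lt_irrefl _ h1
  · intro S X Ξ
    have := partial_nonneg l d hd N τ hN hτ C hR γ hγ θ hθ hγθ hsmall S X Ξ
    simp_rw [char_eq]
    convert this using 2

/-- **The hierarchy stays above the bound of Gilbert and Varshamov.** -/
theorem above (δ : ℝ) (h0 : 0 < δ) (h1 : δ < 1 / 2) :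
    ∃ c : ℝ, 0 < c ∧ ∃ n₀ : ℕ, ∀ n : ℕ, n₀ ≤ n → ∀ l : ℕ, 1 ≤ l → (l : ℝ) ≤ c * √n →
      ∃ f, Feas l n ⌈δ * n⌉₊ f ∧
        (2 : ℝ) ^ (((1 - (-δ * Real.logb 2 δ - (1 - δ) * Real.logb 2 (1 - δ))) * l + c) * n) ≤
          ∑ X, f X := by
  classical
  obtain ⟨c, hc, n₀, hn₀⟩ := num δ h0 h1
  refine ⟨c, hc, n₀, fun n hn l hl hln => ?_⟩
  obtain ⟨hd, hall⟩ := hn₀ n hn
  set d := ⌈δ * (n : ℝ)⌉₊ with hdd
  obtain ⟨z, y, θ, τ, k, m, hz0, hz1, hy0, hy1, c1, c2, c3, c4, c5, c6, c7, c8, c9⟩ := hall l hl hln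
  have hzd : 0 < z ^ d := by positivity
  have hym : 0 < y ^ m := by positivity
  set N := (1 + z) ^ n / z ^ d with hN
  have hN0 : 0 < N := by positivity
  have hlow : ((univ.filter fun x : Fin n → ZMod 2 => hammingNorm x < d).card : ℝ) ≤ N := by
    rw [hN, le_div_iff₀ hzd]
    exact ball_le n d z hz0 hz1
  have hlowm : ((univ.filter fun x : Fin n → ZMod 2 => hammingNorm x < m).card : ℝ) ≤
      (1 + y) ^ n / y ^ m := by
    rw [le_div_iff₀ hym]
    exact ball_le n m y hy0 hy1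
  obtain ⟨C, hC1, hC2, hC3⟩ := exists_code n k d m (by
    refine lt_of_le_of_lt ?_ c1
    gcongr)
  have hgood : Good (low n d) C := by
    intro x hx hl
    by_contra hx0
    have := hC2 x hx hx0
    rw [mem_low] at hl
    omega
  have hReg : ∀ D' : Submodule (ZMod 2) (Fin n → ZMod 2), C ≤ D' → Good (low n d) D' →
      Nat.card D' ≤ Nat.card C * 2 ^ l → Reg (low n d) N τ D' := by
    intro D' h2 h3 h4
    apply reg_of n d m z hz0 hz1 (2 ^ (k + l)) τ D' h3
    · intro ξ hξ hξD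
      exact hC3 ξ hξ (fun x hx => hξD x (h2 hx))
    · have h5 : Nat.card D' ≤ 2 ^ (k + l) := by
        rw [pow_add]
        exact h4.trans (Nat.mul_le_mul_right _ hC1)
      exact_mod_cast h5
    · exact c2
    · exact c3
  have hNθ : 1 ≤ N := c7.trans c8
  set γ : ℕ → ℝ := fun r => if r = 0 then 1 else θ * N⁻¹ ^ r with hγd
  have hγ : ∀ r, 0 ≤ γ r := by
    intro r
    rw [hγd]
    dsimp only
    split_ifs <;> positivity
  have hγ0 : γ 0 = 1 := by rw [hγd]; simp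
  have hγs : ∀ r, 1 ≤ r → γ r = θ * N⁻¹ ^ r := by
    intro r hr
    rw [hγd]
    dsimp only
    rw [if_neg (by omega)]
  have hNinv : N⁻¹ ≤ 1 := inv_le_one_of_one_le₀ hNθ
  have hanti : Antitone γ := by
    apply antitone_nat_of_succ_le
    intro r
    rw [hγs (r + 1) (by omega)]
    by_cases hr : r = 0
    · subst hr
      rw [hγ0, zero_add, pow_one]
      rw [← div_eq_mul_inv, div_le_one hN0]
      exact c8
    · rw [hγs r (by omega), pow_succ]
      have : 0 ≤ θ * N⁻¹ ^ r := by positivity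
      nlinarith
  have hγθ : ∀ r c, 1 ≤ c → γ (r + c) * N ^ c ≤ θ * γ r := by
    intro r c hc
    rw [hγs (r + c) (by omega), pow_add]
    have h5 : θ * (N⁻¹ ^ r * N⁻¹ ^ c) * N ^ c = θ * N⁻¹ ^ r := by
      rw [inv_pow, inv_pow]
      field_simp
    rw [h5]
    by_cases hr : r = 0
    · subst hr
      rw [hγ0, pow_zero]
    · rw [hγs r (by omega)]
      have : 0 ≤ θ * N⁻¹ ^ r := by positivity
      nlinarith
  have hθ0 : 0 ≤ θ := by linarith
  refine ⟨fun X => fT d C γ X, feas_fT l n d hd N τ hN0 c6 C hgood hReg γ hγ hγ0 hanti θ hθ0 hγθ c4, ?_⟩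
  have hRC : Reg (low n d) N τ C := by
    apply hReg C le_rfl hgood
    exact Nat.le_mul_of_pos_right _ (by positivity)
  have := value_ge l d hd N τ C hgood hRC γ hγ c5
  rw [hγs l hl] at this
  exact c9.trans this

end Pool.Agent.Y646.Lh
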