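import Pool.Agent.Y646.Lh13

/-!
# Exactness from level `n` on
-/

namespace Pool.Agent.Y646.Lh

open Finset Module

section Fourteen

open Classical in
/-- Moebius inversion from above. -/
lemma exists_inv {α : Type*} [Fintype α] [PartialOrder α] (F : α → ℝ) :
    ∃ P : α → ℝ, ∀ x, ∑ y ∈ univ.filter (fun y => x ≤ y), P y = F x := by
  have wf : WellFounded (fun x y : α => y < x) := wellFounded_gt
  set P : α → ℝ := wf.fix (fun x ih => F x - ∑ y : {y // x < y}, ih y.1 y.2) with hP
  have hPx : ∀ x, P x = F x - ∑ y : {y // x < y}, P y.1 := by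
    intro x
    rw [hP, wf.fix_eq]
  refine ⟨P, fun x => ?_⟩
  have h1 : univ.filter (fun y => x ≤ y) = insert x (univ.filter (fun y => x < y)) := by
    ext y
    simp only [Finset.mem_filter, Finset.mem_univ, true_and, Finset.mem_insert]
    constructor
    · intro h
      rcases h.eq_or_lt with h | h
      · exact Or.inl h.symm
      · exact Or.inr h
    · rintro (rfl | h)
      · exact le_rfl
      · exact h.le
  have h2 : ∑ y ∈ univ.filter (fun y => x < y), P y = ∑ y : {y // x < y}, P y.1 := by
    rw [← Finset.sum_subtype_eq_sum_filter]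
    simp
  rw [h1, Finset.sum_insert (by simp), hPx x, h2]
  ring

variable {n : ℕ}

/-- A tuple spanning a given subspace, supported on `T`. -/
lemma exists_tuple {l : ℕ} (W : Submodule (ZMod 2) (Fin n → ZMod 2)) (T : Finset (Fin l))
    (h : finrank (ZMod 2) W ≤ T.card) :
    ∃ X : Fin l → Fin n → ZMod 2, (∀ i, X i ∈ W) ∧
      W ≤ Submodule.span (ZMod 2) (X '' (T : Set (Fin l))) := by
  classical
  set b := Module.finBasis (ZMod 2) W with hb
  obtain ⟨e⟩ : Nonempty (Fin (finrank (ZMod 2) W) ↪ T) := by
    apply Function.Embedding.nonempty_of_card_le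
    rw [Fintype.card_fin, Fintype.card_coe]
    exact h
  refine ⟨fun i => if h : ∃ j, (e j : Fin l) = i then (b h.choose : Fin n → ZMod 2) else 0, ?_, ?_⟩
  · intro i
    change (if h : ∃ j, (e j : Fin l) = i then (b h.choose : Fin n → ZMod 2) else 0) ∈ W
    split_ifs
    · exact (b _).2
    · exact W.zero_mem
  · intro w hw
    have h1 : (⟨w, hw⟩ : W) ∈ Submodule.span (ZMod 2) (Set.range b) := by
      rw [b.span_eq]; trivial
    have h2 : w ∈ Submodule.map W.subtype (Submodule.span (ZMod 2) (Set.range b)) := ⟨⟨w, hw⟩, h1, rfl⟩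
    rw [Submodule.map_span] at h2
    refine Submodule.span_mono ?_ h2
    rintro _ ⟨_, ⟨j, rfl⟩, rfl⟩
    refine ⟨e j, (e j).2, ?_⟩
    have hex : ∃ j', (e j' : Fin l) = e j := ⟨j, rfl⟩
    change (if h : ∃ j', (e j' : Fin l) = e j then (b h.choose : Fin n → ZMod 2) else 0) = b j
    rw [dif_pos hex]
    have : hex.choose = j := e.injective (Subtype.ext hex.choose_spec)
    rw [this]

/-- Vectors whose common orthogonal space is `W`. -/
lemma exists_checks {l : ℕ} (W : Submodule (ZMod 2) (Fin n → ZMod 2)) (S : Finset (Fin l))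
    (h : finrank (ZMod 2) W + S.card = n) :
    ∃ Ξ : Fin l → Fin n → ZMod 2, (∀ w ∈ W, ∀ i ∈ S, ∑ j, Ξ i j * w j = 0) ∧
      ∀ w, w ∉ W → ∃ i ∈ S, ∑ j, Ξ i j * w j ≠ 0 := by
  classical
  set A := W.dualAnnihilator with hA
  have hfd : Module.Finite (ZMod 2) (Module.Dual (ZMod 2) (Fin n → ZMod 2)) := inferInstance
  have hAfr : finrank (ZMod 2) A = S.card := by
    have := Subspace.finrank_add_finrank_dualAnnihilator_eq W
    rw [Module.finrank_fintype_fun_eq_card, Fintype.card_fin] at this
    rw [hA]
    omega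
  set b := Module.finBasisOfFinrankEq (ZMod 2) A hAfr with hb
  set e := S.equivFin with he
  set ξ : Fin S.card → Fin n → ZMod 2 := fun i j => (b i : Module.Dual (ZMod 2) (Fin n → ZMod 2))
    (Pi.single j 1) with hξ
  have hsingle : ∀ j : Fin n, (Pi.single j 1 : Fin n → ZMod 2) = fun j' => if j = j' then 1 else 0 := by
    intro j
    funext i'
    rw [Pi.single_apply]
    by_cases h : i' = j
    · rw [if_pos h, if_pos h.symm]
    · rw [if_neg h, if_neg (fun h' => h h'.symm)]
  have hξa : ∀ i w, ∑ j, ξ i j * w j = (b i : Module.Dual (ZMod 2) (Fin n → ZMod 2)) w := by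
    intro i w
    rw [LinearMap.pi_apply_eq_sum_univ (b i : Module.Dual (ZMod 2) (Fin n → ZMod 2)) w]
    apply Finset.sum_congr rfl
    intro j _
    rw [smul_eq_mul, mul_comm (w j), ← hsingle j]
  refine ⟨fun i => if h : i ∈ S then ξ (e ⟨i, h⟩) else 0, ?_, ?_⟩
  · intro w hw i hi
    simp only [dif_pos hi]
    rw [hξa]
    have h9 : (b (e ⟨i, hi⟩) : Module.Dual (ZMod 2) (Fin n → ZMod 2)) ∈ W.dualAnnihilator :=
      (b (e ⟨i, hi⟩)).2
    exact (Submodule.mem_dualAnnihilator _).1 h9 w hw
  · intro w hw
    by_contra hcon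
    push Not at hcon
    obtain ⟨φ, hφ1, hφ2⟩ := Submodule.exists_le_ker_of_notMem hw
    have hφA : φ ∈ A := by
      rw [hA, Submodule.mem_dualAnnihilator]
      intro x hx
      exact LinearMap.mem_ker.1 (hφ2 hx)
    apply hφ1
    have h3 : (⟨φ, hφA⟩ : A) = ∑ i, b.repr ⟨φ, hφA⟩ i • b i := (b.sum_repr _).symm
    have h4 : φ = ∑ i, b.repr ⟨φ, hφA⟩ i • (b i : Module.Dual (ZMod 2) (Fin n → ZMod 2)) := by
      have := congrArg Subtype.val h3
      rw [AddSubmonoidClass.coe_finset_sum] at this
      exact this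
    rw [h4, LinearMap.sum_apply]
    apply Finset.sum_eq_zero
    intro i _
    rw [LinearMap.smul_apply, ← hξa]
    have h5 := hcon (e.symm i) (e.symm i).2
    simp only [dif_pos (e.symm i).2] at h5
    rw [show e ⟨(e.symm i : Fin l), (e.symm i).2⟩ = i from e.apply_symm_apply i] at h5
    rw [h5, smul_zero]

/-- **Exactness.** -/
lemma exact_level {l n d : ℕ} (hl : n ≤ l) (f : (Fin l → Fin n → ZMod 2) → ℝ) (hf : Feas l n d f)
    (A : ℝ) (hA : ∀ W : Submodule (ZMod 2) (Fin n → ZMod 2),
      (∀ x ∈ W, x ≠ 0 → d ≤ hammingNorm x) → (Nat.card W : ℝ) ≤ A) :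
    ∑ X, f X ≤ A ^ l := by
  classical
  have hfS : Fintype (Submodule (ZMod 2) (Fin n → ZMod 2)) := Fintype.ofFinite _
  have hdim : ∀ W : Submodule (ZMod 2) (Fin n → ZMod 2), finrank (ZMod 2) W ≤ n := by
    intro W
    have := Submodule.finrank_le W
    rwa [Module.finrank_fintype_fun_eq_card, Fintype.card_fin] at this
  -- spanning tuples
  have htup : ∀ W : Submodule (ZMod 2) (Fin n → ZMod 2), ∃ X : Fin l → Fin n → ZMod 2,
      Submodule.span (ZMod 2) (Set.range X) = W := by
    intro W
    obtain ⟨X, h1, h2⟩ := exists_tuple W (univ : Finset (Fin l)) (by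
      rw [Finset.card_univ, Fintype.card_fin]; exact (hdim W).trans hl)
    refine ⟨X, le_antisymm ?_ ?_⟩
    · rw [Submodule.span_le]
      rintro _ ⟨i, rfl⟩
      exact h1 i
    · simpa using h2
  choose tup htup using htup
  set F : Submodule (ZMod 2) (Fin n → ZMod 2) → ℝ := fun W => f (tup W) with hF
  have hfF : ∀ X, f X = F (Submodule.span (ZMod 2) (Set.range X)) := by
    intro X
    apply le_antisymm
    · apply hf.mono
      rw [htup]
    · apply hf.mono
      rw [htup]
  obtain ⟨P, hP⟩ := exists_inv F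
  have hfP : ∀ X, f X = ∑ W, (if Submodule.span (ZMod 2) (Set.range X) ≤ W then P W else 0) := by
    intro X
    rw [hfF, ← hP, Finset.sum_filter]
  -- the weights are nonnegative
  have hP0 : ∀ W, 0 ≤ P W := by
    intro W
    obtain ⟨S, -, hS⟩ := Finset.exists_subset_card_eq (s := (univ : Finset (Fin l)))
      (n := n - finrank (ZMod 2) W) (by rw [Finset.card_univ, Fintype.card_fin]; omega)
    have hWn := hdim W
    have hcS : finrank (ZMod 2) W ≤ Sᶜ.card := by
      rw [Finset.card_compl, Fintype.card_fin, hS]; omega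
    obtain ⟨X, hX1, hX2⟩ := exists_tuple W Sᶜ hcS
    obtain ⟨Ξ, hΞ1, hΞ2⟩ := exists_checks (l := l) W S (by omega)
    have key := hf.fourier S X Ξ
    simp_rw [char_eq, hfP, Finset.sum_mul] at key
    rw [Finset.sum_comm] at key
    -- the contribution of a subspace
    set cnt := (univ.filter fun Z : Fin l → Fin n → ZMod 2 => (∀ i ∉ S, Z i = X i) ∧
      ∀ i, Z i ∈ W) with hcnt
    have hspan : ∀ (Z : Fin l → Fin n → ZMod 2), (∀ i ∉ S, Z i = X i) →
        W ≤ Submodule.span (ZMod 2) (Set.range Z) := by
      intro Z hZ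
      refine hX2.trans (Submodule.span_mono ?_)
      rintro _ ⟨i, hi, rfl⟩
      have hi' : i ∉ S := by simpa using hi
      exact ⟨i, hZ i hi'⟩
    have hterm : ∀ W' : Submodule (ZMod 2) (Fin n → ZMod 2),
        ∑ Z with (∀ i ∉ S, Z i = X i),
          (if Submodule.span (ZMod 2) (Set.range Z) ≤ W' then P W' else 0) *
            sg (∑ i ∈ S, ∑ j, Ξ i j * Z i j) = if W' = W then P W * cnt.card else 0 := by
      intro W'
      by_cases hWW : W' = W
      · subst hWW
        rw [if_pos rfl]
        have h1 : ∀ Z ∈ univ.filter (fun Z : Fin l → Fin n → ZMod 2 => ∀ i ∉ S, Z i = X i),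
            (if Submodule.span (ZMod 2) (Set.range Z) ≤ W' then P W' else 0) *
            sg (∑ i ∈ S, ∑ j, Ξ i j * Z i j) = if (∀ i, Z i ∈ W') then P W' else 0 := by
          intro Z _
          by_cases h : ∀ i, Z i ∈ W'
          · have h2 : Submodule.span (ZMod 2) (Set.range Z) ≤ W' := by
              rw [Submodule.span_le]; rintro _ ⟨i, rfl⟩; exact h i
            rw [if_pos h2, if_pos h, Finset.sum_eq_zero (fun i hi => hΞ1 _ (h i) i hi), sg_zero,
              mul_one]
          · have h2 : ¬ Submodule.span (ZMod 2) (Set.range Z) ≤ W' := by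
              intro h3; apply h; intro i; exact h3 (Submodule.subset_span ⟨i, rfl⟩)
            rw [if_neg h2, if_neg h, zero_mul]
        rw [Finset.sum_congr rfl h1, ← Finset.sum_filter, Finset.filter_filter, Finset.sum_const,
          nsmul_eq_mul, mul_comm]
      · rw [if_neg hWW]
        by_cases hle : W ≤ W'
        · have hlt : ∃ w ∈ W', w ∉ W := by
            by_contra h; push Not at h
            exact hWW (le_antisymm h hle)
          obtain ⟨w, hw, hwW⟩ := hlt
          obtain ⟨i₀, hi₀, hne⟩ := hΞ2 w hwW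
          have hone : ∑ j, Ξ i₀ j * w j = 1 := (zmod2_cases _).resolve_left hne
          set g : (Fin l → Fin n → ZMod 2) → ℝ := fun Z =>
            (if Submodule.span (ZMod 2) (Set.range Z) ≤ W' then P W' else 0) *
              sg (∑ i ∈ S, ∑ j, Ξ i j * Z i j) with hg
          set sh : (Fin l → Fin n → ZMod 2) → (Fin l → Fin n → ZMod 2) :=
            fun Z => Z + Pi.single i₀ w with hsh
          have hshi : ∀ Z i, i ≠ i₀ → sh Z i = Z i := by
            intro Z i hi
            simp [hsh, hi]
          have hshi0 : ∀ Z, sh Z i₀ = Z i₀ + w := by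
            intro Z
            simp [hsh]
          have hsh2 : ∀ Z, sh (sh Z) = Z := by
            intro Z
            funext i
            by_cases hi : i = i₀
            · subst hi
              rw [hshi0, hshi0, add_assoc, add_self', add_zero]
            · rw [hshi _ _ hi, hshi _ _ hi]
          have hmem : ∀ Z, (∀ i, sh Z i ∈ W') ↔ ∀ i, Z i ∈ W' := by
            have aux : ∀ Z, (∀ i, Z i ∈ W') → ∀ i, sh Z i ∈ W' := by
              intro Z h i
              by_cases hi : i = i₀
              · subst hi; rw [hshi0]; exact W'.add_mem (h _) hw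
              · rw [hshi _ _ hi]; exact h i
            intro Z
            refine ⟨fun h => ?_, aux Z⟩
            have := aux (sh Z) h
            rwa [hsh2] at this
          have hspm : ∀ Z : Fin l → Fin n → ZMod 2,
              Submodule.span (ZMod 2) (Set.range Z) ≤ W' ↔ ∀ i, Z i ∈ W' := by
            intro Z
            rw [Submodule.span_le]
            constructor
            · intro h i; exact h ⟨i, rfl⟩
            · rintro h _ ⟨i, rfl⟩; exact h i
          have hneg : ∀ Z, g (sh Z) = - g Z := by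
            intro Z
            rw [hg]
            simp only [hspm, hmem]
            have h5 : ∑ i ∈ S, ∑ j, Ξ i j * sh Z i j = (∑ i ∈ S, ∑ j, Ξ i j * Z i j) + 1 := by
              rw [← Finset.add_sum_erase _ _ hi₀, ← Finset.add_sum_erase (a := i₀) _ _ hi₀]
              have h6 : ∑ i ∈ S.erase i₀, ∑ j, Ξ i j * sh Z i j =
                  ∑ i ∈ S.erase i₀, ∑ j, Ξ i j * Z i j := by
                apply Finset.sum_congr rfl
                intro i hi
                rw [hshi _ _ (Finset.ne_of_mem_erase hi)]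
              have h7 : ∑ j, Ξ i₀ j * sh Z i₀ j = (∑ j, Ξ i₀ j * Z i₀ j) + 1 := by
                rw [hshi0, ← hone, ← Finset.sum_add_distrib]
                apply Finset.sum_congr rfl
                intro j _
                rw [Pi.add_apply, mul_add]
              rw [h6, h7]; ring
            rw [h5, sg_add, sg_one]
            ring
          have h8 : ∑ Z ∈ univ.filter (fun Z : Fin l → Fin n → ZMod 2 => ∀ i ∉ S, Z i = X i), g Z =
              ∑ Z ∈ univ.filter (fun Z : Fin l → Fin n → ZMod 2 => ∀ i ∉ S, Z i = X i), g (sh Z) := by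
            refine Finset.sum_bij' (fun Z _ => sh Z) (fun Z _ => sh Z) ?_ ?_ ?_ ?_ ?_
            · intro Z hZ
              rw [Finset.mem_filter] at hZ ⊢
              refine ⟨Finset.mem_univ _, fun i hi => ?_⟩
              rw [hshi _ _ (fun h => hi (by rw [h]; exact hi₀)), hZ.2 i hi]
            · intro Z hZ
              rw [Finset.mem_filter] at hZ ⊢
              refine ⟨Finset.mem_univ _, fun i hi => ?_⟩
              rw [hshi _ _ (fun h => hi (by rw [h]; exact hi₀)), hZ.2 i hi]
            · intro Z _; exact hsh2 Z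
            · intro Z _; exact hsh2 Z
            · intro Z _; rw [hsh2]
          simp_rw [hneg] at h8
          rw [Finset.sum_neg_distrib] at h8
          linarith
        · apply Finset.sum_eq_zero
          intro Z hZ
          rw [if_neg, zero_mul]
          intro h
          exact hle ((hspan Z (Finset.mem_filter.1 hZ).2).trans h)
    rw [Finset.sum_congr rfl fun W' _ => hterm W', Finset.sum_ite_eq' univ W, if_pos (Finset.mem_univ _)]
      at key
    have hpos : 0 < cnt.card := by
      rw [Finset.card_pos]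
      refine ⟨X, ?_⟩
      rw [hcnt, Finset.mem_filter]
      exact ⟨Finset.mem_univ _, fun _ _ => rfl, hX1⟩
    have hpos' : (0 : ℝ) < cnt.card := by exact_mod_cast hpos
    exact nonneg_of_mul_nonneg_left key hpos'
  -- bad subspaces have weight zero
  have hPle : ∀ W, P W ≤ F W := by
    intro W
    rw [← hP W]
    exact Finset.single_le_sum (f := P) (fun W' _ => hP0 W')
      (Finset.mem_filter.2 ⟨Finset.mem_univ _, le_rfl⟩)
  have hbad : ∀ W : Submodule (ZMod 2) (Fin n → ZMod 2),
      ¬ (∀ x ∈ W, x ≠ 0 → d ≤ hammingNorm x) → P W = 0 := by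
    intro W hW
    push Not at hW
    obtain ⟨x, hx, hx0, hxd⟩ := hW
    have hxs : x ∈ Submodule.span (ZMod 2) (Set.range (tup W)) := by rw [htup]; exact hx
    obtain ⟨a, ha⟩ := (Submodule.mem_span_range_iff_exists_fun (ZMod 2)).1 hxs
    have h1 : F W = 0 := by
      apply hf.dist (tup W) a
      · rw [ha]; exact hammingNorm_pos_iff.2 hx0
      · rw [ha]; exact hxd
    exact le_antisymm ((hPle W).trans h1.le) (hP0 W)
  have hsum1 : ∑ W, P W = 1 := by
    have h1 := hP ⊥
    have h2 : univ.filter (fun W : Submodule (ZMod 2) (Fin n → ZMod 2) => ⊥ ≤ W) = univ := by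
      ext W; simp
    rw [h2] at h1
    rw [h1]
    have h3 : tup ⊥ = 0 := by
      have h4 := htup ⊥
      rw [Submodule.span_eq_bot] at h4
      funext i
      exact h4 _ ⟨i, rfl⟩
    change f (tup ⊥) = 1
    rw [h3, hf.one]
  have hcount : ∀ W : Submodule (ZMod 2) (Fin n → ZMod 2),
      ∑ X : Fin l → Fin n → ZMod 2, (if Submodule.span (ZMod 2) (Set.range X) ≤ W then P W else 0) =
        P W * (Nat.card W : ℝ) ^ l := by
    intro W
    rw [← Finset.sum_filter, Finset.sum_const, nsmul_eq_mul, mul_comm]
    congr 1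
    have h1 : univ.filter (fun X : Fin l → Fin n → ZMod 2 =>
        Submodule.span (ZMod 2) (Set.range X) ≤ W) =
        Fintype.piFinset (fun _ : Fin l => univ.filter fun x : Fin n → ZMod 2 => x ∈ W) := by
      ext X
      rw [Fintype.mem_piFinset, Finset.mem_filter, Submodule.span_le]
      constructor
      · rintro ⟨-, h⟩ i
        exact Finset.mem_filter.2 ⟨Finset.mem_univ _, h ⟨i, rfl⟩⟩
      · intro h
        refine ⟨Finset.mem_univ _, ?_⟩
        rintro _ ⟨i, rfl⟩
        exact (Finset.mem_filter.1 (h i)).2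
    have h2 : (univ.filter fun x : Fin n → ZMod 2 => x ∈ W).card = Nat.card W := by
      rw [Nat.card_eq_fintype_card]
      exact (Fintype.card_subtype (fun x => x ∈ W)).symm
    rw [h1, Fintype.card_piFinset, Finset.prod_const, Finset.card_univ, Fintype.card_fin, h2]
    push_cast
    rfl
  calc ∑ X, f X = ∑ W, P W * (Nat.card W : ℝ) ^ l := by
        simp_rw [hfP]
        rw [Finset.sum_comm]
        exact Finset.sum_congr rfl fun W _ => hcount W
    _ ≤ ∑ W, P W * A ^ l := by
        apply Finset.sum_le_sum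
        intro W _
        by_cases hW : ∀ x ∈ W, x ≠ 0 → d ≤ hammingNorm x
        · apply mul_le_mul_of_nonneg_left _ (hP0 W)
          exact pow_le_pow_left₀ (Nat.cast_nonneg _) (hA W hW) l
        · rw [hbad W hW, zero_mul, zero_mul]
    _ = A ^ l := by rw [← Finset.sum_mul, hsum1, one_mul]

end Fourteen

end Pool.Agent.Y646.Lh
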