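import Pool.Agent.Y646.Lh1

/-!
# A linear code with good distance and balanced dual
-/

namespace Pool.Agent.Y646.Lh

open Finset

lemma card_V (n : ℕ) : Fintype.card (Fin n → ZMod 2) = 2 ^ n := by
  simp [ZMod.card]

/-- All fibres of a nonzero linear combination have the same size. -/
lemma fib_comb {n k : ℕ} (a : Fin k → ZMod 2) (i₀ : Fin k) (ha : a i₀ = 1) (v : Fin n → ZMod 2) :
    (univ.filter fun G : Fin k → Fin n → ZMod 2 => ∑ i, a i • G i = v).card =
      (univ.filter fun G : Fin k → Fin n → ZMod 2 => ∑ i, a i • G i = 0).card := by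
  classical
  have key : ∀ (G : Fin k → Fin n → ZMod 2) (w : Fin n → ZMod 2),
      ∑ i, a i • (G + Pi.single i₀ w : Fin k → Fin n → ZMod 2) i = (∑ i, a i • G i) + w := by
    intro G w
    simp only [Pi.add_apply, smul_add, Finset.sum_add_distrib]
    congr 1
    rw [Finset.sum_eq_single i₀]
    · simp [ha]
    · intro b _ hb; simp [hb]
    · simp
  have hvv : ∀ v : Fin n → ZMod 2, v + v = 0 := fun v => funext fun i => CharTwo.add_self_eq_zero (v i)
  refine Finset.card_bij' (fun G _ => G + Pi.single i₀ v) (fun G _ => G + Pi.single i₀ v) ?_ ?_ ?_ ?_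
  · intro G hG
    simp only [Finset.mem_filter, Finset.mem_univ, true_and] at hG ⊢
    rw [key, hG, hvv]
  · intro G hG
    simp only [Finset.mem_filter, Finset.mem_univ, true_and] at hG ⊢
    rw [key, hG, zero_add]
  · intro G _
    rw [add_assoc, ← Pi.single_add, hvv, Pi.single_zero, add_zero]
  · intro G _
    rw [add_assoc, ← Pi.single_add, hvv, Pi.single_zero, add_zero]

lemma count_comb {n k : ℕ} (a : Fin k → ZMod 2) (ha : a ≠ 0) (S : Finset (Fin n → ZMod 2)) :
    (univ.filter fun G : Fin k → Fin n → ZMod 2 => ∑ i, a i • G i ∈ S).card * 2 ^ n =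
      S.card * (2 ^ n) ^ k := by
  classical
  obtain ⟨i₀, hi₀⟩ : ∃ i, a i ≠ 0 := by
    by_contra h; push Not at h; exact ha (funext h)
  have hi1 : a i₀ = 1 := (zmod2_cases (a i₀)).resolve_left hi₀
  set c := (univ.filter fun G : Fin k → Fin n → ZMod 2 => ∑ i, a i • G i = 0).card with hc
  have h1 : (univ.filter fun G : Fin k → Fin n → ZMod 2 => ∑ i, a i • G i ∈ S).card = S.card * c := by
    rw [Finset.card_eq_sum_card_fiberwise (f := fun G : Fin k → Fin n → ZMod 2 => ∑ i, a i • G i)
      (t := S)]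
    · rw [Finset.sum_congr rfl (g := fun _ => c)]
      · rw [Finset.sum_const, smul_eq_mul]
      · intro v hv
        rw [hc, ← fib_comb a i₀ hi1 v]
        congr 1
        ext G
        simp only [Finset.mem_filter, Finset.mem_univ, true_and]
        constructor
        · exact fun h => h.2
        · intro h; exact ⟨by rw [h]; exact hv, h⟩
    · intro G hG
      exact (Finset.mem_filter.1 hG).2
  have h2 : (2 ^ n) ^ k = 2 ^ n * c := by
    have : (univ : Finset (Fin k → Fin n → ZMod 2)).card = (2 ^ n) ^ k := by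
      rw [Finset.card_univ, Fintype.card_fun, card_V, Fintype.card_fin]
    rw [← this, Finset.card_eq_sum_card_fiberwise (f := fun G : Fin k → Fin n → ZMod 2 =>
      ∑ i, a i • G i) (t := univ)]
    · rw [Finset.sum_congr rfl (g := fun _ => c)]
      · rw [Finset.sum_const, smul_eq_mul, Finset.card_univ, card_V]
      · intro v _
        exact fib_comb a i₀ hi1 v
    · intro G _; simp
  rw [h1, h2]; ring

lemma count_orth {n : ℕ} (ξ : Fin n → ZMod 2) (hξ : ξ ≠ 0) :
    (univ.filter fun v : Fin n → ZMod 2 => ∑ j, ξ j * v j = 0).card * 2 = 2 ^ n := by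
  classical
  obtain ⟨j₀, hj₀⟩ : ∃ i, ξ i ≠ 0 := by
    by_contra h; push Not at h; exact hξ (funext h)
  have hj1 : ξ j₀ = 1 := (zmod2_cases (ξ j₀)).resolve_left hj₀
  have key : ∀ (v : Fin n → ZMod 2),
      ∑ j, ξ j * (v + Pi.single j₀ 1 : Fin n → ZMod 2) j = (∑ j, ξ j * v j) + 1 := by
    intro v
    simp only [Pi.add_apply, mul_add, Finset.sum_add_distrib]
    congr 1
    rw [Finset.sum_eq_single j₀]
    · simp [hj1]
    · intro b _ hb; simp [hb]
    · simp
  have h11 : (1 : ZMod 2) + 1 = 0 := by decide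
  have h1 : (univ.filter fun v : Fin n → ZMod 2 => ∑ j, ξ j * v j = 0).card =
      (univ.filter fun v : Fin n → ZMod 2 => ¬ ∑ j, ξ j * v j = 0).card := by
    refine Finset.card_bij' (fun v _ => v + Pi.single j₀ 1) (fun v _ => v + Pi.single j₀ 1) ?_ ?_ ?_ ?_
    · intro v hv
      simp only [Finset.mem_filter, Finset.mem_univ, true_and] at hv ⊢
      rw [key, hv]; decide
    · intro v hv
      simp only [Finset.mem_filter, Finset.mem_univ, true_and] at hv ⊢
      rw [key, (zmod2_cases _).resolve_left hv, h11]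
    · intro v _
      rw [add_assoc, ← Pi.single_add, h11, Pi.single_zero, add_zero]
    · intro v _
      rw [add_assoc, ← Pi.single_add, h11, Pi.single_zero, add_zero]
  have h2 := Finset.card_filter_add_card_filter_not (s := (univ : Finset (Fin n → ZMod 2)))
    (fun v => ∑ j, ξ j * v j = 0)
  rw [Finset.card_univ, card_V] at h2
  omega

lemma count_dual {n k : ℕ} (ξ : Fin n → ZMod 2) (hξ : ξ ≠ 0) :
    (univ.filter fun G : Fin k → Fin n → ZMod 2 => ∀ i, ∑ j, ξ j * G i j = 0).card * 2 ^ k =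
      (2 ^ n) ^ k := by
  classical
  have h1 : (univ.filter fun G : Fin k → Fin n → ZMod 2 => ∀ i, ∑ j, ξ j * G i j = 0) =
      Fintype.piFinset (fun _ : Fin k => univ.filter fun v : Fin n → ZMod 2 => ∑ j, ξ j * v j = 0) := by
    ext G; simp [Fintype.mem_piFinset]
  rw [h1, Fintype.card_piFinset, Finset.prod_const, Finset.card_univ, Fintype.card_fin, ← mul_pow,
    count_orth ξ hξ]

lemma card_heavy (n m : ℕ) :
    (univ.filter fun ξ : Fin n → ZMod 2 => n < m + hammingNorm ξ).card =
      (univ.filter fun ξ : Fin n → ZMod 2 => hammingNorm ξ < m).card := by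
  classical
  have key : ∀ ξ : Fin n → ZMod 2, hammingNorm (ξ + 1) + hammingNorm ξ = n := by
    intro ξ
    have := Finset.card_filter_add_card_filter_not (s := (univ : Finset (Fin n))) (fun i => ξ i ≠ 0)
    rw [Finset.card_univ, Fintype.card_fin] at this
    have h2 : hammingNorm (ξ + 1) = (univ.filter fun i => ¬ ξ i ≠ 0).card := by
      unfold hammingNorm
      congr 1
      ext i
      simp only [Finset.mem_filter, Finset.mem_univ, true_and, Pi.add_apply, Pi.one_apply]
      rcases zmod2_cases (ξ i) with h | h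
      · simp [h]
      · simp only [h]
        have : (1 : ZMod 2) + 1 = 0 := by decide
        simp [this]
    rw [h2]
    unfold hammingNorm
    omega
  have h11 : ∀ ξ : Fin n → ZMod 2, ξ + 1 + 1 = ξ := by
    intro ξ
    funext i
    change ξ i + 1 + 1 = ξ i
    rw [add_assoc, CharTwo.add_self_eq_zero, add_zero]
  refine Finset.card_bij' (fun ξ _ => ξ + 1) (fun ξ _ => ξ + 1) ?_ ?_ ?_ ?_
  · intro ξ hξ
    simp only [Finset.mem_filter, Finset.mem_univ, true_and] at hξ ⊢
    have := key ξ; omega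
  · intro ξ hξ
    simp only [Finset.mem_filter, Finset.mem_univ, true_and] at hξ ⊢
    have := key ξ; omega
  · intro ξ _; exact h11 ξ
  · intro ξ _; exact h11 ξ

/-- **Existence of the code.** -/
lemma exists_code (n k d m : ℕ)
    (h : (2 : ℝ) ^ k * ((univ.filter fun x : Fin n → ZMod 2 => hammingNorm x < d).card : ℝ) / 2 ^ n +
      2 * ((univ.filter fun x : Fin n → ZMod 2 => hammingNorm x < m).card : ℝ) / 2 ^ k < 1) :
    ∃ C : Submodule (ZMod 2) (Fin n → ZMod 2), Nat.card C ≤ 2 ^ k ∧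
      (∀ x ∈ C, x ≠ 0 → d ≤ hammingNorm x) ∧
      ∀ ξ : Fin n → ZMod 2, ξ ≠ 0 → (∀ x ∈ C, ∑ j, ξ j * x j = 0) →
        m ≤ hammingNorm ξ ∧ m + hammingNorm ξ ≤ n := by
  classical
  set Bd := univ.filter fun x : Fin n → ZMod 2 => hammingNorm x < d with hBd
  set Bm := univ.filter fun x : Fin n → ZMod 2 => hammingNorm x < m with hBm
  set Hm := univ.filter fun ξ : Fin n → ZMod 2 => n < m + hammingNorm ξ with hHm
  have hHB : Hm.card = Bm.card := card_heavy n m
  obtain ⟨G, hG1, hG2⟩ : ∃ G : Fin k → Fin n → ZMod 2,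
      (∀ a : Fin k → ZMod 2, a ≠ 0 → ∑ i, a i • G i ∉ Bd) ∧
      (∀ ξ : Fin n → ZMod 2, ξ ≠ 0 → ξ ∈ Bm ∪ Hm → ¬ ∀ i, ∑ j, ξ j * G i j = 0) := by
    by_contra hno
    push Not at hno
    have hcov : (univ : Finset (Fin k → Fin n → ZMod 2)) ⊆
        ((univ.filter fun a : Fin k → ZMod 2 => a ≠ 0).biUnion fun a =>
          univ.filter fun G : Fin k → Fin n → ZMod 2 => ∑ i, a i • G i ∈ Bd) ∪
        (((Bm ∪ Hm).filter fun ξ => ξ ≠ 0).biUnion fun ξ =>
          univ.filter fun G : Fin k → Fin n → ZMod 2 => ∀ i, ∑ j, ξ j * G i j = 0) := by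
      intro G _
      rw [Finset.mem_union]
      by_cases h1 : ∀ a : Fin k → ZMod 2, a ≠ 0 → ∑ i, a i • G i ∉ Bd
      · right
        obtain ⟨ξ, h2, h3, h4⟩ := hno G h1
        rw [Finset.mem_biUnion]
        exact ⟨ξ, Finset.mem_filter.2 ⟨h3, h2⟩, Finset.mem_filter.2 ⟨Finset.mem_univ _, h4⟩⟩
      · left
        push Not at h1
        obtain ⟨a, h2, h3⟩ := h1
        rw [Finset.mem_biUnion]
        exact ⟨a, Finset.mem_filter.2 ⟨Finset.mem_univ _, h2⟩,
          Finset.mem_filter.2 ⟨Finset.mem_univ _, h3⟩⟩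
    have hcard := (Finset.card_le_card hcov).trans (Finset.card_union_le _ _)
    rw [Finset.card_univ, Fintype.card_fun, card_V, Fintype.card_fin] at hcard
    have c1 := Finset.card_biUnion_le (s := univ.filter fun a : Fin k → ZMod 2 => a ≠ 0)
      (t := fun a => univ.filter fun G : Fin k → Fin n → ZMod 2 => ∑ i, a i • G i ∈ Bd)
    have c2 := Finset.card_biUnion_le (s := (Bm ∪ Hm).filter fun ξ => ξ ≠ 0)
      (t := fun ξ => univ.filter fun G : Fin k → Fin n → ZMod 2 => ∀ i, ∑ j, ξ j * G i j = 0)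
    have e1 : (∑ a ∈ univ.filter fun a : Fin k → ZMod 2 => a ≠ 0,
        ((univ.filter fun G : Fin k → Fin n → ZMod 2 => ∑ i, a i • G i ∈ Bd).card : ℝ)) ≤
        2 ^ k * (Bd.card * (2 ^ n) ^ k / 2 ^ n) := by
      calc _ ≤ ∑ a ∈ univ.filter fun a : Fin k → ZMod 2 => a ≠ 0,
            ((Bd.card : ℝ) * (2 ^ n) ^ k / 2 ^ n) := by
            apply Finset.sum_le_sum
            intro a ha
            rw [le_div_iff₀ (by positivity)]
            have := count_comb a (Finset.mem_filter.1 ha).2 Bd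
            exact_mod_cast this.le
        _ ≤ _ := by
            rw [Finset.sum_const, nsmul_eq_mul]
            apply mul_le_mul_of_nonneg_right _ (by positivity)
            have : (univ.filter fun a : Fin k → ZMod 2 => a ≠ 0).card ≤ 2 ^ k := by
              calc _ ≤ (univ : Finset (Fin k → ZMod 2)).card := Finset.card_filter_le _ _
                _ = 2 ^ k := by rw [Finset.card_univ, card_V]
            exact_mod_cast this
    have e2 : (∑ ξ ∈ (Bm ∪ Hm).filter fun ξ => ξ ≠ 0,
        ((univ.filter fun G : Fin k → Fin n → ZMod 2 => ∀ i, ∑ j, ξ j * G i j = 0).card : ℝ)) ≤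
        2 * Bm.card * ((2 ^ n) ^ k / 2 ^ k) := by
      calc _ ≤ ∑ ξ ∈ (Bm ∪ Hm).filter fun ξ => ξ ≠ 0, (((2 : ℝ) ^ n) ^ k / 2 ^ k) := by
            apply Finset.sum_le_sum
            intro ξ hξ
            rw [le_div_iff₀ (by positivity)]
            have := count_dual (k := k) ξ (Finset.mem_filter.1 hξ).2
            exact_mod_cast this.le
        _ ≤ _ := by
            rw [Finset.sum_const, nsmul_eq_mul]
            apply mul_le_mul_of_nonneg_right _ (by positivity)
            have : ((Bm ∪ Hm).filter fun ξ => ξ ≠ 0).card ≤ 2 * Bm.card := by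
              calc _ ≤ (Bm ∪ Hm).card := Finset.card_filter_le _ _
                _ ≤ Bm.card + Hm.card := Finset.card_union_le _ _
                _ = 2 * Bm.card := by rw [hHB]; ring
            exact_mod_cast this
    have hc : ((2 : ℝ) ^ n) ^ k ≤ 2 ^ k * (Bd.card * (2 ^ n) ^ k / 2 ^ n) +
        2 * Bm.card * ((2 ^ n) ^ k / 2 ^ k) := by
      have h3 : ((2 : ℝ) ^ n) ^ k ≤ (∑ a ∈ univ.filter fun a : Fin k → ZMod 2 => a ≠ 0,
        ((univ.filter fun G : Fin k → Fin n → ZMod 2 => ∑ i, a i • G i ∈ Bd).card : ℝ)) +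
        (∑ ξ ∈ (Bm ∪ Hm).filter fun ξ => ξ ≠ 0,
        ((univ.filter fun G : Fin k → Fin n → ZMod 2 => ∀ i, ∑ j, ξ j * G i j = 0).card : ℝ)) := by
        exact_mod_cast hcard.trans (add_le_add c1 c2)
      linarith
    have hp : (0 : ℝ) < (2 ^ n) ^ k := by positivity
    have h5 : 2 ^ k * (Bd.card * (2 ^ n) ^ k / 2 ^ n) + 2 * Bm.card * ((2 ^ n) ^ k / 2 ^ k) =
        ((2 : ℝ) ^ k * (Bd.card : ℝ) / 2 ^ n + 2 * (Bm.card : ℝ) / 2 ^ k) * (2 ^ n) ^ k := by ring
    rw [h5] at hc
    nlinarith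
  have hmem : ∀ x ∈ Submodule.span (ZMod 2) (Set.range G), ∃ a : Fin k → ZMod 2, ∑ i, a i • G i = x :=
    fun x hx => (Submodule.mem_span_range_iff_exists_fun (ZMod 2)).1 hx
  refine ⟨Submodule.span (ZMod 2) (Set.range G), ?_, ?_, ?_⟩
  · have hsurj : Function.Surjective (fun a : Fin k → ZMod 2 =>
        (⟨∑ i, a i • G i, Submodule.sum_mem _ fun i _ => Submodule.smul_mem _ _
          (Submodule.subset_span ⟨i, rfl⟩)⟩ : Submodule.span (ZMod 2) (Set.range G))) := by
      rintro ⟨x, hx⟩
      obtain ⟨a, ha⟩ := hmem x hx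
      exact ⟨a, Subtype.ext ha⟩
    calc Nat.card (Submodule.span (ZMod 2) (Set.range G)) ≤ Nat.card (Fin k → ZMod 2) :=
          Nat.card_le_card_of_surjective _ hsurj
      _ = 2 ^ k := by rw [Nat.card_eq_fintype_card, card_V]
  · intro x hx hx0
    obtain ⟨a, ha⟩ := hmem x hx
    have ha0 : a ≠ 0 := by
      rintro rfl; apply hx0; rw [← ha]; simp
    have := hG1 a ha0
    rw [ha, hBd, Finset.mem_filter] at this
    push Not at this
    exact this (Finset.mem_univ _)
  · intro ξ hξ hC
    have := hG2 ξ hξ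
    by_contra hcon
    apply this
    · rw [Finset.mem_union, hBm, hHm, Finset.mem_filter, Finset.mem_filter]
      by_contra h7
      push Not at h7
      exact hcon ⟨h7.1 (Finset.mem_univ _), h7.2 (Finset.mem_univ _)⟩
    · intro i
      exact hC _ (Submodule.subset_span ⟨i, rfl⟩)

end Pool.Agent.Y646.Lh
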