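import Mathlib

/-!
# The alternating number of spanning subsets
-/

namespace Pool.Agent.Y646.Lh

open Finset

variable {U : Type*} [AddCommGroup U] [Module (ZMod 2) U] [Fintype U] [DecidableEq U]

open Classical in
/-- The alternating sum over the subsets of `S` with span `W`. -/
noncomputable def alt (S : Finset U) (W : Submodule (ZMod 2) U) : ℝ :=
  ∑ A ∈ S.powerset.filter (fun A : Finset U => Submodule.span (ZMod 2) (A : Set U) = W), (-1 : ℝ) ^ A.card

lemma zm_cases (t : ZMod 2) : t = 0 ∨ t = 1 := by
  revert t; decide

open Classical in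
/-- The complements of the line of `e` inside `W`. -/
noncomputable def cpl (e : U) (W : Submodule (ZMod 2) U) : Finset (Submodule (ZMod 2) U) :=
  ((Set.toFinite {W' : Submodule (ZMod 2) U | e ∉ W' ∧ W' ⊔ Submodule.span (ZMod 2) {e} = W})).toFinset

lemma mem_cpl (e : U) (W W' : Submodule (ZMod 2) U) :
    W' ∈ cpl e W ↔ e ∉ W' ∧ W' ⊔ Submodule.span (ZMod 2) {e} = W := by
  simp [cpl]

/-- There are at most `2^dim` complements. -/
lemma card_cpl (e : U) (W : Submodule (ZMod 2) U) :
    (cpl e W).card ≤ 2 ^ Module.finrank (ZMod 2) U := by
  classical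
  have hfd : Module.Finite (ZMod 2) U := Module.Finite.of_finite
  have hfin : Finite (Module.Dual (ZMod 2) U) :=
    Finite.of_injective (fun l : Module.Dual (ZMod 2) U => (l : U → ZMod 2)) DFunLike.coe_injective
  have : Fintype (Module.Dual (ZMod 2) U) := Fintype.ofFinite _
  have hcard : Fintype.card (Module.Dual (ZMod 2) U) = 2 ^ Module.finrank (ZMod 2) U := by
    rw [Module.card_eq_pow_finrank (K := ZMod 2), ZMod.card, Subspace.dual_finrank_eq]
  rw [← hcard, ← Finset.card_univ]
  have hsub : cpl e W ⊆ (univ : Finset (Module.Dual (ZMod 2) U)).image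
      (fun l => W ⊓ LinearMap.ker l) := by
    intro W' hW'
    rw [mem_cpl] at hW'
    obtain ⟨he, hW⟩ := hW'
    rw [Finset.mem_image]
    obtain ⟨l, hl1, hl2⟩ := Submodule.exists_le_ker_of_notMem (p := W') he
    refine ⟨l, Finset.mem_univ _, ?_⟩
    apply le_antisymm
    · intro x hx
      rw [Submodule.mem_inf, ← hW, Submodule.mem_sup] at hx
      obtain ⟨⟨y, hy, w, hw, hyw⟩, hx2⟩ := hx
      rw [Submodule.mem_span_singleton] at hw
      obtain ⟨t, rfl⟩ := hw
      rcases zm_cases t with rfl | rfl
      · rw [zero_smul, add_zero] at hyw; rw [← hyw]; exact hy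
      · exfalso
        rw [one_smul] at hyw
        rw [← hyw, LinearMap.mem_ker, map_add, LinearMap.mem_ker.1 (hl2 hy), zero_add] at hx2
        exact hl1 hx2
    · rw [le_inf_iff]
      exact ⟨hW ▸ le_sup_left, hl2⟩
  exact (Finset.card_le_card hsub).trans Finset.card_image_le

/-- Weisner's recursion. -/
lemma alt_rec (S : Finset U) (W : Submodule (ZMod 2) U) (e : U) (he : e ∈ S) (heW : e ∈ W) :
    alt S W = - ∑ W' ∈ cpl e W, alt S W' := by
  classical
  set F := S.powerset.filter (fun A : Finset U => Submodule.span (ZMod 2) (A : Set U) = W) with hF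
  set F1 := F.filter (fun A : Finset U => Submodule.span (ZMod 2) ((A.erase e : Finset U) : Set U) = W) with hF1
  set F2 := F.filter (fun A : Finset U => ¬ Submodule.span (ZMod 2) ((A.erase e : Finset U) : Set U) = W) with hF2
  have hspan_ins : ∀ A : Finset U, Submodule.span (ZMod 2) ((insert e A : Finset U) : Set U) =
      Submodule.span (ZMod 2) (A : Set U) ⊔ Submodule.span (ZMod 2) {e} := by
    intro A
    rw [Finset.coe_insert, Set.insert_eq, Submodule.span_union, sup_comm]
  have hsplit : alt S W = ∑ A ∈ F1, (-1 : ℝ) ^ A.card + ∑ A ∈ F2, (-1 : ℝ) ^ A.card := by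
    rw [hF1, hF2, Finset.sum_filter_add_sum_filter_not]
    rfl
  have h1 : ∑ A ∈ F1, (-1 : ℝ) ^ A.card = 0 := by
    refine Finset.sum_involution (fun A _ => if e ∈ A then A.erase e else insert e A) ?_ ?_ ?_ ?_
    · intro A hA
      by_cases heA : e ∈ A
      · rw [if_pos heA]
        have : A.card = (A.erase e).card + 1 := by
          rw [Finset.card_erase_of_mem heA]
          have := Finset.card_pos.2 ⟨e, heA⟩
          omega
        rw [this, pow_succ]; ring
      · rw [if_neg heA, Finset.card_insert_of_notMem heA, pow_succ]; ring
    · intro A hA _ hAe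
      by_cases heA : e ∈ A
      · rw [if_pos heA] at hAe
        rw [← hAe] at heA
        exact absurd heA (Finset.notMem_erase e A)
      · rw [if_neg heA] at hAe
        rw [← hAe] at heA
        exact heA (Finset.mem_insert_self e A)
    · intro A hA
      have hA1 := (Finset.mem_filter.1 hA).1
      have hA2 := (Finset.mem_filter.1 hA).2
      have hA3 := (Finset.mem_filter.1 hA1).1
      have hA4 := (Finset.mem_filter.1 hA1).2
      rw [Finset.mem_powerset] at hA3
      by_cases heA : e ∈ A
      · rw [if_pos heA]
        rw [hF1, Finset.mem_filter, hF, Finset.mem_filter, Finset.mem_powerset]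
        refine ⟨⟨(Finset.erase_subset _ _).trans hA3, hA2⟩, ?_⟩
        rw [Finset.erase_eq_of_notMem (Finset.notMem_erase e A)]
        exact hA2
      · rw [if_neg heA]
        rw [hF1, Finset.mem_filter, hF, Finset.mem_filter, Finset.mem_powerset]
        rw [Finset.erase_insert heA]
        refine ⟨⟨Finset.insert_subset he hA3, ?_⟩, hA4⟩
        rw [hspan_ins, hA4, sup_eq_left, Submodule.span_singleton_le_iff_mem]
        exact heW
    · intro A hA
      by_cases heA : e ∈ A
      · rw [if_pos heA, if_neg (Finset.notMem_erase e A), Finset.insert_erase heA]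
      · rw [if_neg heA, if_pos (Finset.mem_insert_self e A), Finset.erase_insert heA]
  have h2 : ∑ A ∈ F2, (-1 : ℝ) ^ A.card = - ∑ W' ∈ cpl e W, alt S W' := by
    have hF2e : ∀ A ∈ F2, e ∈ A := by
      intro A hA
      by_contra hno
      have hA1 := (Finset.mem_filter.1 hA).1
      have hA2 := (Finset.mem_filter.1 hA).2
      rw [Finset.erase_eq_of_notMem hno] at hA2
      exact hA2 (Finset.mem_filter.1 hA1).2
    have hmap : ∀ A ∈ F2, Submodule.span (ZMod 2) ((A.erase e : Finset U) : Set U) ∈ cpl e W := by
      intro A hA
      have heA := hF2e A hA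
      have hA1 := (Finset.mem_filter.1 hA).1
      have hA2 := (Finset.mem_filter.1 hA).2
      have hA4 := (Finset.mem_filter.1 hA1).2
      have h3 : Submodule.span (ZMod 2) ((A.erase e : Finset U) : Set U) ⊔
          Submodule.span (ZMod 2) {e} = W := by
        rw [← hspan_ins, Finset.insert_erase heA, hA4]
      rw [mem_cpl]
      refine ⟨?_, h3⟩
      intro h4
      apply hA2
      rw [sup_eq_left.2 ((Submodule.span_singleton_le_iff_mem _ _).2 h4)] at h3
      exact h3
    rw [← Finset.sum_fiberwise_of_maps_to hmap, ← Finset.sum_neg_distrib]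
    apply Finset.sum_congr rfl
    intro W' hW'
    rw [mem_cpl] at hW'
    unfold alt
    rw [← Finset.sum_neg_distrib]
    refine Finset.sum_bij' (fun A _ => A.erase e) (fun A _ => insert e A) ?_ ?_ ?_ ?_ ?_
    · intro A hA
      have hA1 := (Finset.mem_filter.1 hA).1
      have hA2 := (Finset.mem_filter.1 hA).2
      rw [Finset.mem_filter, Finset.mem_powerset]
      refine ⟨(Finset.erase_subset _ _).trans ?_, hA2⟩
      exact Finset.mem_powerset.1 (Finset.mem_filter.1 (Finset.mem_filter.1 hA1).1).1
    · intro A hA
      rw [Finset.mem_filter, Finset.mem_powerset] at hA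
      have heA : e ∉ A := by
        intro h
        apply hW'.1
        rw [← hA.2]
        exact Submodule.subset_span h
      rw [Finset.mem_filter, hF2, Finset.mem_filter, hF, Finset.mem_filter, Finset.mem_powerset,
        Finset.erase_insert heA, hspan_ins, hA.2, hW'.2]
      refine ⟨⟨⟨Finset.insert_subset he hA.1, rfl⟩, ?_⟩, rfl⟩
      intro h
      apply hW'.1
      rw [h]; exact heW
    · intro A hA
      have hA1 := (Finset.mem_filter.1 hA).1
      exact Finset.insert_erase (hF2e A hA1)
    · intro A hA
      rw [Finset.mem_filter, Finset.mem_powerset] at hA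
      have heA : e ∉ A := by
        intro h
        apply hW'.1
        rw [← hA.2]
        exact Submodule.subset_span h
      exact Finset.erase_insert heA
    · intro A hA
      have hA1 := (Finset.mem_filter.1 hA).1
      have heA := hF2e A hA1
      have : A.card = (A.erase e).card + 1 := by
        rw [Finset.card_erase_of_mem heA]
        have := Finset.card_pos.2 ⟨e, heA⟩
        omega
      rw [this, pow_succ]; ring
  rw [hsplit, h1, h2, zero_add]

/-- The alternating number of spanning subsets is at most `2^(dim^2)`. -/
lemma alt_le (S : Finset U) (h0 : (0 : U) ∉ S) (W : Submodule (ZMod 2) U) :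
    |alt S W| ≤ ((2 : ℝ) ^ Module.finrank (ZMod 2) U) ^ Module.finrank (ZMod 2) W := by
  classical
  have hfd : Module.Finite (ZMod 2) U := Module.Finite.of_finite
  have main : ∀ r : ℕ, ∀ W : Submodule (ZMod 2) U, Module.finrank (ZMod 2) W = r →
      |alt S W| ≤ ((2 : ℝ) ^ Module.finrank (ZMod 2) U) ^ r := by
    intro r
    induction r with
    | zero =>
      intro W hW
      rw [Submodule.finrank_eq_zero] at hW
      subst hW
      have : S.powerset.filter (fun A : Finset U => Submodule.span (ZMod 2) (A : Set U) = ⊥) = {∅} := by
        ext A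
        rw [Finset.mem_filter, Finset.mem_powerset, Finset.mem_singleton, Submodule.span_eq_bot]
        constructor
        · rintro ⟨h1, h2⟩
          apply Finset.eq_empty_of_forall_notMem
          intro a ha
          have := h2 a ha
          rw [this] at ha
          exact h0 (h1 ha)
        · rintro rfl; simp
      unfold alt
      rw [this]; simp
    | succ r ih =>
      intro W hW
      by_cases hex : ∃ e ∈ S, e ∈ W
      · obtain ⟨e, heS, heW⟩ := hex
        rw [alt_rec S W e heS heW, abs_neg]
        have he0 : e ≠ 0 := by rintro rfl; exact h0 heS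
        calc |∑ W' ∈ cpl e W, alt S W'| ≤ ∑ W' ∈ cpl e W, |alt S W'| :=
              Finset.abs_sum_le_sum_abs _ _
          _ ≤ ∑ W' ∈ cpl e W, ((2 : ℝ) ^ Module.finrank (ZMod 2) U) ^ r := by
            apply Finset.sum_le_sum
            intro W' hW'
            rw [mem_cpl] at hW'
            apply ih
            have h3 := Submodule.finrank_sup_add_finrank_inf_eq W' (Submodule.span (ZMod 2) {e})
            rw [hW'.2, hW, finrank_span_singleton he0] at h3
            have h4 : W' ⊓ Submodule.span (ZMod 2) {e} = ⊥ := by
              rw [eq_bot_iff]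
              intro x hx
              rw [Submodule.mem_inf, Submodule.mem_span_singleton] at hx
              obtain ⟨hx1, t, rfl⟩ := hx
              rcases zm_cases t with rfl | rfl
              · simp
              · rw [one_smul] at hx1; exact absurd hx1 hW'.1
            rw [h4, finrank_bot] at h3
            omega
          _ = (cpl e W).card * ((2 : ℝ) ^ Module.finrank (ZMod 2) U) ^ r := by
            rw [Finset.sum_const, nsmul_eq_mul]
          _ ≤ (2 : ℝ) ^ Module.finrank (ZMod 2) U * ((2 : ℝ) ^ Module.finrank (ZMod 2) U) ^ r := by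
            apply mul_le_mul_of_nonneg_right _ (by positivity)
            exact_mod_cast card_cpl e W
          _ = _ := by rw [pow_succ]; ring
      · push Not at hex
        have : S.powerset.filter (fun A : Finset U => Submodule.span (ZMod 2) (A : Set U) = W) = ∅ := by
          rw [Finset.filter_eq_empty_iff]
          intro A hA hAW
          rw [Finset.mem_powerset] at hA
          have hAe : A = ∅ := by
            apply Finset.eq_empty_of_forall_notMem
            intro a ha
            apply hex a (hA ha)
            rw [← hAW]; exact Submodule.subset_span ha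
          rw [hAe] at hAW
          simp only [Finset.coe_empty, Submodule.span_empty] at hAW
          rw [← hAW, finrank_bot] at hW
          omega
        unfold alt
        rw [this]; simp
  exact main _ W rfl

end Pool.Agent.Y646.Lh
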