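import Pool.Agent.Y646.Lh1
import Pool.Agent.Y646.Lh3

/-!
# Fourier coefficients of the avoiding homomorphisms
-/

namespace Pool.Agent.Y646.Lh

open Finset Module

noncomputable instance homFintype {U V : Type*} [AddCommGroup U] [Module (ZMod 2) U] [Finite U]
    [AddCommGroup V] [Module (ZMod 2) V] [Finite V] : Fintype (U →ₗ[ZMod 2] V) :=
  @Fintype.ofFinite _ (Finite.of_injective (fun l : U →ₗ[ZMod 2] V => (l : U → V))
    DFunLike.coe_injective)

section Four

variable {V : Type*} [AddCommGroup V] [Module (ZMod 2) V] [Fintype V] [DecidableEq V]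

lemma add_self' (v : V) : v + v = 0 := by
  have : (2 : ZMod 2) • v = 0 := by
    rw [show (2 : ZMod 2) = 0 by decide, zero_smul]
  rw [← this, two_smul]

/-- The Fourier coefficient of a set. -/
noncomputable def hat (B : Finset V) (φ : V →ₗ[ZMod 2] ZMod 2) : ℝ := ∑ v ∈ B, sg (φ v)

lemma hat_zero (B : Finset V) : hat B 0 = B.card := by
  simp [hat]

lemma hat_abs (B : Finset V) (φ : V →ₗ[ZMod 2] ZMod 2) : |hat B φ| ≤ B.card := by
  unfold hat
  calc _ ≤ ∑ v ∈ B, |sg (φ v)| := Finset.abs_sum_le_sum_abs _ _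
    _ = B.card := by simp [sg_abs]

lemma card_dual : Fintype.card (V →ₗ[ZMod 2] ZMod 2) = Fintype.card V := by
  have hfd : Module.Finite (ZMod 2) V := Module.Finite.of_finite
  rw [Module.card_eq_pow_finrank (K := ZMod 2) (V := V →ₗ[ZMod 2] ZMod 2),
    Module.card_eq_pow_finrank (K := ZMod 2) (V := V)]
  congr 1
  exact Subspace.dual_finrank_eq

lemma orth (z : V) : ∑ φ : V →ₗ[ZMod 2] ZMod 2, sg (φ z) = if z = 0 then (Fintype.card V : ℝ) else 0 := by
  by_cases hz : z = 0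
  · subst hz
    rw [if_pos rfl]
    simp [card_dual]
  · rw [if_neg hz]
    obtain ⟨φ₀, hφ₀⟩ : ∃ φ : V →ₗ[ZMod 2] ZMod 2, φ z ≠ 0 := by
      have hz' : z ∉ (⊥ : Submodule (ZMod 2) V) := by rwa [Submodule.mem_bot]
      obtain ⟨f, hf, -⟩ := Submodule.exists_le_ker_of_notMem hz'
      exact ⟨f, hf⟩
    have h1 : φ₀ z = 1 := (zmod2_cases _).resolve_left hφ₀
    have h2 : ∑ φ : V →ₗ[ZMod 2] ZMod 2, sg (φ z) = ∑ φ : V →ₗ[ZMod 2] ZMod 2, sg ((φ + φ₀) z) :=
      (Equiv.sum_comp (Equiv.addRight φ₀) (fun φ : V →ₗ[ZMod 2] ZMod 2 => sg (φ z))).symm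
    have h3 : ∑ φ : V →ₗ[ZMod 2] ZMod 2, sg ((φ + φ₀) z) = - ∑ φ : V →ₗ[ZMod 2] ZMod 2, sg (φ z) := by
      rw [← Finset.sum_neg_distrib]
      apply Finset.sum_congr rfl
      intro φ _
      rw [LinearMap.add_apply, sg_add, h1, sg_one]; ring
    linarith

lemma inversion (B : Finset V) (z : V) :
    (if z ∈ B then (1 : ℝ) else 0) * Fintype.card V =
      ∑ φ : V →ₗ[ZMod 2] ZMod 2, hat B φ * sg (φ z) := by
  have h1 : ∀ φ : V →ₗ[ZMod 2] ZMod 2, hat B φ * sg (φ z) = ∑ v ∈ B, sg (φ (v + z)) := by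
    intro φ
    unfold hat
    rw [Finset.sum_mul]
    apply Finset.sum_congr rfl
    intro v _
    rw [map_add, sg_add]
  simp_rw [h1]
  rw [Finset.sum_comm]
  simp_rw [orth]
  have h2 : ∀ v : V, v + z = 0 ↔ v = z := by
    intro v
    constructor
    · intro h
      have : v + z + z = z := by rw [h, zero_add]
      rwa [add_assoc, add_self', add_zero] at this
    · rintro rfl; exact add_self' v
  simp_rw [h2]
  rw [Finset.sum_ite_eq']
  split_ifs <;> simp

lemma parseval (B : Finset V) :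
    ∑ φ : V →ₗ[ZMod 2] ZMod 2, hat B φ ^ 2 = Fintype.card V * B.card := by
  have h1 : ∀ φ : V →ₗ[ZMod 2] ZMod 2, hat B φ ^ 2 = ∑ z ∈ B, hat B φ * sg (φ z) := by
    intro φ
    rw [← Finset.mul_sum, sq]; rfl
  simp_rw [h1]
  rw [Finset.sum_comm]
  simp_rw [← inversion]
  rw [← Finset.sum_mul, Finset.sum_congr rfl (g := fun _ => (1 : ℝ))]
  · simp [mul_comm]
  · intro z hz; rw [if_pos hz]

/-- Product sums. -/
lemma sum_pi_prod {ι : Type*} [Fintype ι] [DecidableEq ι] (g : ι → V → ℝ) :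
    ∑ y : ι → V, ∏ i, g i (y i) = ∏ i, ∑ v, g i v := by
  rw [Finset.prod_univ_sum]; simp

/-- Counting relations in a pseudorandom set. -/
lemma count_rel {ι : Type*} [Fintype ι] [DecidableEq ι] (B : Finset V) (N Φ : ℝ)
    (hN : (B.card : ℝ) ≤ N) (hΦ : ∀ φ : V →ₗ[ZMod 2] ZMod 2, φ ≠ 0 → |hat B φ| ≤ Φ) (hΦ0 : 0 ≤ Φ)
    (J : Finset ι) (hJ : 2 ≤ J.card) :
    ∑ y : ι → V, (∏ i, if y i ∈ B then (1 : ℝ) else 0) * (if ∑ i ∈ J, y i ∈ B then 1 else 0) ≤
      N ^ (Fintype.card ι + 1) / Fintype.card V + Φ * N ^ (Fintype.card ι - 1) := by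
  have hN0 : 0 ≤ N := le_trans (Nat.cast_nonneg _) hN
  have hV : (0 : ℝ) < Fintype.card V := by
    have : 0 < Fintype.card V := Fintype.card_pos_iff.2 ⟨0⟩
    exact_mod_cast this
  have hJs : J.card ≤ Fintype.card ι := Finset.card_le_univ J
  have e1 : (∑ y : ι → V, (∏ i, if y i ∈ B then (1 : ℝ) else 0) *
      (if ∑ i ∈ J, y i ∈ B then 1 else 0)) * Fintype.card V =
      ∑ φ : V →ₗ[ZMod 2] ZMod 2, hat B φ * ∏ i, (if i ∈ J then hat B φ else B.card) := by
    rw [Finset.sum_mul]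
    have h1 : ∀ y : ι → V, (∏ i, if y i ∈ B then (1 : ℝ) else 0) *
      (if ∑ i ∈ J, y i ∈ B then 1 else 0) * Fintype.card V =
        ∑ φ : V →ₗ[ZMod 2] ZMod 2, hat B φ *
          ∏ i, ((if y i ∈ B then (1 : ℝ) else 0) * (if i ∈ J then sg (φ (y i)) else 1)) := by
      intro y
      rw [mul_assoc, inversion, Finset.mul_sum]
      apply Finset.sum_congr rfl
      intro φ _
      rw [Finset.prod_mul_distrib, map_sum, sg_sum, Finset.prod_ite_mem, Finset.univ_inter]
      ring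
    simp_rw [h1]
    rw [Finset.sum_comm]
    apply Finset.sum_congr rfl
    intro φ _
    rw [← Finset.mul_sum]
    congr 1
    rw [sum_pi_prod (fun i v => (if v ∈ B then (1 : ℝ) else 0) * (if i ∈ J then sg (φ v) else 1))]
    apply Finset.prod_congr rfl
    intro i _
    by_cases hi : i ∈ J
    · simp only [if_pos hi]
      unfold hat
      simp [ite_mul]
    · simp only [if_neg hi]
      simp
  have e2 : ∀ φ : V →ₗ[ZMod 2] ZMod 2, hat B φ * ∏ i, (if i ∈ J then hat B φ else (B.card : ℝ)) ≤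
      (if φ = 0 then N ^ (Fintype.card ι + 1) else 0) +
        hat B φ ^ 2 * (Φ * N ^ (Fintype.card ι - 2)) := by
    intro φ
    rw [Finset.prod_ite, Finset.prod_const, Finset.prod_const]
    have hc : (univ.filter fun i => i ∈ J).card = J.card := by congr 1; ext; simp
    have hc2 : (univ.filter fun i => i ∉ J).card = Fintype.card ι - J.card := by
      have := Finset.card_filter_add_card_filter_not (s := (univ : Finset ι)) (fun i => i ∈ J)
      rw [Finset.card_univ, hc] at this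
      omega
    rw [hc, hc2]
    by_cases h0 : φ = 0
    · subst h0
      rw [if_pos rfl, hat_zero]
      have h3 : (B.card : ℝ) * ((B.card : ℝ) ^ J.card * (B.card : ℝ) ^ (Fintype.card ι - J.card)) =
          (B.card : ℝ) ^ (Fintype.card ι + 1) := by
        rw [← pow_add, ← pow_succ']
        congr 1; omega
      rw [h3]
      have h4 : (B.card : ℝ) ^ (Fintype.card ι + 1) ≤ N ^ (Fintype.card ι + 1) :=
        pow_le_pow_left₀ (Nat.cast_nonneg _) hN _
      have h5 : 0 ≤ (B.card : ℝ) ^ 2 * (Φ * N ^ (Fintype.card ι - 2)) := by positivity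
      linarith
    · rw [if_neg h0, zero_add]
      have h3 : hat B φ * (hat B φ ^ J.card * (B.card : ℝ) ^ (Fintype.card ι - J.card)) =
          hat B φ ^ 2 * (hat B φ * (hat B φ ^ (J.card - 2) * (B.card : ℝ) ^ (Fintype.card ι - J.card))) := by
        have : hat B φ ^ J.card = hat B φ ^ 2 * hat B φ ^ (J.card - 2) := by
          rw [← pow_add]; congr 1; omega
        rw [this]; ring
      rw [h3]
      apply mul_le_mul_of_nonneg_left _ (sq_nonneg _)
      have h6 : |hat B φ| ^ (J.card - 2) ≤ N ^ (J.card - 2) :=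
        pow_le_pow_left₀ (abs_nonneg _) ((hat_abs B φ).trans hN) _
      have h7 : (B.card : ℝ) ^ (Fintype.card ι - J.card) ≤ N ^ (Fintype.card ι - J.card) :=
        pow_le_pow_left₀ (Nat.cast_nonneg _) hN _
      calc hat B φ * (hat B φ ^ (J.card - 2) * (B.card : ℝ) ^ (Fintype.card ι - J.card))
          ≤ |hat B φ * (hat B φ ^ (J.card - 2) * (B.card : ℝ) ^ (Fintype.card ι - J.card))| :=
            le_abs_self _
        _ = |hat B φ| * (|hat B φ| ^ (J.card - 2) * (B.card : ℝ) ^ (Fintype.card ι - J.card)) := by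
            rw [abs_mul, abs_mul, abs_pow, abs_pow, Nat.abs_cast]
        _ ≤ Φ * (N ^ (J.card - 2) * N ^ (Fintype.card ι - J.card)) := by
            apply mul_le_mul (hΦ φ h0) _ (by positivity) hΦ0
            exact mul_le_mul h6 h7 (by positivity) (by positivity)
        _ = Φ * N ^ (Fintype.card ι - 2) := by
            rw [← pow_add]; congr 2; omega
  have e3 : (∑ y : ι → V, (∏ i, if y i ∈ B then (1 : ℝ) else 0) *
      (if ∑ i ∈ J, y i ∈ B then 1 else 0)) * Fintype.card V ≤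
      N ^ (Fintype.card ι + 1) + Fintype.card V * N * (Φ * N ^ (Fintype.card ι - 2)) := by
    rw [e1]
    calc _ ≤ ∑ φ : V →ₗ[ZMod 2] ZMod 2, ((if φ = 0 then N ^ (Fintype.card ι + 1) else 0) +
        hat B φ ^ 2 * (Φ * N ^ (Fintype.card ι - 2))) := Finset.sum_le_sum fun φ _ => e2 φ
      _ = N ^ (Fintype.card ι + 1) + Fintype.card V * B.card * (Φ * N ^ (Fintype.card ι - 2)) := by
        rw [Finset.sum_add_distrib, Finset.sum_ite_eq' univ (0 : V →ₗ[ZMod 2] ZMod 2),
          if_pos (Finset.mem_univ _), ← Finset.sum_mul, parseval]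
      _ ≤ _ := by gcongr
  have e4 : N ^ (Fintype.card ι + 1) + Fintype.card V * N * (Φ * N ^ (Fintype.card ι - 2)) =
      (N ^ (Fintype.card ι + 1) / Fintype.card V + Φ * N ^ (Fintype.card ι - 1)) * Fintype.card V := by
    have : N ^ (Fintype.card ι - 1) = N * N ^ (Fintype.card ι - 2) := by
      rw [← pow_succ']; congr 1; omega
    rw [this]
    field_simp
  rw [e4] at e3
  exact le_of_mul_le_mul_right e3 hV

/-- A product sum with nontrivial characters. -/
lemma prod_char {ι : Type*} [Fintype ι] [DecidableEq ι] (B : Finset V) (N Φ : ℝ)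
    (hN : (B.card : ℝ) ≤ N) (hΦ : ∀ φ : V →ₗ[ZMod 2] ZMod 2, φ ≠ 0 → |hat B φ| ≤ Φ) (hΦ0 : 0 ≤ Φ)
    (i₀ : ι) (φ : ι → V →ₗ[ZMod 2] ZMod 2) (hφ : φ i₀ ≠ 0) :
    |∑ y : ι → V, (∏ i, if y i ∈ B then (1 : ℝ) else 0) * sg (∑ i, φ i (y i))| ≤
      Φ * N ^ (Fintype.card ι - 1) := by
  have hN0 : 0 ≤ N := le_trans (Nat.cast_nonneg _) hN
  have e1 : ∑ y : ι → V, (∏ i, if y i ∈ B then (1 : ℝ) else 0) * sg (∑ i, φ i (y i)) =
      ∏ i, hat B (φ i) := by
    have h1 : ∀ y : ι → V, (∏ i, if y i ∈ B then (1 : ℝ) else 0) * sg (∑ i, φ i (y i)) =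
        ∏ i, ((if y i ∈ B then (1 : ℝ) else 0) * sg (φ i (y i))) := by
      intro y
      rw [sg_sum, ← Finset.prod_mul_distrib]
    simp_rw [h1]
    rw [sum_pi_prod (fun i v => (if v ∈ B then (1 : ℝ) else 0) * sg (φ i v))]
    apply Finset.prod_congr rfl
    intro i _
    unfold hat
    simp [ite_mul]
  rw [e1, Finset.abs_prod, ← Finset.mul_prod_erase univ _ (Finset.mem_univ i₀)]
  apply mul_le_mul (hΦ _ hφ) _ (by positivity) hΦ0
  calc ∏ i ∈ univ.erase i₀, |hat B (φ i)| ≤ ∏ i ∈ univ.erase i₀, N := by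
        apply Finset.prod_le_prod
        · intro i _; exact abs_nonneg _
        · intro i _; exact (hat_abs B _).trans hN
    _ = N ^ (Fintype.card ι - 1) := by
        rw [Finset.prod_const, Finset.card_erase_of_mem (Finset.mem_univ _), Finset.card_univ]

end Four

end Pool.Agent.Y646.Lh
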