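import Pool.Agent.Y646.Lh4

/-!
# Full characters of the avoiding homomorphisms
-/

namespace Pool.Agent.Y646.Lh

open Finset Module

section Five

variable {V : Type*} [AddCommGroup V] [Module (ZMod 2) V] [Fintype V] [DecidableEq V]
variable {U : Type*} [AddCommGroup U] [Module (ZMod 2) U] [Fintype U] [DecidableEq U]

/-- The bad vectors. -/
def Bad (B : Finset V) (X : U →ₗ[ZMod 2] V) : Finset U := univ.filter fun a => a ≠ 0 ∧ X a ∈ B

lemma mem_Bad (B : Finset V) (X : U →ₗ[ZMod 2] V) (a : U) : a ∈ Bad B X ↔ a ≠ 0 ∧ X a ∈ B := by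
  simp [Bad]

lemma zero_notMem_Bad (B : Finset V) (X : U →ₗ[ZMod 2] V) : (0 : U) ∉ Bad B X := by
  simp [mem_Bad]

/-- A character which is nontrivial in every direction. -/
def Full (ψ : (U →ₗ[ZMod 2] V) →ₗ[ZMod 2] ZMod 2) : Prop :=
  ∀ l : U →ₗ[ZMod 2] ZMod 2, l ≠ 0 → ∃ v : V, ψ (l.smulRight v) ≠ 0

/-- The basis given by a spanning finset of the right size. -/
noncomputable def bas (A : Finset U) (hs : Submodule.span (ZMod 2) (A : Set U) = ⊤)
    (hc : A.card = finrank (ZMod 2) U) : Basis A (ZMod 2) U :=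
  finsetBasisOfTopLeSpanOfCardEqFinrank hs.ge hc

lemma bas_apply (A : Finset U) (hs : Submodule.span (ZMod 2) (A : Set U) = ⊤)
    (hc : A.card = finrank (ZMod 2) U) (i : A) : bas A hs hc i = i := by
  unfold bas finsetBasisOfTopLeSpanOfCardEqFinrank
  rw [coe_basisOfTopLeSpanOfCardEqFinrank]

lemma psi_basis {ι : Type*} [Fintype ι] [DecidableEq ι] (β : Basis ι (ZMod 2) U)
    (ψ : (U →ₗ[ZMod 2] V) →ₗ[ZMod 2] ZMod 2) (X : U →ₗ[ZMod 2] V) :
    ψ X = ∑ i, ψ ((β.coord i).smulRight (X (β i))) := by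
  rw [← map_sum]
  congr 1
  apply β.ext
  intro j
  rw [LinearMap.sum_apply]
  rw [Finset.sum_eq_single j]
  · simp
  · intro i _ hij
    simp [Finsupp.single_apply, hij.symm]
  · simp

lemma zero_notMem_of_basis (A : Finset U) (hs : Submodule.span (ZMod 2) (A : Set U) = ⊤)
    (hc : A.card = finrank (ZMod 2) U) : (0 : U) ∉ A := by
  intro h
  have := (bas A hs hc).ne_zero ⟨0, h⟩
  rw [bas_apply] at this
  exact this rfl

/-- The contribution of a basis. -/
lemma basis_char (B : Finset V) (N Φ : ℝ)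
    (hN : (B.card : ℝ) ≤ N) (hΦ : ∀ φ : V →ₗ[ZMod 2] ZMod 2, φ ≠ 0 → |hat B φ| ≤ Φ) (hΦ0 : 0 ≤ Φ)
    (ψ : (U →ₗ[ZMod 2] V) →ₗ[ZMod 2] ZMod 2) (hψ : Full ψ) (h1 : 1 ≤ finrank (ZMod 2) U)
    (A : Finset U) (hs : Submodule.span (ZMod 2) (A : Set U) = ⊤) (hc : A.card = finrank (ZMod 2) U) :
    |∑ X : U →ₗ[ZMod 2] V, (if A ⊆ Bad B X then (1 : ℝ) else 0) * sg (ψ X)| ≤
      Φ * N ^ (finrank (ZMod 2) U - 1) := by
  classical
  set β := bas A hs hc with hβ
  have hcard : Fintype.card A = finrank (ZMod 2) U := by rw [Fintype.card_coe, hc]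
  have hne : 0 < A.card := by omega
  obtain ⟨a₀, ha₀⟩ := Finset.card_pos.1 hne
  have h0 := zero_notMem_of_basis A hs hc
  set φ : A → V →ₗ[ZMod 2] ZMod 2 := fun i => ψ ∘ₗ (LinearMap.smulRightₗ (β.coord i)) with hφ
  have hφ0 : φ ⟨a₀, ha₀⟩ ≠ 0 := by
    have hl : β.coord ⟨a₀, ha₀⟩ ≠ 0 := by
      intro h
      have := congrArg (fun l => l (β ⟨a₀, ha₀⟩)) h
      simp at this
    obtain ⟨v, hv⟩ := hψ _ hl
    intro h
    apply hv
    have := congrArg (fun l => l v) h
    simpa [hφ] using this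
  have e1 : ∑ X : U →ₗ[ZMod 2] V, (if A ⊆ Bad B X then (1 : ℝ) else 0) * sg (ψ X) =
      ∑ y : A → V, (∏ i, if y i ∈ B then (1 : ℝ) else 0) * sg (∑ i, φ i (y i)) := by
    rw [← Equiv.sum_comp (β.constr (ZMod 2)).toEquiv]
    apply Finset.sum_congr rfl
    intro y _
    have hX : ∀ i : A, (β.constr (ZMod 2) y) (i : U) = y i := by
      intro i
      have := β.constr_basis (ZMod 2) y i
      rwa [hβ, bas_apply] at this
    congr 1
    · have : A ⊆ Bad B ((β.constr (ZMod 2)).toEquiv y) ↔ ∀ i : A, y i ∈ B := by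
        constructor
        · intro h i
          have := (mem_Bad _ _ _).1 (h i.2)
          rw [← hX i]; exact this.2
        · intro h a ha
          rw [mem_Bad]
          refine ⟨fun h' => h0 (h' ▸ ha), ?_⟩
          have := hX ⟨a, ha⟩
          have h3 := h ⟨a, ha⟩
          rw [← this] at h3
          exact h3
      by_cases hall : ∀ i : A, y i ∈ B
      · rw [if_pos (this.2 hall), Finset.prod_congr rfl (g := fun _ => (1 : ℝ))]
        · simp
        · intro i _; rw [if_pos (hall i)]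
      · rw [if_neg (fun h => hall (this.1 h))]
        push Not at hall
        obtain ⟨i, hi⟩ := hall
        rw [Finset.prod_eq_zero (Finset.mem_univ i)]
        rw [if_neg hi]
    · congr 1
      rw [psi_basis β ψ]
      apply Finset.sum_congr rfl
      intro i _
      have h4 : ((β.constr (ZMod 2)).toEquiv y) (β i) = y i := β.constr_basis (ZMod 2) y i
      rw [h4]
      rfl
  rw [e1, ← hcard]
  exact prod_char B N Φ hN hΦ hΦ0 ⟨a₀, ha₀⟩ φ hφ0

/-- The number of homomorphisms with a dependent bad set. -/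
lemma basis_count (B : Finset V) (N Φ : ℝ)
    (hN : (B.card : ℝ) ≤ N) (hΦ : ∀ φ : V →ₗ[ZMod 2] ZMod 2, φ ≠ 0 → |hat B φ| ≤ Φ) (hΦ0 : 0 ≤ Φ)
    (A : Finset U) (hs : Submodule.span (ZMod 2) (A : Set U) = ⊤) (hc : A.card = finrank (ZMod 2) U)
    (a : U) (ha0 : a ≠ 0) (haA : a ∉ A) :
    ∑ X : U →ₗ[ZMod 2] V, (if A ⊆ Bad B X ∧ a ∈ Bad B X then (1 : ℝ) else 0) ≤
      N ^ (finrank (ZMod 2) U + 1) / Fintype.card V + Φ * N ^ (finrank (ZMod 2) U - 1) := by
  classical
  set β := bas A hs hc with hβ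
  have hcard : Fintype.card A = finrank (ZMod 2) U := by rw [Fintype.card_coe, hc]
  have h0 := zero_notMem_of_basis A hs hc
  set J : Finset A := univ.filter fun i => β.repr a i ≠ 0 with hJ
  have hrep : ∀ X : U →ₗ[ZMod 2] V, X a = ∑ i ∈ J, X (β i) := by
    intro X
    conv_lhs => rw [← β.sum_repr a]
    rw [map_sum, hJ, Finset.sum_filter]
    apply Finset.sum_congr rfl
    intro i _
    rw [map_smul]
    rcases zmod2_cases (β.repr a i) with h | h
    · simp [h]
    · simp [h]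
  have hrep0 : a = ∑ i ∈ J, β i := by
    have : (LinearMap.id : U →ₗ[ZMod 2] U) a = ∑ i ∈ J, (LinearMap.id : U →ₗ[ZMod 2] U) (β i) := by
      conv_lhs => rw [← β.sum_repr a]
      rw [map_sum, hJ, Finset.sum_filter]
      apply Finset.sum_congr rfl
      intro i _
      rw [map_smul]
      rcases zmod2_cases (β.repr a i) with h | h
      · simp [h]
      · simp [h]
    simpa using this
  have hJ2 : 2 ≤ J.card := by
    by_contra hlt
    have : J.card = 0 ∨ J.card = 1 := by omega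
    rcases this with h | h
    · rw [Finset.card_eq_zero] at h
      rw [h, Finset.sum_empty] at hrep0
      exact ha0 hrep0
    · obtain ⟨i, hi⟩ := Finset.card_eq_one.1 h
      rw [hi, Finset.sum_singleton, hβ, bas_apply] at hrep0
      exact haA (hrep0 ▸ i.2)
  have e1 : ∑ X : U →ₗ[ZMod 2] V, (if A ⊆ Bad B X ∧ a ∈ Bad B X then (1 : ℝ) else 0) =
      ∑ y : A → V, (∏ i, if y i ∈ B then (1 : ℝ) else 0) * (if ∑ i ∈ J, y i ∈ B then 1 else 0) := by
    rw [← Equiv.sum_comp (β.constr (ZMod 2)).toEquiv]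
    apply Finset.sum_congr rfl
    intro y _
    have hX : ∀ i : A, (β.constr (ZMod 2) y) (i : U) = y i := by
      intro i
      have := β.constr_basis (ZMod 2) y i
      rwa [hβ, bas_apply] at this
    have hXβ : ∀ i : A, (β.constr (ZMod 2) y) (β i) = y i := fun i => β.constr_basis (ZMod 2) y i
    have h5 : A ⊆ Bad B ((β.constr (ZMod 2)).toEquiv y) ↔ ∀ i : A, y i ∈ B := by
      constructor
      · intro h i
        have := (mem_Bad _ _ _).1 (h i.2)
        rw [← hX i]; exact this.2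
      · intro h a ha
        rw [mem_Bad]
        refine ⟨fun h' => h0 (h' ▸ ha), ?_⟩
        have := hX ⟨a, ha⟩
        have h3 := h ⟨a, ha⟩
        rw [← this] at h3
        exact h3
    have h6 : a ∈ Bad B ((β.constr (ZMod 2)).toEquiv y) ↔ ∑ i ∈ J, y i ∈ B := by
      rw [mem_Bad]
      have : ((β.constr (ZMod 2)).toEquiv y) a = ∑ i ∈ J, y i := by
        change (β.constr (ZMod 2) y) a = _
        rw [hrep, Finset.sum_congr rfl fun i _ => hXβ i]
      rw [this]
      exact ⟨fun h => h.2, fun h => ⟨ha0, h⟩⟩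
    simp only [h5, h6]
    by_cases hall : ∀ i : A, y i ∈ B
    · rw [Finset.prod_congr rfl (g := fun _ => (1 : ℝ)) (fun i _ => if_pos (hall i))]
      simp [hall]
    · rw [if_neg (fun h => hall h.1)]
      push Not at hall
      obtain ⟨i, hi⟩ := hall
      rw [Finset.prod_eq_zero (Finset.mem_univ i) (if_neg hi), zero_mul]
  rw [e1, ← hcard]
  exact count_rel B N Φ hN hΦ hΦ0 J hJ2

/-- Nonspanning sets do not contribute. -/
lemma nonspan (B : Finset V) (ψ : (U →ₗ[ZMod 2] V) →ₗ[ZMod 2] ZMod 2) (hψ : Full ψ)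
    (A : Finset U) (hs : Submodule.span (ZMod 2) (A : Set U) ≠ ⊤) :
    ∑ X : U →ₗ[ZMod 2] V, (if A ⊆ Bad B X then (1 : ℝ) else 0) * sg (ψ X) = 0 := by
  obtain ⟨l, hl0, hl⟩ := Submodule.exists_le_ker_of_lt_top _ (lt_top_iff_ne_top.2 hs)
  obtain ⟨v, hv⟩ := hψ l hl0
  have hv1 : ψ (l.smulRight v) = 1 := (zmod2_cases _).resolve_left hv
  have h1 : ∑ X : U →ₗ[ZMod 2] V, (if A ⊆ Bad B X then (1 : ℝ) else 0) * sg (ψ X) =
      ∑ X : U →ₗ[ZMod 2] V, (if A ⊆ Bad B (X + l.smulRight v) then (1 : ℝ) else 0) *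
        sg (ψ (X + l.smulRight v)) :=
    (Equiv.sum_comp (Equiv.addRight (l.smulRight v)) (fun X : U →ₗ[ZMod 2] V =>
      (if A ⊆ Bad B X then (1 : ℝ) else 0) * sg (ψ X))).symm
  have h2 : ∀ X : U →ₗ[ZMod 2] V, (if A ⊆ Bad B (X + l.smulRight v) then (1 : ℝ) else 0) *
        sg (ψ (X + l.smulRight v)) = - ((if A ⊆ Bad B X then (1 : ℝ) else 0) * sg (ψ X)) := by
    intro X
    have h3 : A ⊆ Bad B (X + l.smulRight v) ↔ A ⊆ Bad B X := by
      have h4 : ∀ a ∈ A, (X + l.smulRight v) a = X a := by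
        intro a ha
        have : l a = 0 := LinearMap.mem_ker.1 (hl (Submodule.subset_span ha))
        simp [this]
      constructor
      · intro h a ha
        have := h ha
        rw [mem_Bad] at this ⊢
        rwa [h4 a ha] at this
      · intro h a ha
        have := h ha
        rw [mem_Bad] at this ⊢
        rwa [h4 a ha]
    rw [map_add, sg_add, hv1, sg_one]
    simp only [h3]
    ring
  simp_rw [h2] at h1
  rw [Finset.sum_neg_distrib] at h1
  linarith

/-- The number of sets of size `s`. -/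
lemma card_bases : ((univ.filter fun A : Finset U => Submodule.span (ZMod 2) (A : Set U) = ⊤ ∧
    A.card = finrank (ZMod 2) U).card : ℝ) ≤
      ((2 : ℝ) ^ finrank (ZMod 2) U) ^ finrank (ZMod 2) U := by
  classical
  have hU : Fintype.card U = 2 ^ finrank (ZMod 2) U := by
    rw [Module.card_eq_pow_finrank (K := ZMod 2) (V := U), ZMod.card]
  have h1 : (univ.filter fun A : Finset U => Submodule.span (ZMod 2) (A : Set U) = ⊤ ∧
    A.card = finrank (ZMod 2) U) ⊆ (univ : Finset U).powersetCard (finrank (ZMod 2) U) := by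
    intro A hA
    rw [Finset.mem_powersetCard]
    exact ⟨Finset.subset_univ _, (Finset.mem_filter.1 hA).2.2⟩
  have h2 := (Finset.card_le_card h1)
  rw [Finset.card_powersetCard, Finset.card_univ, hU] at h2
  exact_mod_cast h2.trans (Nat.choose_le_pow _ _)

end Five

end Pool.Agent.Y646.Lh
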