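import Pool.Agent.Y646.Lh5

/-!
# The bound for full characters
-/

namespace Pool.Agent.Y646.Lh

open Finset Module

section Six

variable {V : Type*} [AddCommGroup V] [Module (ZMod 2) V] [Fintype V] [DecidableEq V]
variable {U : Type*} [AddCommGroup U] [Module (ZMod 2) U] [Fintype U] [DecidableEq U]

open Classical in
/-- The bases. -/
noncomputable def bases (U : Type*) [AddCommGroup U] [Module (ZMod 2) U] [Fintype U] :
    Finset (Finset U) :=
  univ.filter fun A : Finset U => Submodule.span (ZMod 2) (A : Set U) = ⊤ ∧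
    A.card = finrank (ZMod 2) U

lemma mem_bases (A : Finset U) : A ∈ bases U ↔ Submodule.span (ZMod 2) (A : Set U) = ⊤ ∧
    A.card = finrank (ZMod 2) U := by
  simp [bases]

lemma card_bases' : ((bases U).card : ℝ) ≤
      ((2 : ℝ) ^ finrank (ZMod 2) U) ^ finrank (ZMod 2) U := by
  classical
  have := card_bases (U := U)
  unfold bases
  convert this using 3

/-- The part of the alternating sum which does not come from bases. -/
noncomputable def rest (S : Finset U) : ℝ :=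
  alt S ⊤ - ∑ A ∈ bases U, (if A ⊆ S then (-1 : ℝ) ^ finrank (ZMod 2) U else 0)

open Classical in
lemma rest_eq (S : Finset U) :
    rest S = ∑ A ∈ S.powerset.filter (fun A : Finset U => Submodule.span (ZMod 2) (A : Set U) = ⊤ ∧
      A.card ≠ finrank (ZMod 2) U), (-1 : ℝ) ^ A.card := by
  unfold rest alt
  rw [← Finset.sum_filter_add_sum_filter_not (S.powerset.filter
    (fun A : Finset U => Submodule.span (ZMod 2) (A : Set U) = ⊤))
    (fun A => A.card = finrank (ZMod 2) U)]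
  have e1 : ∑ A ∈ (S.powerset.filter
    (fun A : Finset U => Submodule.span (ZMod 2) (A : Set U) = ⊤)).filter
    (fun A => A.card = finrank (ZMod 2) U), (-1 : ℝ) ^ A.card =
      ∑ A ∈ bases U, (if A ⊆ S then (-1 : ℝ) ^ finrank (ZMod 2) U else 0) := by
    rw [← Finset.sum_filter]
    apply Finset.sum_congr
    · ext A
      simp only [Finset.mem_filter, Finset.mem_powerset, mem_bases]
      tauto
    · intro A hA
      rw [Finset.mem_filter, mem_bases] at hA
      rw [hA.1.2]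
  rw [e1, Finset.filter_filter]
  ring

lemma rest_abs (S : Finset U) (h0 : (0 : U) ∉ S) :
    |rest S| ≤ 2 * ((2 : ℝ) ^ finrank (ZMod 2) U) ^ finrank (ZMod 2) U := by
  have h1 := alt_le S h0 ⊤
  rw [finrank_top] at h1
  have h2 : |∑ A ∈ bases U, (if A ⊆ S then (-1 : ℝ) ^ finrank (ZMod 2) U else 0)| ≤
      ((2 : ℝ) ^ finrank (ZMod 2) U) ^ finrank (ZMod 2) U := by
    calc _ ≤ ∑ A ∈ bases U, |if A ⊆ S then (-1 : ℝ) ^ finrank (ZMod 2) U else 0| :=
          Finset.abs_sum_le_sum_abs _ _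
      _ ≤ ∑ A ∈ bases U, (1 : ℝ) := by
          apply Finset.sum_le_sum
          intro A _
          split_ifs
          · rw [abs_pow, abs_neg, abs_one, one_pow]
          · simp
      _ = ((bases U).card : ℝ) := by simp
      _ ≤ _ := card_bases'
  unfold rest
  calc _ ≤ |alt S ⊤| + |∑ A ∈ bases U, (if A ⊆ S then (-1 : ℝ) ^ finrank (ZMod 2) U else 0)| :=
        abs_sub _ _
    _ ≤ _ := by linarith

lemma exists_basis_of_rest (S : Finset U) (h : rest S ≠ 0) :
    ∃ A ∈ bases U, A ⊆ S ∧ ∃ a ∈ S, a ∉ A := by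
  classical
  rw [rest_eq] at h
  obtain ⟨A', hA', -⟩ := Finset.exists_ne_zero_of_sum_ne_zero h
  rw [Finset.mem_filter, Finset.mem_powerset] at hA'
  obtain ⟨hA'S, hspan, hcard⟩ := hA'
  obtain ⟨b, hb, hb2, hb3⟩ := exists_linearIndependent (ZMod 2) (A' : Set U)
  have hbfin : b.Finite := Set.toFinite b
  set A := hbfin.toFinset with hA
  have hAb : (A : Set U) = b := hbfin.coe_toFinset
  have hAA' : A ⊆ A' := by
    intro x hx
    have : x ∈ b := by rwa [hA, Set.Finite.mem_toFinset] at hx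
    exact_mod_cast hb this
  have hsp : Submodule.span (ZMod 2) (A : Set U) = ⊤ := by rw [hAb, hb2, hspan]
  have hind : LinearIndepOn (ZMod 2) id (A : Set U) := by
    rw [hAb]; exact hb3
  have hc : A.card = finrank (ZMod 2) U := by
    have := finrank_span_finset_eq_card hind
    rw [hsp, finrank_top] at this
    exact this.symm
  refine ⟨A, (mem_bases A).2 ⟨hsp, hc⟩, hAA'.trans hA'S, ?_⟩
  have hne : A ≠ A' := by
    intro he; apply hcard; rw [← he, hc]
  obtain ⟨a, ha, haA⟩ := Finset.exists_of_ssubset (hAA'.ssubset_of_ne hne)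
  exact ⟨a, hA'S ha, haA⟩

lemma rest_le (S : Finset U) (h0 : (0 : U) ∉ S) :
    |rest S| ≤ 2 * ((2 : ℝ) ^ finrank (ZMod 2) U) ^ finrank (ZMod 2) U *
      ∑ A ∈ bases U, ∑ a ∈ univ.filter (fun a : U => a ≠ 0 ∧ a ∉ A),
        (if A ⊆ S ∧ a ∈ S then (1 : ℝ) else 0) := by
  classical
  have hnn : ∀ A ∈ bases U, 0 ≤ ∑ a ∈ univ.filter (fun a : U => a ≠ 0 ∧ a ∉ A),
        (if A ⊆ S ∧ a ∈ S then (1 : ℝ) else 0) := by
    intro A _
    apply Finset.sum_nonneg
    intro a _
    split_ifs <;> norm_num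
  by_cases h : rest S = 0
  · rw [h, abs_zero]
    apply mul_nonneg (by positivity)
    exact Finset.sum_nonneg hnn
  · obtain ⟨A, hA, hAS, a, haS, haA⟩ := exists_basis_of_rest S h
    have h1 : (1 : ℝ) ≤ ∑ A ∈ bases U, ∑ a ∈ univ.filter (fun a : U => a ≠ 0 ∧ a ∉ A),
        (if A ⊆ S ∧ a ∈ S then (1 : ℝ) else 0) := by
      calc (1 : ℝ) ≤ ∑ a ∈ univ.filter (fun a : U => a ≠ 0 ∧ a ∉ A),
            (if A ⊆ S ∧ a ∈ S then (1 : ℝ) else 0) := by
            have ha0 : a ≠ 0 := fun h => h0 (h ▸ haS)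
            have hmem : a ∈ univ.filter (fun a : U => a ≠ 0 ∧ a ∉ A) :=
              Finset.mem_filter.2 ⟨Finset.mem_univ _, ha0, haA⟩
            calc (1 : ℝ) = (if A ⊆ S ∧ a ∈ S then (1 : ℝ) else 0) := by rw [if_pos ⟨hAS, haS⟩]
              _ ≤ _ := Finset.single_le_sum (f := fun a => if A ⊆ S ∧ a ∈ S then (1 : ℝ) else 0)
                (fun a _ => by positivity) hmem
        _ ≤ _ := Finset.single_le_sum (f := fun A => ∑ a ∈ univ.filter (fun a : U => a ≠ 0 ∧ a ∉ A),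
            (if A ⊆ S ∧ a ∈ S then (1 : ℝ) else 0)) hnn hA
    have h2 := rest_abs S h0
    have h3 : 0 ≤ 2 * ((2 : ℝ) ^ finrank (ZMod 2) U) ^ finrank (ZMod 2) U := by positivity
    nlinarith

/-- **Full characters.** -/
lemma full_le (B : Finset V) (N Φ : ℝ)
    (hN : (B.card : ℝ) ≤ N) (hΦ : ∀ φ : V →ₗ[ZMod 2] ZMod 2, φ ≠ 0 → |hat B φ| ≤ Φ) (hΦ0 : 0 ≤ Φ)
    (ψ : (U →ₗ[ZMod 2] V) →ₗ[ZMod 2] ZMod 2) (hψ : Full ψ) (h1 : 1 ≤ finrank (ZMod 2) U) :
    |∑ X : U →ₗ[ZMod 2] V, (if Bad B X = ∅ then (1 : ℝ) else 0) * sg (ψ X)| ≤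
      3 * ((2 : ℝ) ^ finrank (ZMod 2) U) ^ (2 * finrank (ZMod 2) U + 1) *
      (N ^ (finrank (ZMod 2) U + 1) / Fintype.card V + Φ * N ^ (finrank (ZMod 2) U - 1)) := by
  classical
  have hN0 : 0 ≤ N := le_trans (Nat.cast_nonneg _) hN
  set s := finrank (ZMod 2) U with hs
  set Q := N ^ (s + 1) / Fintype.card V + Φ * N ^ (s - 1) with hQ
  have hQ0 : 0 ≤ Q := by positivity
  have hΦQ : Φ * N ^ (s - 1) ≤ Q := by
    rw [hQ]
    have : 0 ≤ N ^ (s + 1) / Fintype.card V := by positivity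
    linarith
  set K : ℝ := (2 : ℝ) ^ s with hK
  have hK1 : 1 ≤ K := one_le_pow₀ (by norm_num)
  have hU : (Fintype.card U : ℝ) = K := by
    rw [Module.card_eq_pow_finrank (K := ZMod 2) (V := U), ZMod.card]
    push_cast
    rfl
  -- expansion of the indicator
  have ex : ∀ X : U →ₗ[ZMod 2] V, (if Bad B X = ∅ then (1 : ℝ) else 0) =
      (∑ A ∈ bases U, (if A ⊆ Bad B X then (-1 : ℝ) ^ s else 0)) + rest (Bad B X) +
      ∑ A ∈ univ.filter (fun A : Finset U => Submodule.span (ZMod 2) (A : Set U) ≠ ⊤),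
        (-1 : ℝ) ^ A.card * (if A ⊆ Bad B X then 1 else 0) := by
    intro X
    have a1 : (if Bad B X = ∅ then (1 : ℝ) else 0) = ∑ A ∈ (Bad B X).powerset, (-1 : ℝ) ^ A.card := by
      have := Finset.sum_powerset_neg_one_pow_card (x := Bad B X)
      have h2 : ((∑ A ∈ (Bad B X).powerset, (-1 : ℤ) ^ A.card : ℤ) : ℝ) =
          ((if Bad B X = ∅ then 1 else 0 : ℤ) : ℝ) := by rw [this]
      push_cast at h2
      rw [h2]
    have a2 : ∑ A ∈ (Bad B X).powerset, (-1 : ℝ) ^ A.card = alt (Bad B X) ⊤ +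
        ∑ A ∈ univ.filter (fun A : Finset U => Submodule.span (ZMod 2) (A : Set U) ≠ ⊤),
        (-1 : ℝ) ^ A.card * (if A ⊆ Bad B X then 1 else 0) := by
      rw [← Finset.sum_filter_add_sum_filter_not (Bad B X).powerset
        (fun A : Finset U => Submodule.span (ZMod 2) (A : Set U) = ⊤)]
      congr 1
      simp_rw [mul_ite, mul_one, mul_zero]
      rw [← Finset.sum_filter]
      apply Finset.sum_congr _ (fun _ _ => rfl)
      ext A
      simp only [Finset.mem_filter, Finset.mem_powerset, Finset.mem_univ, true_and]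
      tauto
    rw [a1, a2]
    unfold rest
    ring
  have e1 : ∑ X : U →ₗ[ZMod 2] V, (if Bad B X = ∅ then (1 : ℝ) else 0) * sg (ψ X) =
      ∑ A ∈ bases U, (-1 : ℝ) ^ s * ∑ X : U →ₗ[ZMod 2] V, (if A ⊆ Bad B X then (1 : ℝ) else 0) *
        sg (ψ X) + ∑ X : U →ₗ[ZMod 2] V, rest (Bad B X) * sg (ψ X) +
      ∑ A ∈ univ.filter (fun A : Finset U => Submodule.span (ZMod 2) (A : Set U) ≠ ⊤),
        (-1 : ℝ) ^ A.card * ∑ X : U →ₗ[ZMod 2] V, (if A ⊆ Bad B X then (1 : ℝ) else 0) *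
        sg (ψ X) := by
    simp_rw [ex, add_mul, Finset.sum_add_distrib, Finset.mul_sum, Finset.sum_mul]
    congr 1
    · congr 1
      rw [Finset.sum_comm]
      apply Finset.sum_congr rfl
      intro A _
      apply Finset.sum_congr rfl
      intro X _
      split_ifs <;> ring
    · rw [Finset.sum_comm]
      apply Finset.sum_congr rfl
      intro A _
      apply Finset.sum_congr rfl
      intro X _
      ring
  have e2 : ∑ A ∈ univ.filter (fun A : Finset U => Submodule.span (ZMod 2) (A : Set U) ≠ ⊤),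
        (-1 : ℝ) ^ A.card * ∑ X : U →ₗ[ZMod 2] V, (if A ⊆ Bad B X then (1 : ℝ) else 0) *
        sg (ψ X) = 0 := by
    apply Finset.sum_eq_zero
    intro A hA
    rw [nonspan B ψ hψ A (Finset.mem_filter.1 hA).2, mul_zero]
  have e3 : |∑ A ∈ bases U, (-1 : ℝ) ^ s * ∑ X : U →ₗ[ZMod 2] V,
      (if A ⊆ Bad B X then (1 : ℝ) else 0) * sg (ψ X)| ≤ K ^ s * Q := by
    calc _ ≤ ∑ A ∈ bases U, |(-1 : ℝ) ^ s * ∑ X : U →ₗ[ZMod 2] V,
        (if A ⊆ Bad B X then (1 : ℝ) else 0) * sg (ψ X)| := Finset.abs_sum_le_sum_abs _ _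
      _ ≤ ∑ A ∈ bases U, Q := by
        apply Finset.sum_le_sum
        intro A hA
        rw [mem_bases] at hA
        rw [abs_mul, abs_pow, abs_neg, abs_one, one_pow, one_mul]
        exact (basis_char B N Φ hN hΦ hΦ0 ψ hψ h1 A hA.1 hA.2).trans hΦQ
      _ = (bases U).card * Q := by rw [Finset.sum_const, nsmul_eq_mul]
      _ ≤ K ^ s * Q := mul_le_mul_of_nonneg_right card_bases' hQ0
  have e4 : |∑ X : U →ₗ[ZMod 2] V, rest (Bad B X) * sg (ψ X)| ≤ 2 * K ^ s * (K ^ s * (K * Q)) := by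
    calc _ ≤ ∑ X : U →ₗ[ZMod 2] V, |rest (Bad B X) * sg (ψ X)| := Finset.abs_sum_le_sum_abs _ _
      _ ≤ ∑ X : U →ₗ[ZMod 2] V, 2 * K ^ s *
          ∑ A ∈ bases U, ∑ a ∈ univ.filter (fun a : U => a ≠ 0 ∧ a ∉ A),
          (if A ⊆ Bad B X ∧ a ∈ Bad B X then (1 : ℝ) else 0) := by
        apply Finset.sum_le_sum
        intro X _
        rw [abs_mul, sg_abs, mul_one]
        exact rest_le _ (zero_notMem_Bad B X)
      _ = 2 * K ^ s * ∑ A ∈ bases U, ∑ a ∈ univ.filter (fun a : U => a ≠ 0 ∧ a ∉ A),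
          ∑ X : U →ₗ[ZMod 2] V, (if A ⊆ Bad B X ∧ a ∈ Bad B X then (1 : ℝ) else 0) := by
        rw [← Finset.mul_sum]
        congr 1
        rw [Finset.sum_comm]
        apply Finset.sum_congr rfl
        intro A _
        rw [Finset.sum_comm]
      _ ≤ 2 * K ^ s * ∑ A ∈ bases U, (K * Q) := by
        apply mul_le_mul_of_nonneg_left _ (by positivity)
        apply Finset.sum_le_sum
        intro A hA
        rw [mem_bases] at hA
        calc _ ≤ ∑ a ∈ univ.filter (fun a : U => a ≠ 0 ∧ a ∉ A), Q := by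
              apply Finset.sum_le_sum
              intro a ha
              have ha' := (Finset.mem_filter.1 ha).2
              exact basis_count B N Φ hN hΦ hΦ0 A hA.1 hA.2 a ha'.1 ha'.2
          _ = (univ.filter (fun a : U => a ≠ 0 ∧ a ∉ A)).card * Q := by
              rw [Finset.sum_const, nsmul_eq_mul]
          _ ≤ K * Q := by
              apply mul_le_mul_of_nonneg_right _ hQ0
              rw [← hU]
              exact_mod_cast Finset.card_le_univ _
      _ = 2 * K ^ s * ((bases U).card * (K * Q)) := by rw [Finset.sum_const, nsmul_eq_mul]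
      _ ≤ _ := by
        apply mul_le_mul_of_nonneg_left _ (by positivity)
        exact mul_le_mul_of_nonneg_right card_bases' (by positivity)
  rw [e1, e2, add_zero]
  calc _ ≤ |∑ A ∈ bases U, (-1 : ℝ) ^ s * ∑ X : U →ₗ[ZMod 2] V,
      (if A ⊆ Bad B X then (1 : ℝ) else 0) * sg (ψ X)| +
      |∑ X : U →ₗ[ZMod 2] V, rest (Bad B X) * sg (ψ X)| := abs_add_le _ _
    _ ≤ K ^ s * Q + 2 * K ^ s * (K ^ s * (K * Q)) := add_le_add e3 e4
    _ ≤ 3 * K ^ (2 * s + 1) * Q := by
      have h5 : K ^ (2 * s + 1) = K ^ s * (K ^ s * K) := by ring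
      have h6 : K ^ s ≤ K ^ (2 * s + 1) := pow_le_pow_right₀ hK1 (by omega)
      have h7 : 2 * K ^ s * (K ^ s * (K * Q)) = 2 * K ^ (2 * s + 1) * Q := by rw [h5]; ring
      rw [h7]
      nlinarith [mul_le_mul_of_nonneg_right h6 hQ0]

end Six

end Pool.Agent.Y646.Lh
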