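import Pool.Agent.Y646.Lh6

/-!
# Positivity
-/

namespace Pool.Agent.Y646.Lh

open Finset Module

section Seven

variable {V : Type*} [AddCommGroup V] [Module (ZMod 2) V] [Fintype V] [DecidableEq V]

/-- No nonzero low word. -/
def Good (low : Finset V) (D : Submodule (ZMod 2) V) : Prop := ∀ x ∈ D, x ∈ low → x = 0

open Classical in
/-- The words congruent to a low word. -/
noncomputable def bd (low : Finset V) (D : Submodule (ZMod 2) V) : Finset V :=
  univ.filter fun x => ∃ c ∈ D, x + c ∈ low

lemma mem_bd (low : Finset V) (D : Submodule (ZMod 2) V) (x : V) :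
    x ∈ bd low D ↔ ∃ c ∈ D, x + c ∈ low := by
  simp [bd]

lemma bd_add (low : Finset V) (D : Submodule (ZMod 2) V) (x c : V) (hc : c ∈ D) :
    c + x ∈ bd low D ↔ x ∈ bd low D := by
  rw [mem_bd, mem_bd]
  constructor
  · rintro ⟨c', hc', h⟩
    exact ⟨c + c', D.add_mem hc hc', by rwa [show x + (c + c') = c + x + c' by abel]⟩
  · rintro ⟨c', hc', h⟩
    refine ⟨c + c', D.add_mem hc hc', ?_⟩
    rw [show c + x + (c + c') = (c + c) + (x + c') by abel, add_self', zero_add]
    exact h

lemma mem_bd_of_mem (low : Finset V) (h0 : (0 : V) ∈ low) (D : Submodule (ZMod 2) V) (x : V)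
    (hx : x ∈ D) : x ∈ bd low D := by
  rw [mem_bd]
  exact ⟨x, hx, by rwa [add_self']⟩

lemma Good.mono {low : Finset V} {D D' : Submodule (ZMod 2) V} (h : D ≤ D') (hg : Good low D') :
    Good low D := fun x hx hl => hg x (h hx) hl

variable {E : Type*} [AddCommGroup E] [Module (ZMod 2) E] [Finite E]

/-- Goodness of the extension. -/
lemma good_iff (low : Finset V) (h0 : (0 : V) ∈ low) (D : Submodule (ZMod 2) V) (hD : Good low D)
    (X : E →ₗ[ZMod 2] V) :
    Good low (D ⊔ LinearMap.range X) ↔ ∀ a, X a ∉ D → X a ∉ bd low D := by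
  constructor
  · intro h a ha hb
    rw [mem_bd] at hb
    obtain ⟨c, hc, hl⟩ := hb
    have h1 : X a + c ∈ D ⊔ LinearMap.range X :=
      add_mem ((le_sup_right : LinearMap.range X ≤ _) ⟨a, rfl⟩) ((le_sup_left : D ≤ _) hc)
    have h2 := h _ h1 hl
    apply ha
    have : X a = c := by
      have := congrArg (· + c) h2
      simpa [add_assoc, add_self'] using this
    rw [this]; exact hc
  · intro h x hx hl
    rw [Submodule.mem_sup] at hx
    obtain ⟨c, hc, y, ⟨a, rfl⟩, rfl⟩ := hx
    by_cases ha : X a ∈ D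
    · exact hD _ (D.add_mem hc ha) hl
    · exfalso
      apply h a ha
      rw [mem_bd]
      exact ⟨c, hc, by rwa [add_comm]⟩

/-- The rank formula. -/
lemma rank_formula (D : Submodule (ZMod 2) V) (X : E →ₗ[ZMod 2] V) :
    finrank (ZMod 2) ↥(D ⊔ LinearMap.range X) + finrank (ZMod 2) ↥(D.comap X) =
      finrank (ZMod 2) D + finrank (ZMod 2) E := by
  have hV : Module.Finite (ZMod 2) V := Module.Finite.of_finite
  have hE : Module.Finite (ZMod 2) E := Module.Finite.of_finite
  set F : (D × E) →ₗ[ZMod 2] V := LinearMap.coprod D.subtype X with hF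
  have h1 := LinearMap.finrank_range_add_finrank_ker F
  have h2 : LinearMap.range F = D ⊔ LinearMap.range X := by
    rw [hF, LinearMap.range_coprod, Submodule.range_subtype]
  have h3 : finrank (ZMod 2) (LinearMap.ker F) = finrank (ZMod 2) ↥(D.comap X) := by
    apply LinearEquiv.finrank_eq
    refine LinearEquiv.ofBijective
      (LinearMap.codRestrict (D.comap X) ((LinearMap.snd (ZMod 2) D E) ∘ₗ (LinearMap.ker F).subtype) ?_) ⟨?_, ?_⟩
    · rintro ⟨⟨c, a⟩, hca⟩
      rw [LinearMap.mem_ker, hF, LinearMap.coprod_apply] at hca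
      rw [Submodule.mem_comap]
      have h4 : X a = (c : V) := by
        have := congrArg (fun t => (c : V) + t) hca
        simp only [Submodule.subtype_apply, ← add_assoc, add_self', zero_add, add_zero] at this
        exact this
      change X a ∈ D
      rw [h4]; exact c.2
    · rintro ⟨⟨c, a⟩, hca⟩ ⟨⟨c', a'⟩, hca'⟩ h
      have ha : a = a' := congrArg Subtype.val h
      subst ha
      rw [LinearMap.mem_ker, hF, LinearMap.coprod_apply] at hca hca'
      have hc : c = c' := by
        apply Subtype.ext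
        have := hca.trans hca'.symm
        simpa using this
      subst hc; rfl
    · rintro ⟨a, ha⟩
      rw [Submodule.mem_comap] at ha
      refine ⟨⟨(⟨X a, ha⟩, a), ?_⟩, rfl⟩
      rw [LinearMap.mem_ker, hF, LinearMap.coprod_apply]
      exact add_self' _
  rw [h2, h3] at h1
  rw [h1, Module.finrank_prod]

open Classical in
/-- The number of homomorphisms into a submodule. -/
lemma card_hom_into (D : Submodule (ZMod 2) V) :
    (((univ : Finset (E →ₗ[ZMod 2] V)).filter fun X => ∀ a, X a ∈ D).card : ℝ) =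
      (Nat.card D : ℝ) ^ finrank (ZMod 2) E := by
  have hV : Module.Finite (ZMod 2) V := Module.Finite.of_finite
  have hE : Module.Finite (ZMod 2) E := Module.Finite.of_finite
  have h1 : ((univ : Finset (E →ₗ[ZMod 2] V)).filter fun X => ∀ a, X a ∈ D).card =
      Fintype.card (E →ₗ[ZMod 2] D) := by
    rw [← Finset.card_univ]
    refine Finset.card_bij' (fun X hX => LinearMap.codRestrict D X (Finset.mem_filter.1 hX).2)
      (fun Y _ => D.subtype ∘ₗ Y) ?_ ?_ ?_ ?_
    · intro X hX; exact Finset.mem_univ _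
    · intro Y _
      rw [Finset.mem_filter]
      exact ⟨Finset.mem_univ _, fun a => (Y a).2⟩
    · intro X hX; ext a; rfl
    · intro Y _; ext a; rfl
  rw [h1, Module.card_eq_pow_finrank (K := ZMod 2) (V := E →ₗ[ZMod 2] D), ZMod.card,
    Module.finrank_linearMap, Nat.card_eq_fintype_card, Module.card_eq_pow_finrank (K := ZMod 2) (V := D),
    ZMod.card]
  push_cast
  rw [← pow_mul, mul_comm]

/-- The pseudo-distribution. -/
noncomputable def ff (low : Finset V) (D : Submodule (ZMod 2) V) (γ : ℕ → ℝ)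
    (X : E →ₗ[ZMod 2] V) : ℝ :=
  open Classical in
  if Good low (D ⊔ LinearMap.range X) then
    γ (finrank (ZMod 2) ↥(D ⊔ LinearMap.range X) - finrank (ZMod 2) D) else 0

/-- The number of subspaces. -/
lemma card_sub [Fintype (Submodule (ZMod 2) E)] :
    (Fintype.card (Submodule (ZMod 2) E) : ℝ) ≤
      ((2 : ℝ) ^ finrank (ZMod 2) E) ^ finrank (ZMod 2) E := by
  classical
  have hE : Module.Finite (ZMod 2) E := Module.Finite.of_finite
  have h1 : Fintype.card (Submodule (ZMod 2) E) ≤ Fintype.card (E →ₗ[ZMod 2] E) := by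
    apply Fintype.card_le_of_surjective (fun g : E →ₗ[ZMod 2] E => LinearMap.ker g)
    intro R
    obtain ⟨R', hR'⟩ := Submodule.exists_isCompl R
    refine ⟨R'.subtype ∘ₗ R'.projectionOnto R hR'.symm, ?_⟩
    change LinearMap.ker (R'.subtype ∘ₗ R'.projectionOnto R hR'.symm) = R
    rw [LinearMap.ker_comp, Submodule.ker_subtype, Submodule.comap_bot, Submodule.ker_projectionOnto]
  have h2 : Fintype.card (E →ₗ[ZMod 2] E) = (2 ^ finrank (ZMod 2) E) ^ finrank (ZMod 2) E := by
    rw [Module.card_eq_pow_finrank (K := ZMod 2) (V := E →ₗ[ZMod 2] E), ZMod.card,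
      Module.finrank_linearMap, pow_mul]
  rw [h2] at h1
  exact_mod_cast h1

end Seven

end Pool.Agent.Y646.Lh
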