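import Pool.Agent.Y646.Lh7

/-!
# Positivity for full characters
-/

namespace Pool.Agent.Y646.Lh

open Finset Module

section Eight

variable {V : Type*} [AddCommGroup V] [Module (ZMod 2) V] [Fintype V] [DecidableEq V]
variable {E : Type*} [AddCommGroup E] [Module (ZMod 2) E] [Finite E]

/-- Pseudorandomness of the bad set of `D`. -/
def Reg (low : Finset V) (N τ : ℝ) (D : Submodule (ZMod 2) V) : Prop :=
  ((bd low D).card : ℝ) ≤ Nat.card D * N ∧
  (∀ φ : V →ₗ[ZMod 2] ZMod 2, φ ≠ 0 → |hat (bd low D) φ| ≤ Nat.card D * N * τ) ∧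
  Nat.card D * N ≤ τ * Fintype.card V

open Classical in
/-- The homomorphisms with a given relation space. -/
lemma inner_le (low : Finset V) (h0 : (0 : V) ∈ low) (N τ : ℝ) (hN : 0 < N) (hτ : 0 ≤ τ)
    (D : Submodule (ZMod 2) V) (hD : Good low D) (hR : Reg low N τ D) (γ : ℕ → ℝ) (hγ : ∀ c, 0 ≤ γ c)
    (ψ : (E →ₗ[ZMod 2] V) →ₗ[ZMod 2] ZMod 2) (hψ : Full ψ)
    (hψD : ∀ X : E →ₗ[ZMod 2] V, (∀ a, X a ∈ D) → ψ X = 0)
    (R : Submodule (ZMod 2) E) (hRt : R ≠ ⊤) (θ : ℝ)
    (hγθ : ∀ c, 1 ≤ c → γ c * N ^ c ≤ θ * γ 0) :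
    |∑ X ∈ (univ : Finset (E →ₗ[ZMod 2] V)).filter (fun X => D.comap X = R), ff low D γ X * sg (ψ X)| ≤
      6 * ((2 : ℝ) ^ finrank (ZMod 2) E) ^ (2 * finrank (ZMod 2) E + 1) * τ * θ *
        ((Nat.card D : ℝ) ^ finrank (ZMod 2) E * γ 0) := by
  have hV : Module.Finite (ZMod 2) V := Module.Finite.of_finite
  have hE : Module.Finite (ZMod 2) E := Module.Finite.of_finite
  obtain ⟨R', hc⟩ := Submodule.exists_isCompl R
  have hfR : Fintype R' := Fintype.ofFinite _
  have hVp : (0 : ℝ) < Fintype.card V := by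
    have : 0 < Fintype.card V := Fintype.card_pos_iff.2 ⟨0⟩
    exact_mod_cast this
  have hDp : (0 : ℝ) < Nat.card D := by
    have : 0 < Nat.card D := Nat.card_pos
    exact_mod_cast this
  set s := finrank (ZMod 2) E with hs
  set c := finrank (ZMod 2) R' with hcdef
  set r := finrank (ZMod 2) R with hrdef
  have hrc : r + c = s := Submodule.finrank_add_eq_of_isCompl hc
  have hc1 : 1 ≤ c := by
    by_contra h
    have h2 : c = 0 := by omega
    rw [hcdef, Submodule.finrank_eq_zero] at h2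
    subst h2
    exact hRt (hc.sup_eq_top ▸ (sup_bot_eq R).symm)
  set e := LinearMap.ofIsComplProdEquiv (R₁ := ZMod 2) (F := V) hc with he
  have he1 : ∀ (X1 : R →ₗ[ZMod 2] V) (X2 : R' →ₗ[ZMod 2] V) (a : R), e (X1, X2) (a : E) = X1 a :=
    fun X1 X2 a => LinearMap.ofIsCompl_apply_left hc a
  have he2 : ∀ (X1 : R →ₗ[ZMod 2] V) (X2 : R' →ₗ[ZMod 2] V) (a : R'), e (X1, X2) (a : E) = X2 a :=
    fun X1 X2 a => LinearMap.ofIsCompl_apply_right hc a
  -- the restricted character
  set ψ' : (R' →ₗ[ZMod 2] V) →ₗ[ZMod 2] ZMod 2 :=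
    ψ ∘ₗ e.toLinearMap ∘ₗ LinearMap.inr (ZMod 2) (R →ₗ[ZMod 2] V) (R' →ₗ[ZMod 2] V) with hψ'
  have hψ'a : ∀ X2, ψ' X2 = ψ (e (0, X2)) := fun X2 => rfl
  have hfull : Full ψ' := by
    intro l hl
    set l' : E →ₗ[ZMod 2] ZMod 2 := LinearMap.ofIsCompl hc 0 l with hl'
    have hl'0 : l' ≠ 0 := by
      intro h
      apply hl
      ext a
      have := congrArg (fun g => g (a : E)) h
      simpa [hl'] using this
    obtain ⟨v, hv⟩ := hψ l' hl'0
    refine ⟨v, ?_⟩
    rw [hψ'a]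
    convert hv using 2
    change LinearMap.ofIsCompl hc 0 (l.smulRight v) = _
    apply LinearMap.ofIsCompl_eq
    · intro u; simp [hl']
    · intro u; simp [hl']
  -- the condition
  have hcond : ∀ (X1 : R →ₗ[ZMod 2] V) (X2 : R' →ₗ[ZMod 2] V),
      (D.comap (e (X1, X2)) = R ∧ Good low (D ⊔ LinearMap.range (e (X1, X2)))) ↔
        ((∀ a, X1 a ∈ D) ∧ Bad (bd low D) X2 = ∅) := by
    intro X1 X2
    rw [good_iff low h0 D hD]
    constructor
    · rintro ⟨h1, h2⟩
      refine ⟨fun a => ?_, ?_⟩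
      · have : (a : E) ∈ D.comap (e (X1, X2)) := by rw [h1]; exact a.2
        rw [Submodule.mem_comap, he1] at this
        exact this
      · apply Finset.eq_empty_of_forall_notMem
        intro a ha
        rw [mem_Bad] at ha
        have h3 : (a : E) ∉ R := by
          intro h4
          apply ha.1
          have := (Submodule.disjoint_def.1 hc.disjoint) (a : E) h4 a.2
          exact Subtype.ext this
        have h5 : e (X1, X2) (a : E) ∉ D := by
          intro h6
          apply h3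
          rw [← h1]; exact h6
        have := h2 (a : E) h5
        rw [he2] at this
        exact this ha.2
    · rintro ⟨h1, h2⟩
      have h3 : ∀ a : E, a ∉ R → e (X1, X2) a ∉ bd low D := by
        intro a ha
        have hmem : a ∈ R ⊔ R' := by rw [hc.sup_eq_top]; trivial
        rw [Submodule.mem_sup] at hmem
        obtain ⟨a1, ha1, a2, ha2, rfl⟩ := hmem
        rw [map_add]
        have e5 : e (X1, X2) a1 = X1 ⟨a1, ha1⟩ := he1 X1 X2 ⟨a1, ha1⟩
        have e6 : e (X1, X2) a2 = X2 ⟨a2, ha2⟩ := he2 X1 X2 ⟨a2, ha2⟩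
        rw [e5, e6, bd_add _ _ _ _ (h1 _)]
        intro h4
        have h5 : (⟨a2, ha2⟩ : R') ∈ Bad (bd low D) X2 := by
          rw [mem_Bad]
          refine ⟨?_, h4⟩
          intro h6
          have h7 : a2 = 0 := congrArg Subtype.val h6
          rw [h7, add_zero] at ha
          exact ha ha1
        rw [h2] at h5
        exact absurd h5 (Finset.notMem_empty _)
      refine ⟨?_, ?_⟩
      · ext a
        rw [Submodule.mem_comap]
        constructor
        · intro h4
          by_contra h5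
          exact h3 a h5 (mem_bd_of_mem low h0 D _ h4)
        · intro h4
          have e5 : e (X1, X2) a = X1 ⟨a, h4⟩ := he1 X1 X2 ⟨a, h4⟩
          rw [e5]; exact h1 _
      · intro a ha
        apply h3
        intro h4
        apply ha
        have e5 : e (X1, X2) a = X1 ⟨a, h4⟩ := he1 X1 X2 ⟨a, h4⟩
        rw [e5]; exact h1 _
  have hsum : ∑ X ∈ (univ : Finset (E →ₗ[ZMod 2] V)).filter (fun X => D.comap X = R),
      ff low D γ X * sg (ψ X) =
      γ c * (Nat.card D : ℝ) ^ r *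
        ∑ X2 : R' →ₗ[ZMod 2] V, (if Bad (bd low D) X2 = ∅ then (1 : ℝ) else 0) * sg (ψ' X2) := by
    obtain ⟨T0, hT0⟩ : ∃ T0 : ℝ, T0 = ∑ X2 : R' →ₗ[ZMod 2] V,
      (if Bad (bd low D) X2 = ∅ then (1 : ℝ) else 0) * sg (ψ' X2) := ⟨_, rfl⟩
    rw [← hT0, Finset.sum_filter, ← Equiv.sum_comp e.toEquiv, Fintype.sum_prod_type]
    rw [← card_hom_into (E := R) D, Finset.card_filter]
    push_cast
    rw [Finset.mul_sum, Finset.sum_mul]
    apply Finset.sum_congr rfl
    intro X1 _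
    rw [hT0, Finset.mul_sum]
    apply Finset.sum_congr rfl
    intro X2 _
    change (if D.comap (e (X1, X2)) = R then ff low D γ (e (X1, X2)) * sg (ψ (e (X1, X2))) else 0) = _
    have hc' := hcond X1 X2
    by_cases hA : (∀ a, X1 a ∈ D) ∧ Bad (bd low D) X2 = ∅
    · have hB := hc'.2 hA
      rw [if_pos hB.1, if_pos hA.2, if_pos hA.1]
      unfold ff
      rw [if_pos hB.2]
      have hrank := rank_formula D (e (X1, X2))
      rw [hB.1] at hrank
      have h5 : finrank (ZMod 2) ↥(D ⊔ LinearMap.range (e (X1, X2))) - finrank (ZMod 2) D = c := by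
        omega
      rw [h5]
      have h6 : ψ (e (X1, X2)) = ψ' X2 := by
        have : e (X1, X2) = e (X1, 0) + e (0, X2) := by
          rw [← map_add]; simp
        rw [this, map_add, hψ'a]
        have h7 : ψ (e (X1, 0)) = 0 := by
          apply hψD
          intro a
          have hmem : a ∈ R ⊔ R' := by rw [hc.sup_eq_top]; trivial
          rw [Submodule.mem_sup] at hmem
          obtain ⟨a1, ha1, a2, ha2, rfl⟩ := hmem
          rw [map_add]
          have e5 : e (X1, 0) a1 = X1 ⟨a1, ha1⟩ := he1 X1 0 ⟨a1, ha1⟩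
          have e6 : e (X1, 0) a2 = 0 := he2 X1 0 ⟨a2, ha2⟩
          rw [e5, e6, add_zero]
          exact hA.1 _
        rw [h7, zero_add]
      rw [h6]; ring
    · have hB : ¬ (D.comap (e (X1, X2)) = R ∧ Good low (D ⊔ LinearMap.range (e (X1, X2)))) :=
        fun h => hA (hc'.1 h)
      have hL : (if D.comap (e (X1, X2)) = R then ff low D γ (e (X1, X2)) * sg (ψ (e (X1, X2)))
          else 0) = 0 := by
        by_cases h7 : D.comap (e (X1, X2)) = R
        · rw [if_pos h7]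
          unfold ff
          rw [if_neg (fun h8 => hB ⟨h7, h8⟩), zero_mul]
        · rw [if_neg h7]
      rw [hL]
      by_cases h8 : ∀ a, X1 a ∈ D
      · rw [if_neg (fun h9 => hA ⟨h8, h9⟩)]; ring
      · rw [if_neg h8]; ring
  rw [hsum]
  have hGU := full_le (bd low D) (Nat.card D * N) (Nat.card D * N * τ) hR.1 hR.2.1 (by positivity)
    ψ' hfull hc1
  rw [← hcdef] at hGU
  have hM : 0 < (Nat.card D : ℝ) * N := by positivity
  have hQ : ((Nat.card D : ℝ) * N) ^ (c + 1) / Fintype.card V +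
      Nat.card D * N * τ * (Nat.card D * N) ^ (c - 1) ≤ 2 * τ * (Nat.card D * N) ^ c := by
    have h1 : ((Nat.card D : ℝ) * N) ^ (c + 1) / Fintype.card V ≤ τ * (Nat.card D * N) ^ c := by
      rw [div_le_iff₀ hVp, pow_succ]
      have := mul_le_mul_of_nonneg_left hR.2.2 (pow_pos hM c).le
      linarith
    have h2 : (Nat.card D : ℝ) * N * τ * (Nat.card D * N) ^ (c - 1) = τ * (Nat.card D * N) ^ c := by
      have : ((Nat.card D : ℝ) * N) ^ c = Nat.card D * N * (Nat.card D * N) ^ (c - 1) := by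
        rw [← pow_succ']; congr 1; omega
      rw [this]; ring
    rw [h2]; linarith
  have hcs : c ≤ s := by omega
  have hK : ((2 : ℝ) ^ c) ^ (2 * c + 1) ≤ ((2 : ℝ) ^ s) ^ (2 * s + 1) := by
    rw [← pow_mul, ← pow_mul]
    apply pow_le_pow_right₀ (by norm_num)
    exact Nat.mul_le_mul hcs (by omega)
  rw [abs_mul, abs_of_nonneg (mul_nonneg (hγ c) (by positivity))]
  calc γ c * (Nat.card D : ℝ) ^ r * |∑ X2 : R' →ₗ[ZMod 2] V,
        (if Bad (bd low D) X2 = ∅ then (1 : ℝ) else 0) * sg (ψ' X2)|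
      ≤ γ c * (Nat.card D : ℝ) ^ r * (3 * ((2 : ℝ) ^ c) ^ (2 * c + 1) *
        (2 * τ * (Nat.card D * N) ^ c)) := by
        apply mul_le_mul_of_nonneg_left _ (mul_nonneg (hγ c) (by positivity))
        exact hGU.trans (mul_le_mul_of_nonneg_left hQ (by positivity))
    _ ≤ γ c * (Nat.card D : ℝ) ^ r * (3 * ((2 : ℝ) ^ s) ^ (2 * s + 1) *
        (2 * τ * (Nat.card D * N) ^ c)) := by
        apply mul_le_mul_of_nonneg_left _ (mul_nonneg (hγ c) (by positivity))
        gcongr
    _ = 6 * ((2 : ℝ) ^ s) ^ (2 * s + 1) * τ * ((Nat.card D : ℝ) ^ s) * (γ c * N ^ c) := by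
        have : (Nat.card D : ℝ) ^ s = (Nat.card D : ℝ) ^ r * (Nat.card D : ℝ) ^ c := by
          rw [← pow_add, hrc]
        rw [this, mul_pow]; ring
    _ ≤ 6 * ((2 : ℝ) ^ s) ^ (2 * s + 1) * τ * ((Nat.card D : ℝ) ^ s) * (θ * γ 0) := by
        apply mul_le_mul_of_nonneg_left (hγθ c hc1) (by positivity)
    _ = _ := by ring

open Classical in
/-- **Positivity for full characters.** -/
lemma full_nonneg (low : Finset V) (h0 : (0 : V) ∈ low) (N τ : ℝ) (hN : 0 < N) (hτ : 0 ≤ τ)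
    (D : Submodule (ZMod 2) V) (hD : Good low D) (hR : Reg low N τ D) (γ : ℕ → ℝ) (hγ : ∀ c, 0 ≤ γ c)
    (ψ : (E →ₗ[ZMod 2] V) →ₗ[ZMod 2] ZMod 2) (hψ : Full ψ) (θ : ℝ) (hθ : 0 ≤ θ)
    (hγθ : ∀ c, 1 ≤ c → γ c * N ^ c ≤ θ * γ 0)
    (hsmall : 6 * ((2 : ℝ) ^ finrank (ZMod 2) E) ^ (3 * finrank (ZMod 2) E + 1) * τ * θ ≤ 1) :
    0 ≤ ∑ X : E →ₗ[ZMod 2] V, ff low D γ X * sg (ψ X) := by
  have hV : Module.Finite (ZMod 2) V := Module.Finite.of_finite
  have hE : Module.Finite (ZMod 2) E := Module.Finite.of_finite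
  by_cases hψD : ∀ X : E →ₗ[ZMod 2] V, (∀ a, X a ∈ D) → ψ X = 0
  swap
  · push Not at hψD
    obtain ⟨Y, hY, hψY⟩ := hψD
    have hψ1 : ψ Y = 1 := (zmod2_cases _).resolve_left hψY
    have h1 : ∑ X : E →ₗ[ZMod 2] V, ff low D γ X * sg (ψ X) =
        ∑ X : E →ₗ[ZMod 2] V, ff low D γ (X + Y) * sg (ψ (X + Y)) :=
      (Equiv.sum_comp (Equiv.addRight Y) (fun X : E →ₗ[ZMod 2] V => ff low D γ X * sg (ψ X))).symm
    have h2 : ∀ X : E →ₗ[ZMod 2] V, ff low D γ (X + Y) * sg (ψ (X + Y)) =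
        - (ff low D γ X * sg (ψ X)) := by
      intro X
      have h3 : D ⊔ LinearMap.range (X + Y) = D ⊔ LinearMap.range X := by
        apply le_antisymm
        · apply sup_le le_sup_left
          rintro _ ⟨a, rfl⟩
          rw [LinearMap.add_apply]
          exact add_mem ((le_sup_right : LinearMap.range X ≤ _) ⟨a, rfl⟩) ((le_sup_left : D ≤ _) (hY a))
        · apply sup_le le_sup_left
          rintro _ ⟨a, rfl⟩
          have : X a = (X + Y) a + Y a := by
            rw [LinearMap.add_apply, add_assoc, add_self', add_zero]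
          rw [this]
          exact add_mem ((le_sup_right : LinearMap.range (X + Y) ≤ _) ⟨a, rfl⟩)
            ((le_sup_left : D ≤ _) (hY a))
      unfold ff
      rw [h3, map_add, sg_add, hψ1, sg_one]
      ring
    simp_rw [h2] at h1
    rw [Finset.sum_neg_distrib] at h1
    have : ∑ X : E →ₗ[ZMod 2] V, ff low D γ X * sg (ψ X) = 0 := by linarith
    rw [this]
  have hfS : Fintype (Submodule (ZMod 2) E) := Fintype.ofFinite _
  set s := finrank (ZMod 2) E with hs
  set M := (Nat.card D : ℝ) ^ s * γ 0 with hM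
  have hM0 : 0 ≤ M := mul_nonneg (by positivity) (hγ 0)
  set T : Submodule (ZMod 2) E → ℝ := fun R =>
    ∑ X ∈ (univ : Finset (E →ₗ[ZMod 2] V)).filter (fun X => D.comap X = R), ff low D γ X * sg (ψ X)
    with hT
  have e1 : ∑ X : E →ₗ[ZMod 2] V, ff low D γ X * sg (ψ X) = ∑ R, T R := by
    rw [hT]
    exact (Finset.sum_fiberwise (univ : Finset (E →ₗ[ZMod 2] V)) (fun X => D.comap X)
      (fun X => ff low D γ X * sg (ψ X))).symm
  have e2 : T ⊤ = M := by
    rw [hT]
    change ∑ X ∈ (univ : Finset (E →ₗ[ZMod 2] V)).filter (fun X => D.comap X = ⊤),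
      ff low D γ X * sg (ψ X) = M
    have h3 : ∀ X ∈ (univ : Finset (E →ₗ[ZMod 2] V)).filter (fun X => D.comap X = ⊤),
        ff low D γ X * sg (ψ X) = γ 0 := by
      intro X hX
      have hX1 := (Finset.mem_filter.1 hX).2
      have hX2 : ∀ a, X a ∈ D := by
        intro a
        have : a ∈ D.comap X := by rw [hX1]; trivial
        exact this
      rw [hψD X hX2, sg_zero, mul_one]
      unfold ff
      have h4 : D ⊔ LinearMap.range X = D := by
        rw [sup_eq_left]
        rintro _ ⟨a, rfl⟩; exact hX2 a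
      rw [h4, if_pos hD, Nat.sub_self]
    rw [Finset.sum_congr rfl h3, Finset.sum_const, nsmul_eq_mul, hM, ← card_hom_into (E := E) D]
    congr 3
    ext X
    simp only [Finset.mem_filter, Finset.mem_univ, true_and]
    rw [Submodule.eq_top_iff']
    rfl
  have e3 : ∀ R ≠ ⊤, |T R| ≤ 6 * ((2 : ℝ) ^ s) ^ (2 * s + 1) * τ * θ * M := by
    intro R hR'
    exact inner_le low h0 N τ hN hτ D hD hR γ hγ ψ hψ hψD R hR' θ hγθ
  rw [e1, ← Finset.add_sum_erase _ _ (Finset.mem_univ (⊤ : Submodule (ZMod 2) E)), e2]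
  have e4 : |∑ R ∈ univ.erase ⊤, T R| ≤ M := by
    calc _ ≤ ∑ R ∈ univ.erase ⊤, |T R| := Finset.abs_sum_le_sum_abs _ _
      _ ≤ ∑ R ∈ (univ : Finset (Submodule (ZMod 2) E)).erase ⊤,
          (6 * ((2 : ℝ) ^ s) ^ (2 * s + 1) * τ * θ * M) := by
          apply Finset.sum_le_sum
          intro R hR'
          exact e3 R (Finset.ne_of_mem_erase hR')
      _ = ((univ : Finset (Submodule (ZMod 2) E)).erase ⊤).card *
          (6 * ((2 : ℝ) ^ s) ^ (2 * s + 1) * τ * θ * M) := by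
          rw [Finset.sum_const, nsmul_eq_mul]
      _ ≤ ((2 : ℝ) ^ s) ^ s * (6 * ((2 : ℝ) ^ s) ^ (2 * s + 1) * τ * θ * M) := by
          apply mul_le_mul_of_nonneg_right _ (by positivity)
          refine le_trans ?_ (card_sub (E := E))
          exact_mod_cast Finset.card_le_univ _
      _ = (6 * ((2 : ℝ) ^ s) ^ (3 * s + 1) * τ * θ) * M := by
          have : ((2 : ℝ) ^ s) ^ (3 * s + 1) = ((2 : ℝ) ^ s) ^ s * ((2 : ℝ) ^ s) ^ (2 * s + 1) := by
            rw [← pow_add]; congr 1; omega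
          rw [this]; ring
      _ ≤ 1 * M := mul_le_mul_of_nonneg_right hsmall hM0
      _ = M := one_mul M
  have := neg_abs_le (∑ R ∈ univ.erase ⊤, T R)
  linarith

end Eight

end Pool.Agent.Y646.Lh
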